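import Mathlib

/-! Decomposition of a rooted tree into small components by deleting few vertices. -/

namespace Alp
open Finset

/-- Residual sizes: exists a function satisfying the bottom-up recursion. -/
theorem exists_res {n : ℕ} (k : ℕ) (par : Fin n → Fin n)
    (hpar : ∀ v, 0 < v.val → (par v).val < v.val) :
    ∃ r : Fin n → ℕ, ∀ v, r v =
      1 + ∑ c ∈ univ.filter (fun c => 0 < c.val ∧ par c = v), (if k ≤ r c then 0 else r c) := by
  have h : ∀ j : ℕ, ∃ r : Fin n → ℕ, ∀ v : Fin n, n ≤ v.val + j → r v =
      1 + ∑ c ∈ univ.filter (fun c => 0 < c.val ∧ par c = v), (if k ≤ r c then 0 else r c) := by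
    intro j
    induction j with
    | zero =>
      refine ⟨fun _ => 0, fun v hv => ?_⟩
      have := v.isLt
      omega
    | succ j ih =>
      obtain ⟨r, hr⟩ := ih
      refine ⟨fun v => 1 + ∑ c ∈ univ.filter (fun c => 0 < c.val ∧ par c = v),
        (if k ≤ r c then 0 else r c), fun v hv => ?_⟩
      dsimp only
      congr 1
      apply Finset.sum_congr rfl
      intro c hc
      simp only [mem_filter, mem_univ, true_and] at hc
      have h1 := hpar c hc.1
      have h2 : n ≤ c.val + j := by
        rw [hc.2] at h1
        omega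
      exact congrArg (fun x => if k ≤ x then 0 else x) (hr c h2)
  obtain ⟨r, hr⟩ := h n
  exact ⟨r, fun v => hr v (by omega)⟩

/-- The top function. -/
theorem exists_top {n : ℕ} (E : Finset (Fin n)) (par : Fin n → Fin n)
    (hpar : ∀ v, 0 < v.val → (par v).val < v.val) (h0 : ∀ v : Fin n, v.val = 0 → v ∈ E) :
    ∃ top : Fin n → Fin n, ∀ v, v ∉ E → top v = if par v ∈ E then v else top (par v) := by
  have h : ∀ j : ℕ, ∃ top : Fin n → Fin n, ∀ v : Fin n, v.val < j → v ∉ E →
      top v = if par v ∈ E then v else top (par v) := by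
    intro j
    induction j with
    | zero => exact ⟨id, fun v hv => absurd hv (by omega)⟩
    | succ j ih =>
      obtain ⟨top, ht⟩ := ih
      refine ⟨fun v => if par v ∈ E then v else top (par v), fun v hv hvE => ?_⟩
      dsimp only
      have hv0 : 0 < v.val := by
        rcases Nat.eq_zero_or_pos v.val with h | h
        · exact absurd (h0 v h) hvE
        · exact h
      by_cases hp : par v ∈ E
      · rw [if_pos hp, if_pos hp]
      · rw [if_neg hp, if_neg hp]
        exact ht (par v) (by have := hpar v hv0; omega) hp
  obtain ⟨top, ht⟩ := h n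
  exact ⟨top, fun v hv => ht v v.isLt hv⟩

/-- Decomposition theorem. -/
theorem decomp {n k : ℕ} (hk : 0 < k) (par : Fin n → Fin n)
    (hpar : ∀ v, 0 < v.val → (par v).val < v.val) :
    ∃ (E : Finset (Fin n)) (top : Fin n → Fin n),
      k * E.card ≤ n + k ∧
      (∀ v : Fin n, v.val = 0 → v ∈ E) ∧
      (∀ v, v ∉ E → par v ∈ E → top v = v) ∧
      (∀ v, v ∉ E → par v ∉ E → top v = top (par v)) ∧
      (∀ v, v ∉ E → top v ∉ E ∧ par (top v) ∈ E ∧ top v ≤ v ∧ top (top v) = top v) ∧
      (∀ t, (univ.filter (fun v => v ∉ E ∧ top v = t)).card < k) := by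
  classical
  obtain ⟨r, hr⟩ := exists_res k par hpar
  set E : Finset (Fin n) := univ.filter (fun v => v.val = 0 ∨ k ≤ r v) with hE
  have hmem : ∀ v, v ∈ E ↔ (v.val = 0 ∨ k ≤ r v) := by intro v; simp [hE]
  have h0 : ∀ v : Fin n, v.val = 0 → v ∈ E := fun v hv => (hmem v).2 (Or.inl hv)
  obtain ⟨top, htop⟩ := exists_top E par hpar h0
  have ht1 : ∀ v, v ∉ E → par v ∈ E → top v = v := fun v h1 h2 => by rw [htop v h1, if_pos h2]
  have ht2 : ∀ v, v ∉ E → par v ∉ E → top v = top (par v) :=
    fun v h1 h2 => by rw [htop v h1, if_neg h2]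
  have hpos : ∀ v, v ∉ E → 0 < v.val := by
    intro v hv
    rcases Nat.eq_zero_or_pos v.val with h | h
    · exact absurd (h0 v h) hv
    · exact h
  have ht3 : ∀ v, v ∉ E → top v ∉ E ∧ par (top v) ∈ E ∧ top v ≤ v ∧ top (top v) = top v := by
    have : ∀ m : ℕ, ∀ v : Fin n, v.val = m → v ∉ E →
        top v ∉ E ∧ par (top v) ∈ E ∧ top v ≤ v ∧ top (top v) = top v := by
      intro m
      induction m using Nat.strong_induction_on with
      | _ m ih =>
        intro v hvm hv
        by_cases hp : par v ∈ E
        · have e := ht1 v hv hp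
          rw [e]
          exact ⟨hv, hp, le_refl _, e⟩
        · have e := ht2 v hv hp
          have hlt := hpar v (hpos v hv)
          obtain ⟨a1, a2, a3, a4⟩ := ih (par v).val (by omega) (par v) rfl hp
          rw [e]
          refine ⟨a1, a2, ?_, a4⟩
          rw [Fin.le_def] at a3 ⊢
          omega
    exact fun v hv => this v.val v rfl hv
  -- the double counting
  have hsum : ∀ S : Finset (Fin n), ∑ v ∈ S, r v =
      S.card + ∑ c ∈ univ.filter (fun c : Fin n => 0 < c.val ∧ par c ∈ S),
        (if k ≤ r c then 0 else r c) := by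
    intro S
    have e1 : ∑ v ∈ S, r v = ∑ v ∈ S, (1 + ∑ c ∈ univ.filter (fun c => 0 < c.val ∧ par c = v),
        (if k ≤ r c then 0 else r c)) := Finset.sum_congr rfl (fun v _ => hr v)
    rw [e1, Finset.sum_add_distrib]
    congr 1
    · simp
    · rw [← Finset.sum_fiberwise_of_maps_to (s := univ.filter (fun c : Fin n => 0 < c.val ∧ par c ∈ S))
        (t := S) (g := par) (by intro c hc; simp only [mem_filter, mem_univ, true_and] at hc; exact hc.2)]
      apply Finset.sum_congr rfl
      intro v hv
      apply Finset.sum_congr _ (fun _ _ => rfl)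
      ext c
      simp only [mem_filter, mem_univ, true_and]
      constructor
      · rintro ⟨h1, h2⟩; exact ⟨⟨h1, by rw [h2]; exact hv⟩, h2⟩
      · rintro ⟨⟨h1, _⟩, h2⟩; exact ⟨h1, h2⟩
  refine ⟨E, top, ?_, h0, ht1, ht2, ht3, ?_⟩
  · -- size of E
    have h1 := hsum univ
    simp only [mem_univ, and_true, card_univ, Fintype.card_fin] at h1
    have h2 : ∑ c ∈ univ.filter (fun c : Fin n => 0 < c.val),
        ((if k ≤ r c then 0 else r c) + (if k ≤ r c then k else 0)) ≤ ∑ v, r v := by
      calc _ ≤ ∑ c ∈ univ.filter (fun c : Fin n => 0 < c.val), r c := by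
            apply Finset.sum_le_sum
            intro c _
            split_ifs with h <;> omega
        _ ≤ _ := Finset.sum_le_sum_of_subset (Finset.filter_subset _ _)
    rw [Finset.sum_add_distrib] at h2
    have h3 : ∑ c ∈ univ.filter (fun c : Fin n => 0 < c.val), (if k ≤ r c then k else 0) =
        k * (univ.filter (fun c : Fin n => 0 < c.val ∧ k ≤ r c)).card := by
      rw [← Finset.sum_filter, Finset.filter_filter, Finset.sum_const, smul_eq_mul, mul_comm]
    have h4 : E.card ≤ (univ.filter (fun c : Fin n => 0 < c.val ∧ k ≤ r c)).card + 1 := by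
      have hsub : E ⊆ (univ.filter (fun c : Fin n => 0 < c.val ∧ k ≤ r c)) ∪
          (univ.filter (fun c : Fin n => c.val = 0)) := by
        intro v hv
        rw [hmem] at hv
        simp only [mem_union, mem_filter, mem_univ, true_and]
        omega
      refine le_trans (card_le_card hsub) (le_trans (card_union_le _ _) ?_)
      have : (univ.filter (fun c : Fin n => c.val = 0)).card ≤ 1 := by
        rw [Finset.card_le_one]
        intro a ha b hb
        simp only [mem_filter, mem_univ, true_and] at ha hb
        exact Fin.ext (by omega)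
      omega
    have h5 : k * (univ.filter (fun c : Fin n => 0 < c.val ∧ k ≤ r c)).card ≤ n := by omega
    calc k * E.card ≤ k * ((univ.filter (fun c : Fin n => 0 < c.val ∧ k ≤ r c)).card + 1) :=
          Nat.mul_le_mul_left _ h4
      _ = k * (univ.filter (fun c : Fin n => 0 < c.val ∧ k ≤ r c)).card + k := by ring
      _ ≤ n + k := by omega
  · intro t
    by_cases hne : (univ.filter (fun v => v ∉ E ∧ top v = t)).Nonempty
    · obtain ⟨v₀, hv₀⟩ := hne
      simp only [mem_filter, mem_univ, true_and] at hv₀
      obtain ⟨b1, b2, b3, b4⟩ := ht3 v₀ hv₀.1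
      rw [hv₀.2] at b1 b2 b3 b4
      set Cp := univ.filter (fun v => v ∉ E ∧ top v = t) with hCp
      have hmemC : ∀ v, v ∈ Cp ↔ (v ∉ E ∧ top v = t) := by intro v; simp [hCp]
      have htC : t ∈ Cp := (hmemC t).2 ⟨b1, b4⟩
      have h1 := hsum Cp
      have h2 : ∑ c ∈ univ.filter (fun c : Fin n => 0 < c.val ∧ par c ∈ Cp),
        (if k ≤ r c then 0 else r c) ≤ ∑ c ∈ Cp.erase t, r c := by
        rw [← Finset.sum_filter_add_sum_filter_not (univ.filter (fun c : Fin n => 0 < c.val ∧ par c ∈ Cp))
          (fun c => k ≤ r c)]
        have z1 : ∑ x ∈ (univ.filter (fun c : Fin n => 0 < c.val ∧ par c ∈ Cp)).filter (fun c => k ≤ r c),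
          (if k ≤ r x then 0 else r x) = 0 := by
          apply Finset.sum_eq_zero
          intro x hx
          rw [mem_filter] at hx
          rw [if_pos hx.2]
        rw [z1, zero_add]
        calc _ = ∑ x ∈ (univ.filter (fun c : Fin n => 0 < c.val ∧ par c ∈ Cp)).filter
              (fun c => ¬ k ≤ r c), r x := by
              apply Finset.sum_congr rfl
              intro x hx
              rw [mem_filter] at hx
              rw [if_neg hx.2]
          _ ≤ _ := by
              apply Finset.sum_le_sum_of_subset
              intro c hc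
              simp only [mem_filter, mem_univ, true_and] at hc
              obtain ⟨⟨c1, c2⟩, c3⟩ := hc
              rw [hmemC] at c2
              have cE : c ∉ E := by
                rw [hmem]; push Not; exact ⟨by omega, by omega⟩
              rw [Finset.mem_erase, hmemC]
              refine ⟨?_, cE, by rw [ht2 c cE c2.1]; exact c2.2⟩
              rintro rfl
              exact c2.1 b2
      have h3 : ∑ v ∈ Cp, r v = r t + ∑ c ∈ Cp.erase t, r c := by
        rw [add_comm, Finset.sum_erase_add _ _ htC]
      have h4 : r t < k := by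
        have := b1
        rw [hmem] at this
        push Not at this
        exact this.2
      -- Need the other inequality: r t ≥ card
      have h5 : ∑ c ∈ Cp.erase t, r c ≤ ∑ c ∈ univ.filter (fun c : Fin n => 0 < c.val ∧ par c ∈ Cp),
        (if k ≤ r c then 0 else r c) := by
        calc ∑ c ∈ Cp.erase t, r c = ∑ c ∈ Cp.erase t, (if k ≤ r c then 0 else r c) := by
              apply Finset.sum_congr rfl
              intro c hc
              rw [Finset.mem_erase, hmemC] at hc
              have := hc.2.1
              rw [hmem] at this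
              push Not at this
              rw [if_neg (by omega)]
          _ ≤ _ := by
              apply Finset.sum_le_sum_of_subset
              intro c hc
              rw [Finset.mem_erase, hmemC] at hc
              obtain ⟨c1, c2, c3⟩ := hc
              have hpE : par c ∉ E := by
                intro hp
                exact c1 ((ht1 c c2 hp).symm.trans c3)
              simp only [mem_filter, mem_univ, true_and]
              refine ⟨hpos c c2, (hmemC _).2 ⟨hpE, ?_⟩⟩
              rw [← ht2 c c2 hpE]; exact c3
      omega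
    · rw [Finset.not_nonempty_iff_eq_empty] at hne
      rw [hne]; simpa using hk

end Alp
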