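import Pool.Agent.Work.MP_f04a5a_co.ClassData
import Pool.Agent.Work.MP_f04a5a_co.Decomp

/-! Assembling the placements of all classes. -/

namespace Alp
open Finset

theorem blocks (F : ℕ → ℕ) {τ τ' x x' : ℕ} (hx : x < F τ) (hx' : x' < F τ')
    (h : (∑ i ∈ range τ, F i) + x = (∑ i ∈ range τ', F i) + x') : τ = τ' ∧ x = x' := by
  have key : ∀ a b y z : ℕ, y < F a → a < b →
      (∑ i ∈ range a, F i) + y < (∑ i ∈ range b, F i) + z := by
    intro a b y z hy hab
    have h1 : ∑ i ∈ range (a + 1), F i ≤ ∑ i ∈ range b, F i := by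
      apply Finset.sum_le_sum_of_subset
      intro i hi
      rw [mem_range] at hi ⊢
      omega
    rw [Finset.sum_range_succ] at h1
    omega
  rcases lt_trichotomy τ τ' with h1 | h1 | h1
  · have := key τ τ' x x' hx h1; omega
  · subst h1; exact ⟨rfl, by omega⟩
  · have := key τ' τ x' x hx' h1; omega

namespace Dec

variable {n k : ℕ} (D : Dec n k)

theorem exists_numbering : ∃ (c : Fin n → ℕ) (κ : ℕ → Finset ℕ × Finset ℕ),
    (∀ t, c t < 8 ^ k) ∧ ∀ t, D.code t = κ (c t) := by
  classical
  set S := (range (2 * k)).powerset ×ˢ (range k).powerset with hS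
  have hcard : S.card = 8 ^ k := by
    rw [hS, card_product, card_powerset, card_powerset, card_range, card_range, pow_mul, ← mul_pow]
    norm_num
  let e := S.equivFin
  refine ⟨fun t => (e ⟨D.code t, D.code_mem t⟩).val,
    fun i => if h : i < S.card then (e.symm ⟨i, h⟩).val else (∅, ∅), ?_, ?_⟩
  · intro t; dsimp only; rw [← hcard]; exact (e _).isLt
  · intro t
    dsimp only
    rw [dif_pos (e _).isLt]
    simp

theorem assemble (hk : 0 < k) (Δ : ℕ)
    (hΔ : ∀ u, (univ.filter (fun v : Fin n => 0 < v.val ∧ D.par v = u)).card ≤ Δ)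
    (hE : k * D.E.card ≤ n + k) :
    ∃ (e : Fin n → ℕ) (G : Finset (Fin n)) (H : Finset (Fin n)),
      (∀ v ∈ G, D.side v = true → e v < (univ.filter (fun v => D.side v = true)).card) ∧
      (∀ v ∈ G, D.side v = false → e v < (univ.filter (fun v => D.side v = false)).card) ∧
      (∀ v ∈ G, ∀ v' ∈ G, D.side v = D.side v' → e v = e v' → v = v') ∧
      (∀ v ∈ H, 0 < v.val ∧ v ∈ G ∧ D.par v ∈ G) ∧
      (∀ v ∈ H, ∀ v' ∈ H, e v + e (D.par v) = e v' + e (D.par v') → v = v') ∧
      k * (n - H.card) ≤ (Δ + 1) * (n + k) + n + 8 ^ k * k ^ 7 := by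
  classical
  obtain ⟨c, κ, hc, hκ⟩ := D.exists_numbering
  set T := 8 ^ k with hT
  let tops : ℕ → Finset (Fin n) := fun τ => univ.filter (fun t => D.IsTop t ∧ c t = τ)
  have hmt : ∀ τ t, t ∈ tops τ ↔ D.IsTop t ∧ c t = τ := by intro τ t; simp [tops]
  let N : ℕ → ℕ := fun τ => (tops τ).card
  have hdata := fun τ => D.class_data hk (κ τ) (N τ)
  choose a b P pos d1 d2 d3 d4 d5 d6 using hdata
  have hcode : ∀ {τ t}, c t = τ → D.code t = κ τ := by
    intro τ t h; rw [hκ t, h]
  -- ranks
  let ρ : Fin n → ℕ := fun t => ((tops (c t)).filter (fun t' => t' < t)).card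
  have hρlt : ∀ t, D.IsTop t → ρ t < N (c t) := by
    intro t ht
    apply Finset.card_lt_card
    rw [Finset.ssubset_iff_of_subset (Finset.filter_subset _ _)]
    exact ⟨t, (hmt _ _).2 ⟨ht, rfl⟩, by simp⟩
  have hρinj : ∀ t t', D.IsTop t → D.IsTop t' → c t = c t' → ρ t = ρ t' → t = t' := by
    have key : ∀ t t', D.IsTop t → c t = c t' → t < t' → ρ t < ρ t' := by
      intro t t' ht h1 h2
      apply Finset.card_lt_card
      rw [h1, Finset.ssubset_iff_of_subset]
      · exact ⟨t, by rw [mem_filter]; exact ⟨(hmt _ _).2 ⟨ht, h1⟩, h2⟩, by simp⟩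
      · intro x hx
        rw [mem_filter] at hx ⊢
        exact ⟨hx.1, lt_trans hx.2 h2⟩
    intro t t' ht ht' h1 h2
    rcases lt_trichotomy t t' with h | h | h
    · have := key t t' ht h1 h; omega
    · exact h
    · have := key t' t ht' h1.symm h; omega
  -- counting in fibres
  have hfib : ∀ (Pt : Fin n → Prop) (Pv : Fin n → Prop) [DecidablePred Pt] [DecidablePred Pv]
      (S : Finset (Fin n)),
      (∀ v, v ∈ S ↔ v ∉ D.E ∧ D.IsTop (D.top v) ∧ Pt (D.top v) ∧ Pv v) → S.card =
      ∑ τ ∈ range T, ∑ t ∈ (tops τ).filter Pt, ((D.comp t).filter Pv).card := by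
    intro Pt Pv _ _ S hS
    rw [Finset.card_eq_sum_card_fiberwise (f := fun v => c (D.top v)) (t := range T)
      (by intro v _; exact mem_coe.2 (mem_range.2 (hc _)))]
    apply Finset.sum_congr rfl
    intro τ _
    rw [Finset.card_eq_sum_card_fiberwise (f := D.top) (t := (tops τ).filter Pt)]
    · apply Finset.sum_congr rfl
      intro t ht
      rw [mem_filter, hmt] at ht
      congr 1
      ext v
      simp only [mem_filter, hS, D.mem_comp]
      constructor
      · rintro ⟨⟨⟨h1, h2, h3, h4⟩, h5⟩, h6⟩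
        exact ⟨⟨h1, h6⟩, h4⟩
      · rintro ⟨⟨h1, h2⟩, h3⟩
        rw [h2]
        exact ⟨⟨⟨h1, ht.1.1, ht.2, h3⟩, ht.1.2⟩, rfl⟩
    · intro v hv
      rw [mem_coe, mem_filter, hS] at hv
      rw [mem_coe, mem_filter, hmt]
      exact ⟨⟨hv.1.2.1, hv.2⟩, hv.1.2.2.1⟩
  have htotA : ∑ τ ∈ range T, a τ * N τ ≤ (univ.filter (fun v => D.side v = true)).card := by
    have h1 := hfib (fun _ => True) (fun v => D.side v = true)
      (univ.filter (fun v => v ∉ D.E ∧ D.IsTop (D.top v) ∧ True ∧ D.side v = true))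
      (by intro v; rw [mem_filter]; exact ⟨fun h => h.2, fun h => ⟨mem_univ _, h⟩⟩)
    have h2 : ∑ τ ∈ range T, ∑ t ∈ (tops τ).filter (fun _ => True),
        ((D.comp t).filter (fun v => D.side v = true)).card = ∑ τ ∈ range T, a τ * N τ := by
      apply Finset.sum_congr rfl
      intro τ _
      rw [Finset.sum_congr rfl (g := fun _ => a τ)]
      · rw [Finset.sum_const, smul_eq_mul, mul_comm]
        simp [N]
      · intro t ht
        rw [mem_filter, hmt] at ht
        exact (d4 τ t ht.1.1 (hcode ht.1.2)).1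
    rw [← h2, ← h1]
    apply Finset.card_le_card
    intro v hv
    rw [mem_filter] at hv ⊢
    exact ⟨mem_univ _, hv.2.2.2.2⟩
  have htotB : ∑ τ ∈ range T, b τ * N τ ≤ (univ.filter (fun v => D.side v = false)).card := by
    have h1 := hfib (fun _ => True) (fun v => D.side v = false)
      (univ.filter (fun v => v ∉ D.E ∧ D.IsTop (D.top v) ∧ True ∧ D.side v = false))
      (by intro v; rw [mem_filter]; exact ⟨fun h => h.2, fun h => ⟨mem_univ _, h⟩⟩)
    have h2 : ∑ τ ∈ range T, ∑ t ∈ (tops τ).filter (fun _ => True),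
        ((D.comp t).filter (fun v => D.side v = false)).card = ∑ τ ∈ range T, b τ * N τ := by
      apply Finset.sum_congr rfl
      intro τ _
      rw [Finset.sum_congr rfl (g := fun _ => b τ)]
      · rw [Finset.sum_const, smul_eq_mul, mul_comm]
        simp [N]
      · intro t ht
        rw [mem_filter, hmt] at ht
        exact (d4 τ t ht.1.1 (hcode ht.1.2)).2
    rw [← h2, ← h1]
    apply Finset.card_le_card
    intro v hv
    rw [mem_filter] at hv ⊢
    exact ⟨mem_univ _, hv.2.2.2.2⟩
  have hAB : (univ.filter (fun v => D.side v = true)).card +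
      (univ.filter (fun v => D.side v = false)).card = n := by
    have h1 := Finset.card_filter_add_card_filter_not (s := (univ : Finset (Fin n)))
      (fun v => D.side v = true)
    have h2 : ((univ : Finset (Fin n)).filter (fun v => ¬ D.side v = true)) =
        (univ.filter (fun v => D.side v = false)) := by
      apply Finset.filter_congr
      intro x _
      simp
    rw [h2] at h1
    simpa using h1
  -- the positions
  let e : Fin n → ℕ := fun v =>
    (if D.side v = true then ∑ i ∈ range (c (D.top v)), a i * N i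
      else ∑ i ∈ range (c (D.top v)), b i * N i) + pos (c (D.top v)) (ρ (D.top v)) (D.idx v)
  have heT : ∀ v, D.side v = true → e v = (∑ i ∈ range (c (D.top v)), a i * N i) +
      pos (c (D.top v)) (ρ (D.top v)) (D.idx v) := by
    intro v h; simp only [e]; rw [if_pos h]
  have heF : ∀ v, D.side v = false → e v = (∑ i ∈ range (c (D.top v)), b i * N i) +
      pos (c (D.top v)) (ρ (D.top v)) (D.idx v) := by
    intro v h; simp only [e]; rw [if_neg (by rw [h]; simp)]
  let G : Finset (Fin n) := univ.filter (fun v => v ∉ D.E ∧ D.IsTop (D.top v) ∧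
    ρ (D.top v) < P (c (D.top v)))
  have hG : ∀ v, v ∈ G ↔ v ∉ D.E ∧ D.IsTop (D.top v) ∧ ρ (D.top v) < P (c (D.top v)) := by
    intro v; simp [G]
  let H : Finset (Fin n) := G.filter (fun v => D.par v ∉ D.E)
  have hH : ∀ v, v ∈ H ↔ v ∈ G ∧ D.par v ∉ D.E := by intro v; simp [H]
  have hcm : ∀ v, v ∉ D.E → v ∈ D.comp (D.top v) := fun v hv => (D.mem_comp _ _).2 ⟨hv, rfl⟩
  have hlocT : ∀ v ∈ G, D.side v = true →
      pos (c (D.top v)) (ρ (D.top v)) (D.idx v) < a (c (D.top v)) * N (c (D.top v)) := by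
    intro v hv hs
    obtain ⟨g1, g2, g3⟩ := (hG v).1 hv
    exact (d5 _ (D.top v) v g2 (hcode rfl) (hcm v g1) _ g3).1 hs
  have hlocF : ∀ v ∈ G, D.side v = false →
      pos (c (D.top v)) (ρ (D.top v)) (D.idx v) < b (c (D.top v)) * N (c (D.top v)) := by
    intro v hv hs
    obtain ⟨g1, g2, g3⟩ := (hG v).1 hv
    exact (d5 _ (D.top v) v g2 (hcode rfl) (hcm v g1) _ g3).2 hs
  have hloc : ∀ v ∈ G, ∀ v' ∈ G, D.side v = D.side v' → c (D.top v) = c (D.top v') →
      pos (c (D.top v)) (ρ (D.top v)) (D.idx v) = pos (c (D.top v')) (ρ (D.top v')) (D.idx v') →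
      v = v' := by
    intro v hv v' hv' hs hcc h
    obtain ⟨g1, g2, g3⟩ := (hG v).1 hv
    obtain ⟨g1', g2', g3'⟩ := (hG v').1 hv'
    rw [← hcc] at h g3'
    obtain ⟨r1, r2⟩ := (d6 _ (D.top v) v (D.top v') v' g2 (hcode rfl) (hcm v g1) g2'
      (hcode hcc.symm) (hcm v' g1') _ g3 _ g3').1 hs h
    have r3 := hρinj _ _ g2 g2' hcc r1
    have m1 := hcm v g1
    have m2 := hcm v' g1'
    rw [← r3] at m2
    exact D.idx_inj m1 m2 r2
  have hsumlt : ∀ (F : ℕ → ℕ) (τ x : ℕ), τ < T → x < F τ →
      (∑ i ∈ range τ, F i) + x < ∑ i ∈ range T, F i := by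
    intro F τ x hτ hx
    have h1 : ∑ i ∈ range (τ + 1), F i ≤ ∑ i ∈ range T, F i := by
      apply Finset.sum_le_sum_of_subset
      intro i hi
      rw [mem_range] at hi ⊢
      omega
    rw [Finset.sum_range_succ] at h1
    omega
  have hHG : ∀ v ∈ H, 0 < v.val ∧ v ∈ G ∧ D.par v ∈ G ∧ D.top (D.par v) = D.top v ∧
      v ≠ D.top v := by
    intro v hv
    obtain ⟨h1, h2⟩ := (hH v).1 hv
    obtain ⟨g1, g2, g3⟩ := (hG v).1 h1
    have e1 := D.ht2 v g1 h2
    refine ⟨D.val_pos (hcm v g1), h1, (hG _).2 ⟨h2, ?_, ?_⟩, e1.symm, ?_⟩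
    · rw [← e1]; exact g2
    · rw [← e1]; exact g3
    · intro h
      obtain ⟨b1, b2, b3, b4⟩ := D.ht3 v g1
      rw [← h] at b2
      exact h2 b2
  -- sums along edges
  have hsumE : ∀ v ∈ H, e v + e (D.par v) =
      (∑ i ∈ range (c (D.top v)), (a i * N i + b i * N i)) +
      (pos (c (D.top v)) (ρ (D.top v)) (D.idx v) +
        pos (c (D.top v)) (ρ (D.top v)) (D.idx (D.par v))) ∧
      pos (c (D.top v)) (ρ (D.top v)) (D.idx v) +
        pos (c (D.top v)) (ρ (D.top v)) (D.idx (D.par v)) <
        a (c (D.top v)) * N (c (D.top v)) + b (c (D.top v)) * N (c (D.top v)) := by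
    intro v hv
    obtain ⟨h0, h1, h2, h3, h4⟩ := hHG v hv
    have hs := D.hside v h0
    rw [Finset.sum_add_distrib]
    cases hb : D.side (D.par v) with
    | true =>
      rw [hb] at hs
      have hs' : D.side v = false := hs
      have l1 := hlocF v h1 hs'
      have l2 := hlocT _ h2 hb
      rw [heF v hs', heT _ hb]
      rw [h3] at l2 ⊢
      constructor <;> omega
    | false =>
      rw [hb] at hs
      have hs' : D.side v = true := hs
      have l1 := hlocT v h1 hs'
      have l2 := hlocF _ h2 hb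
      rw [heT v hs', heF _ hb]
      rw [h3] at l2 ⊢
      constructor <;> omega
  refine ⟨e, G, H, ?_, ?_, ?_, ?_, ?_, ?_⟩
  · intro v hv hs
    rw [heT v hs]
    exact lt_of_lt_of_le (hsumlt (fun i => a i * N i) _ _ (hc _) (hlocT v hv hs)) htotA
  · intro v hv hs
    rw [heF v hs]
    exact lt_of_lt_of_le (hsumlt (fun i => b i * N i) _ _ (hc _) (hlocF v hv hs)) htotB
  · intro v hv v' hv' hs h
    cases hb : D.side v with
    | true =>
      have hb' : D.side v' = true := by rw [← hs]; exact hb
      rw [heT v hb, heT v' hb'] at h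
      obtain ⟨r1, r2⟩ := blocks (fun i => a i * N i) (hlocT v hv hb) (hlocT v' hv' hb') h
      exact hloc v hv v' hv' hs r1 r2
    | false =>
      have hb' : D.side v' = false := by rw [← hs]; exact hb
      rw [heF v hb, heF v' hb'] at h
      obtain ⟨r1, r2⟩ := blocks (fun i => b i * N i) (hlocF v hv hb) (hlocF v' hv' hb') h
      exact hloc v hv v' hv' hs r1 r2
  · intro v hv
    obtain ⟨h0, h1, h2, h3, h4⟩ := hHG v hv
    exact ⟨h0, h1, h2⟩
  · intro v hv v' hv' h
    obtain ⟨h0, h1, h2, h3, h4⟩ := hHG v hv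
    obtain ⟨h0', h1', h2', h3', h4'⟩ := hHG v' hv'
    obtain ⟨s1, s2⟩ := hsumE v hv
    obtain ⟨s1', s2'⟩ := hsumE v' hv'
    rw [s1, s1'] at h
    obtain ⟨r1, r2⟩ := blocks (fun i => a i * N i + b i * N i) s2 s2' h
    obtain ⟨g1, g2, g3⟩ := (hG v).1 h1
    obtain ⟨g1', g2', g3'⟩ := (hG v').1 h1'
    rw [← r1] at r2 g3'
    obtain ⟨q1, q2⟩ := (d6 _ (D.top v) v (D.top v') v' g2 (hcode rfl) (hcm v g1) g2'
      (hcode r1.symm) (hcm v' g1') _ g3 _ g3').2 h4 h4' r2
    have q3 := hρinj _ _ g2 g2' r1 q1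
    have m1 := hcm v g1
    have m2 := hcm v' g1'
    rw [← q3] at m2
    exact D.idx_inj m1 m2 q2
  · -- counting
    let U : Finset (Fin n) := univ.filter (fun v => v ∉ D.E ∧ D.IsTop (D.top v) ∧
      ¬ ρ (D.top v) < P (c (D.top v)) ∧ True)
    have hU : k * U.card ≤ n + T * k ^ 7 := by
      have h2 : U.card = ∑ τ ∈ range T, ∑ t ∈ (tops τ).filter (fun t => ¬ ρ t < P (c t)),
          ((D.comp t).filter (fun _ => True)).card :=
        hfib (fun t => ¬ ρ t < P (c t)) (fun _ => True) U
          (by intro v; simp only [U]; rw [mem_filter]; exact ⟨fun h => h.2, fun h => ⟨mem_univ _, h⟩⟩)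
      have h3 : ∀ τ, k * ∑ t ∈ (tops τ).filter (fun t => ¬ ρ t < P (c t)),
          ((D.comp t).filter (fun _ => True)).card ≤ (a τ * N τ + b τ * N τ) + k ^ 7 := by
        intro τ
        have e1 : ∑ t ∈ (tops τ).filter (fun t => ¬ ρ t < P (c t)),
          ((D.comp t).filter (fun _ => True)).card =
          ((tops τ).filter (fun t => ¬ ρ t < P (c t))).card * (a τ + b τ) := by
          rw [Finset.sum_congr rfl (g := fun _ => a τ + b τ)]
          · rw [Finset.sum_const, smul_eq_mul]
          · intro t ht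
            rw [mem_filter, hmt] at ht
            obtain ⟨z1, z2⟩ := d4 τ t ht.1.1 (hcode ht.1.2)
            rw [← z1, ← z2]
            have y1 := Finset.card_filter_add_card_filter_not (s := D.comp t)
              (fun v => D.side v = true)
            have y2 : ((D.comp t).filter (fun v => ¬ D.side v = true)) =
                ((D.comp t).filter (fun v => D.side v = false)) := by
              apply Finset.filter_congr
              intro x _
              simp
            rw [y2] at y1
            rw [y1]; simp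
        have e2 : ((tops τ).filter (fun t => ¬ ρ t < P (c t))).card ≤ N τ - P τ := by
          have : ((tops τ).filter (fun t => ¬ ρ t < P (c t))).card ≤ (Finset.Ico (P τ) (N τ)).card := by
            apply Finset.card_le_card_of_injOn ρ
            · intro t ht
              rw [mem_coe, mem_filter, hmt] at ht
              have z1 := hρlt t ht.1.1
              have z2 := ht.2
              rw [ht.1.2] at z1 z2
              rw [mem_coe, Finset.mem_Ico]
              exact ⟨by omega, z1⟩
            · intro t ht t' ht' h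
              rw [mem_coe, mem_filter, hmt] at ht ht'
              exact hρinj t t' ht.1.1 ht'.1.1 (by rw [ht.1.2, ht'.1.2]) h
          rw [Nat.card_Ico] at this
          exact this
        rw [e1]
        calc k * (((tops τ).filter (fun t => ¬ ρ t < P (c t))).card * (a τ + b τ))
            ≤ k * ((N τ - P τ) * (a τ + b τ)) :=
              Nat.mul_le_mul_left _ (Nat.mul_le_mul_right _ e2)
          _ = (k * (N τ - P τ)) * (a τ + b τ) := by ring
          _ ≤ (N τ + k ^ 6) * (a τ + b τ) := Nat.mul_le_mul_right _ (d2 τ)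
          _ = (a τ * N τ + b τ * N τ) + k ^ 6 * (a τ + b τ) := by ring
          _ ≤ (a τ * N τ + b τ * N τ) + k ^ 6 * k :=
              Nat.add_le_add_left (Nat.mul_le_mul_left _ (d3 τ)) _
          _ = _ := by ring
      rw [h2, Finset.mul_sum]
      calc _ ≤ ∑ τ ∈ range T, ((a τ * N τ + b τ * N τ) + k ^ 7) :=
            Finset.sum_le_sum (fun τ _ => h3 τ)
        _ = (∑ τ ∈ range T, a τ * N τ) + (∑ τ ∈ range T, b τ * N τ) + T * k ^ 7 := by
            rw [Finset.sum_add_distrib, Finset.sum_add_distrib, Finset.sum_const, card_range,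
              smul_eq_mul]
        _ ≤ n + T * k ^ 7 := by omega
    let C : Finset (Fin n) := univ.filter (fun v : Fin n => 0 < v.val ∧ D.par v ∈ D.E)
    have hC : C.card ≤ D.E.card * Δ := by
      have : C = D.E.biUnion (fun u => univ.filter (fun v : Fin n => 0 < v.val ∧ D.par v = u)) := by
        ext v
        simp only [C, mem_filter, mem_univ, true_and, mem_biUnion]
        constructor
        · rintro ⟨h1, h2⟩; exact ⟨_, h2, h1, rfl⟩
        · rintro ⟨u, h1, h2, h3⟩; exact ⟨h2, by rw [h3]; exact h1⟩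
      rw [this]
      exact Finset.card_biUnion_le_card_mul _ _ _ (fun u _ => hΔ u)
    have hcov : (univ : Finset (Fin n)) ⊆ H ∪ (D.E ∪ (C ∪ U)) := by
      intro v _
      simp only [mem_union]
      by_cases h1 : v ∈ D.E
      · exact Or.inr (Or.inl h1)
      by_cases h2 : D.par v ∈ D.E
      · exact Or.inr (Or.inr (Or.inl (by
          simp only [C, mem_filter, mem_univ, true_and]
          exact ⟨D.val_pos (hcm v h1), h2⟩)))
      have htop : D.IsTop (D.top v) := by
        have m1 := hcm v h1
        have m2 : D.par v ∈ D.comp (D.top v) := (D.mem_comp _ _).2 ⟨h2, (D.ht2 v h1 h2).symm⟩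
        refine ⟨D.top_mem m1, ?_⟩
        have hne : D.par v ≠ v := ne_of_lt (D.par_lt m1)
        have : ({D.par v, v} : Finset (Fin n)) ⊆ D.comp (D.top v) := by
          intro x hx
          simp only [mem_insert, mem_singleton] at hx
          rcases hx with rfl | rfl
          · exact m2
          · exact m1
        have h3 := card_le_card this
        rw [card_pair hne] at h3
        exact h3
      by_cases h3 : ρ (D.top v) < P (c (D.top v))
      · exact Or.inl ((hH v).2 ⟨(hG v).2 ⟨h1, htop, h3⟩, h2⟩)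
      · exact Or.inr (Or.inr (Or.inr (by
          simp only [U, mem_filter, mem_univ, true_and]
          exact ⟨h1, htop, h3, trivial⟩)))
    have hcount : n ≤ H.card + (D.E.card + (C.card + U.card)) := by
      have h1 := card_le_card hcov
      rw [card_univ, Fintype.card_fin] at h1
      refine le_trans h1 (le_trans (card_union_le _ _) (Nat.add_le_add_left
        (le_trans (card_union_le _ _) (Nat.add_le_add_left (card_union_le _ _) _)) _))
    calc k * (n - H.card) ≤ k * (D.E.card + (D.E.card * Δ + U.card)) :=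
          Nat.mul_le_mul_left _ (by omega)
      _ = (Δ + 1) * (k * D.E.card) + k * U.card := by ring
      _ ≤ (Δ + 1) * (n + k) + (n + T * k ^ 7) :=
          Nat.add_le_add (Nat.mul_le_mul_left _ hE) hU
      _ = _ := by ring

end Dec
end Alp
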