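import Pool.Agent.Work.MP_f04a5a_co.DataB
import Pool.Agent.Work.MP_f04a5a_co.Assemble

/-! Assembling the placements with residues. -/

namespace Alp
open Finset

theorem wt_le' (h : ℕ) (b : Bool) : wt h b ≤ 1 + (if b = true then 2 * h else 0) := by
  unfold wt; split_ifs <;> omega

namespace Dec

variable {n k : ℕ} (D : Dec n k)

theorem assembleB (hk : 0 < k) (h : ℕ) (hh : 0 < h) (Δ : ℕ)
    (hΔ : ∀ u, (univ.filter (fun v : Fin n => 0 < v.val ∧ D.par v = u)).card ≤ Δ)
    (hE : k * D.E.card ≤ n + k) :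
    ∃ (e : Fin n → ℕ) (G Bs : Finset (Fin n)) (RL RH : ℕ),
      (2 * h + 1 ∣ RL) ∧ (2 * h + 1 ∣ RH) ∧
      (∀ v ∈ G, D.side v = true → e v < RL) ∧
      (∀ v ∈ G, D.side v = false → e v < RH) ∧
      (∀ v ∈ G, ∀ v' ∈ G, D.side v = D.side v' → e v = e v' → v = v') ∧
      (∀ v ∈ G, v ∈ Bs → e v % (2 * h + 1) = 0) ∧
      (∀ v ∈ G, v ∉ D.E) ∧
      (∀ v ∈ G, D.par v ∉ D.E → D.par v ∈ G) ∧
      (∀ v, v ∉ D.E → D.par v ∈ G → v ∈ G) ∧
      (∀ v ∈ G, ∀ v' ∈ G, D.par v ∈ G → D.par v' ∈ G →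
        e v + e (D.par v) = e v' + e (D.par v') → v = v') ∧
      (∀ v ∈ G, D.par v ∈ G → (e v + e (D.par v)) % (2 * h + 1) = 0 → v ∈ Bs) ∧
      (∀ v, v ∉ D.E → (D.par v ∈ D.E ∨ ∃ c : Fin n, 0 < c.val ∧ D.par c = v ∧ c ∈ D.E) → v ∈ Bs) ∧
      2 * h * (RL + RH) ≤ (2 * h + 1) * (n + 2 * h * Bs.card) ∧
      k * Bs.card ≤ (Δ + 1) * (n + k) ∧
      k * (univ \ G).card ≤ (Δ + 1) * (n + k) + n +
        16 ^ k * (k * (2 * (2 * h * k) ^ 4 * k ^ 2)) := by
  classical
  obtain ⟨c, κ, hc, hκ⟩ := D.exists_numberingB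
  set T := 16 ^ k with hT
  obtain ⟨cst, hcst⟩ : ∃ cst, cst = 2 * (2 * h * k) ^ 4 * k ^ 2 := ⟨_, rfl⟩
  rw [← hcst]
  let tops : ℕ → Finset (Fin n) := fun τ => univ.filter (fun t => D.IsTop t ∧ c t = τ)
  have hmt : ∀ τ t, t ∈ tops τ ↔ D.IsTop t ∧ c t = τ := by intro τ t; simp [tops]
  let N : ℕ → ℕ := fun τ => (tops τ).card
  have hdata := fun τ => D.class_dataB hk h hh (κ τ) (N τ)
  rw [← hcst] at hdata
  choose A B m P pos d1 d2 d3 d4 d5 d6 using hdata
  have hcode : ∀ {τ t}, c t = τ → D.codeB t = κ τ := by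
    intro τ t h; rw [hκ t, h]
  -- ranks
  let ρ : Fin n → ℕ := fun t => ((tops (c t)).filter (fun t' => t' < t)).card
  have hρlt : ∀ t, D.IsTop t → ρ t < N (c t) := by
    intro t ht
    apply Finset.card_lt_card
    rw [Finset.ssubset_iff_of_subset (Finset.filter_subset _ _)]
    exact ⟨t, (hmt _ _).2 ⟨ht, rfl⟩, by simp⟩
  have hρinj : ∀ t t', D.IsTop t → D.IsTop t' → c t = c t' → ρ t = ρ t' → t = t' := by
    have key : ∀ t t', D.IsTop t → c t = c t' → t < t' → ρ t < ρ t' := by
      intro t t' ht h1 h2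
      apply Finset.card_lt_card
      rw [h1, Finset.ssubset_iff_of_subset]
      · exact ⟨t, by rw [mem_filter]; exact ⟨(hmt _ _).2 ⟨ht, h1⟩, h2⟩, by simp⟩
      · intro x hx
        rw [mem_filter] at hx ⊢
        exact ⟨hx.1, lt_trans hx.2 h2⟩
    intro t t' ht ht' h1 h2
    rcases lt_trichotomy t t' with h | h | h
    · have := key t t' ht h1 h; omega
    · exact h
    · have := key t' t ht' h1.symm h; omega
  -- counting in fibres
  have hfib : ∀ (Pt : Fin n → Prop) (Pv : Fin n → Prop) [DecidablePred Pt] [DecidablePred Pv]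
      (S : Finset (Fin n)) (F : Fin n → ℕ),
      (∀ v, v ∈ S ↔ v ∉ D.E ∧ D.IsTop (D.top v) ∧ Pt (D.top v) ∧ Pv v) → ∑ v ∈ S, F v =
      ∑ τ ∈ range T, ∑ t ∈ (tops τ).filter Pt, ∑ v ∈ (D.comp t).filter Pv, F v := by
    intro Pt Pv _ _ S F hS
    rw [← Finset.sum_fiberwise_of_maps_to (g := fun v => c (D.top v)) (t := range T)
      (by intro v _; exact (mem_range.2 (hc _)))]
    apply Finset.sum_congr rfl
    intro τ _
    rw [← Finset.sum_fiberwise_of_maps_to (g := D.top) (t := (tops τ).filter Pt)]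
    · apply Finset.sum_congr rfl
      intro t ht
      rw [mem_filter, hmt] at ht
      apply Finset.sum_congr _ (fun _ _ => rfl)
      ext v
      simp only [mem_filter, hS, D.mem_comp]
      constructor
      · rintro ⟨⟨⟨h1, h2, h3, h4⟩, h5⟩, h6⟩
        exact ⟨⟨h1, h6⟩, h4⟩
      · rintro ⟨⟨h1, h2⟩, h3⟩
        rw [h2]
        exact ⟨⟨⟨h1, ht.1.1, ht.2, h3⟩, ht.1.2⟩, rfl⟩
    · intro v hv
      rw [mem_filter, hS] at hv
      rw [mem_filter, hmt]
      exact ⟨⟨hv.1.2.1, hv.2⟩, hv.1.2.2.1⟩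
  let Bs : Finset (Fin n) := univ.filter (fun v => v ∉ D.E ∧ D.bdry v = true)
  have hBs : ∀ v, v ∈ Bs ↔ v ∉ D.E ∧ D.bdry v = true := by intro v; simp [Bs]
  have htot : (∑ τ ∈ range T, A τ * N τ) + (∑ τ ∈ range T, B τ * N τ) ≤ n + 2 * h * Bs.card := by
    let S : Bool → Finset (Fin n) := fun bb =>
      univ.filter (fun v => v ∉ D.E ∧ D.IsTop (D.top v) ∧ True ∧ D.side v = bb)
    have hA := hfib (fun _ => True) (fun v => D.side v = true) (S true)
      (fun v => wt h (D.bdry v)) (by intro v; simp only [S]; rw [mem_filter]; exact ⟨fun h => h.2, fun h => ⟨mem_univ _, h⟩⟩)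
    have hB := hfib (fun _ => True) (fun v => D.side v = false) (S false)
      (fun v => wt h (D.bdry v)) (by intro v; simp only [S]; rw [mem_filter]; exact ⟨fun h => h.2, fun h => ⟨mem_univ _, h⟩⟩)
    have hA2 : ∑ τ ∈ range T, ∑ t ∈ (tops τ).filter (fun _ => True),
        ∑ v ∈ (D.comp t).filter (fun v => D.side v = true), wt h (D.bdry v) =
        ∑ τ ∈ range T, A τ * N τ := by
      apply Finset.sum_congr rfl
      intro τ _
      rw [Finset.sum_congr rfl (g := fun _ => A τ)]
      · rw [Finset.sum_const, smul_eq_mul, mul_comm]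
        simp [N]
      · intro t ht
        rw [mem_filter, hmt] at ht
        exact (d4 τ t ht.1.1 (hcode ht.1.2)).2.1
    have hB2 : ∑ τ ∈ range T, ∑ t ∈ (tops τ).filter (fun _ => True),
        ∑ v ∈ (D.comp t).filter (fun v => D.side v = false), wt h (D.bdry v) =
        ∑ τ ∈ range T, B τ * N τ := by
      apply Finset.sum_congr rfl
      intro τ _
      rw [Finset.sum_congr rfl (g := fun _ => B τ)]
      · rw [Finset.sum_const, smul_eq_mul, mul_comm]
        simp [N]
      · intro t ht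
        rw [mem_filter, hmt] at ht
        exact (d4 τ t ht.1.1 (hcode ht.1.2)).2.2
    rw [← hA2, ← hB2, ← hA, ← hB]
    have hdisj : Disjoint (S true) (S false) := by
      rw [Finset.disjoint_left]
      intro v hv hv'
      simp only [S, mem_filter] at hv hv'
      rw [hv.2.2.2.2] at hv'
      exact absurd hv'.2.2.2.2 (by simp)
    rw [← Finset.sum_union hdisj]
    calc ∑ v ∈ S true ∪ S false, wt h (D.bdry v)
        ≤ ∑ v ∈ univ.filter (fun v => v ∉ D.E), wt h (D.bdry v) := by
          apply Finset.sum_le_sum_of_subset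
          intro v hv
          rw [mem_union] at hv
          simp only [S, mem_filter] at hv
          rw [mem_filter]
          rcases hv with hv | hv
          · exact ⟨mem_univ _, hv.2.1⟩
          · exact ⟨mem_univ _, hv.2.1⟩
      _ ≤ ∑ v ∈ univ.filter (fun v => v ∉ D.E), (1 + (if D.bdry v = true then 2 * h else 0)) :=
          Finset.sum_le_sum (fun v _ => wt_le' h _)
      _ = (univ.filter (fun v => v ∉ D.E)).card + 2 * h * Bs.card := by
          rw [Finset.sum_add_distrib, Finset.sum_const, smul_eq_mul, mul_one,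
            ← Finset.sum_filter, Finset.filter_filter, Finset.sum_const, smul_eq_mul,
            mul_comm _ (2 * h)]
      _ ≤ n + 2 * h * Bs.card := by
          apply Nat.add_le_add_right
          calc _ ≤ (univ : Finset (Fin n)).card := Finset.card_le_card (Finset.filter_subset _ _)
            _ = n := by simp
  -- the positions
  let FA : ℕ → ℕ := fun i => (2 * h + 1) * (A i * (N i / (2 * h)))
  let FB : ℕ → ℕ := fun i => (2 * h + 1) * (B i * (N i / (2 * h)))
  let e : Fin n → ℕ := fun v =>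
    (if D.side v = true then ∑ i ∈ range (c (D.top v)), FA i
      else ∑ i ∈ range (c (D.top v)), FB i) + pos (c (D.top v)) (ρ (D.top v)) (D.idx v)
  have heT : ∀ v, D.side v = true → e v = (∑ i ∈ range (c (D.top v)), FA i) +
      pos (c (D.top v)) (ρ (D.top v)) (D.idx v) := by
    intro v h; simp only [e]; rw [if_pos h]
  have heF : ∀ v, D.side v = false → e v = (∑ i ∈ range (c (D.top v)), FB i) +
      pos (c (D.top v)) (ρ (D.top v)) (D.idx v) := by
    intro v h; simp only [e]; rw [if_neg (by rw [h]; simp)]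
  have hdvdA : ∀ x, 2 * h + 1 ∣ ∑ i ∈ range x, FA i := fun x =>
    Finset.dvd_sum (fun i _ => Dvd.intro _ rfl)
  have hdvdB : ∀ x, 2 * h + 1 ∣ ∑ i ∈ range x, FB i := fun x =>
    Finset.dvd_sum (fun i _ => Dvd.intro _ rfl)
  have hmodadd : ∀ {a x : ℕ}, 2 * h + 1 ∣ a → (a + x) % (2 * h + 1) = x % (2 * h + 1) := by
    rintro a x ⟨y, rfl⟩
    rw [Nat.mul_add_mod]
  let G : Finset (Fin n) := univ.filter (fun v => v ∉ D.E ∧ D.IsTop (D.top v) ∧
    ρ (D.top v) < P (c (D.top v)))
  have hG : ∀ v, v ∈ G ↔ v ∉ D.E ∧ D.IsTop (D.top v) ∧ ρ (D.top v) < P (c (D.top v)) := by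
    intro v; simp [G]
  have hcm : ∀ v, v ∉ D.E → v ∈ D.comp (D.top v) := fun v hv => (D.mem_comp _ _).2 ⟨hv, rfl⟩
  have hlocT : ∀ v ∈ G, D.side v = true →
      pos (c (D.top v)) (ρ (D.top v)) (D.idx v) < FA (c (D.top v)) := by
    intro v hv hs
    obtain ⟨g1, g2, g3⟩ := (hG v).1 hv
    exact (d5 _ (D.top v) v g2 (hcode rfl) (hcm v g1) _ g3).1 hs
  have hlocF : ∀ v ∈ G, D.side v = false →
      pos (c (D.top v)) (ρ (D.top v)) (D.idx v) < FB (c (D.top v)) := by
    intro v hv hs
    obtain ⟨g1, g2, g3⟩ := (hG v).1 hv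
    exact (d5 _ (D.top v) v g2 (hcode rfl) (hcm v g1) _ g3).2.1 hs
  have hemod : ∀ v, e v % (2 * h + 1) =
      pos (c (D.top v)) (ρ (D.top v)) (D.idx v) % (2 * h + 1) := by
    intro v
    cases hb : D.side v with
    | true => rw [heT v hb, hmodadd (hdvdA _)]
    | false => rw [heF v hb, hmodadd (hdvdB _)]
  have hloc : ∀ v ∈ G, ∀ v' ∈ G, D.side v = D.side v' → c (D.top v) = c (D.top v') →
      pos (c (D.top v)) (ρ (D.top v)) (D.idx v) = pos (c (D.top v')) (ρ (D.top v')) (D.idx v') →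
      v = v' := by
    intro v hv v' hv' hs hcc h
    obtain ⟨g1, g2, g3⟩ := (hG v).1 hv
    obtain ⟨g1', g2', g3'⟩ := (hG v').1 hv'
    rw [← hcc] at h g3'
    obtain ⟨r1, r2⟩ := (d6 _ (D.top v) v (D.top v') v' g2 (hcode rfl) (hcm v g1) g2'
      (hcode hcc.symm) (hcm v' g1') _ g3 _ g3').1 hs h
    have r3 := hρinj _ _ g2 g2' hcc r1
    have m1 := hcm v g1
    have m2 := hcm v' g1'
    rw [← r3] at m2
    exact D.idx_inj m1 m2 r2
  have hsumlt : ∀ (F : ℕ → ℕ) (τ x : ℕ), τ < T → x < F τ →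
      (∑ i ∈ range τ, F i) + x < ∑ i ∈ range T, F i := by
    intro F τ x hτ hx
    have h1 : ∑ i ∈ range (τ + 1), F i ≤ ∑ i ∈ range T, F i := by
      apply Finset.sum_le_sum_of_subset
      intro i hi
      rw [mem_range] at hi ⊢
      omega
    rw [Finset.sum_range_succ] at h1
    omega
  have hGE : ∀ v ∈ G, v ∉ D.E := fun v hv => ((hG v).1 hv).1
  have hHG : ∀ v ∈ G, D.par v ∈ G → 0 < v.val ∧ D.top (D.par v) = D.top v ∧
      v ≠ D.top v := by
    intro v hv hpv
    obtain ⟨g1, g2, g3⟩ := (hG v).1 hv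
    have h2 := hGE _ hpv
    have e1 := D.ht2 v g1 h2
    refine ⟨D.val_pos (hcm v g1), e1.symm, ?_⟩
    intro h
    obtain ⟨b1, b2, b3, b4⟩ := D.ht3 v g1
    rw [← h] at b2
    exact h2 b2
  -- sums along edges
  have hsumE : ∀ v ∈ G, D.par v ∈ G → e v + e (D.par v) =
      (∑ i ∈ range (c (D.top v)), (FA i + FB i)) +
      (pos (c (D.top v)) (ρ (D.top v)) (D.idx v) +
        pos (c (D.top v)) (ρ (D.top v)) (D.idx (D.par v))) ∧
      pos (c (D.top v)) (ρ (D.top v)) (D.idx v) +
        pos (c (D.top v)) (ρ (D.top v)) (D.idx (D.par v)) <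
        FA (c (D.top v)) + FB (c (D.top v)) := by
    intro v h1 h2
    obtain ⟨h0, h3, h4⟩ := hHG v h1 h2
    have hs := D.hside v h0
    rw [Finset.sum_add_distrib]
    cases hb : D.side (D.par v) with
    | true =>
      rw [hb] at hs
      have hs' : D.side v = false := hs
      have l1 := hlocF v h1 hs'
      have l2 := hlocT _ h2 hb
      rw [heF v hs', heT _ hb]
      rw [h3] at l2 ⊢
      constructor <;> omega
    | false =>
      rw [hb] at hs
      have hs' : D.side v = true := hs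
      have l1 := hlocT v h1 hs'
      have l2 := hlocF _ h2 hb
      rw [heT v hs', heF _ hb]
      rw [h3] at l2 ⊢
      constructor <;> omega
  refine ⟨e, G, Bs, ∑ i ∈ range T, FA i, ∑ i ∈ range T, FB i, hdvdA T, hdvdB T, ?_, ?_, ?_, ?_,
    hGE, ?_, ?_, ?_, ?_, ?_, ?_, ?_, ?_⟩
  · intro v hv hs
    rw [heT v hs]
    exact hsumlt FA _ _ (hc _) (hlocT v hv hs)
  · intro v hv hs
    rw [heF v hs]
    exact hsumlt FB _ _ (hc _) (hlocF v hv hs)
  · intro v hv v' hv' hs h
    cases hb : D.side v with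
    | true =>
      have hb' : D.side v' = true := by rw [← hs]; exact hb
      rw [heT v hb, heT v' hb'] at h
      obtain ⟨r1, r2⟩ := blocks FA (hlocT v hv hb) (hlocT v' hv' hb') h
      exact hloc v hv v' hv' hs r1 r2
    | false =>
      have hb' : D.side v' = false := by rw [← hs]; exact hb
      rw [heF v hb, heF v' hb'] at h
      obtain ⟨r1, r2⟩ := blocks FB (hlocF v hv hb) (hlocF v' hv' hb') h
      exact hloc v hv v' hv' hs r1 r2
  · intro v hv hvB
    obtain ⟨g1, g2, g3⟩ := (hG v).1 hv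
    rw [hemod v]
    exact (d5 _ (D.top v) v g2 (hcode rfl) (hcm v g1) _ g3).2.2.1.2 ((hBs v).1 hvB).2
  · intro v hv hp
    obtain ⟨g1, g2, g3⟩ := (hG v).1 hv
    have e1 := D.ht2 v g1 hp
    rw [hG, ← e1]
    exact ⟨hp, g2, g3⟩
  · intro v hv hp
    obtain ⟨g1, g2, g3⟩ := (hG _).1 hp
    have e1 := D.ht2 v hv g1
    rw [← e1] at g2 g3
    exact (hG v).2 ⟨hv, g2, g3⟩
  · intro v h1 v' h1' h2 h2' h
    obtain ⟨h0, h3, h4⟩ := hHG v h1 h2
    obtain ⟨h0', h3', h4'⟩ := hHG v' h1' h2'
    obtain ⟨s1, s2⟩ := hsumE v h1 h2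
    obtain ⟨s1', s2'⟩ := hsumE v' h1' h2'
    rw [s1, s1'] at h
    obtain ⟨r1, r2⟩ := blocks (fun i => FA i + FB i) s2 s2' h
    obtain ⟨g1, g2, g3⟩ := (hG v).1 h1
    obtain ⟨g1', g2', g3'⟩ := (hG v').1 h1'
    rw [← r1] at r2 g3'
    obtain ⟨q1, q2⟩ := (d6 _ (D.top v) v (D.top v') v' g2 (hcode rfl) (hcm v g1) g2'
      (hcode r1.symm) (hcm v' g1') _ g3 _ g3').2 h4 h4' r2
    have q3 := hρinj _ _ g2 g2' r1 q1
    have m1 := hcm v g1
    have m2 := hcm v' g1'
    rw [← q3] at m2
    exact D.idx_inj m1 m2 q2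
  · intro v h1 h2 hz
    obtain ⟨h0, h3, h4⟩ := hHG v h1 h2
    obtain ⟨g1, g2, g3⟩ := (hG v).1 h1
    rw [(hsumE v h1 h2).1] at hz
    rw [hmodadd (by rw [Finset.sum_add_distrib]; exact Dvd.dvd.add (hdvdA _) (hdvdB _))] at hz
    rw [hBs]
    exact ⟨g1, (d5 _ (D.top v) v g2 (hcode rfl) (hcm v g1) _ g3).2.2.2 h4 hz⟩
  · intro v hv hb
    rw [hBs]
    exact ⟨hv, decide_eq_true hb⟩
  · -- the range
    have e1 : ∀ F : ℕ → ℕ, 2 * h * ∑ i ∈ range T, (2 * h + 1) * (F i * (N i / (2 * h))) ≤
        (2 * h + 1) * ∑ i ∈ range T, F i * N i := by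
      intro F
      rw [Finset.mul_sum, Finset.mul_sum]
      apply Finset.sum_le_sum
      intro i _
      calc 2 * h * ((2 * h + 1) * (F i * (N i / (2 * h))))
          = (2 * h + 1) * (F i * (2 * h * (N i / (2 * h)))) := by ring
        _ ≤ (2 * h + 1) * (F i * N i) :=
            Nat.mul_le_mul_left _ (Nat.mul_le_mul_left _ (Nat.mul_div_le _ _))
    calc 2 * h * (∑ i ∈ range T, FA i + ∑ i ∈ range T, FB i)
        = 2 * h * ∑ i ∈ range T, FA i + 2 * h * ∑ i ∈ range T, FB i := by ring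
      _ ≤ (2 * h + 1) * ∑ i ∈ range T, A i * N i + (2 * h + 1) * ∑ i ∈ range T, B i * N i :=
          Nat.add_le_add (e1 A) (e1 B)
      _ = (2 * h + 1) * (∑ i ∈ range T, A i * N i + ∑ i ∈ range T, B i * N i) := by ring
      _ ≤ _ := Nat.mul_le_mul_left _ htot
  · -- boundary vertices
    have hsub : Bs ⊆ (univ.filter (fun v : Fin n => 0 < v.val ∧ D.par v ∈ D.E)) ∪
        D.E.image D.par := by
      intro v hv
      rw [hBs] at hv
      rw [mem_union]
      have hb := of_decide_eq_true hv.2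
      rcases hb with hb | ⟨x, h1, h2, h3⟩
      · left
        rw [mem_filter]
        refine ⟨mem_univ _, D.val_pos (hcm v hv.1), hb⟩
      · right
        rw [mem_image]
        exact ⟨x, h3, h2⟩
    have hC : (univ.filter (fun v : Fin n => 0 < v.val ∧ D.par v ∈ D.E)).card ≤ D.E.card * Δ := by
      have : (univ.filter (fun v : Fin n => 0 < v.val ∧ D.par v ∈ D.E)) =
          D.E.biUnion (fun u => univ.filter (fun v : Fin n => 0 < v.val ∧ D.par v = u)) := by
        ext v
        simp only [mem_filter, mem_univ, true_and, mem_biUnion]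
        constructor
        · rintro ⟨h1, h2⟩; exact ⟨_, h2, h1, rfl⟩
        · rintro ⟨u, h1, h2, h3⟩; exact ⟨h2, by rw [h3]; exact h1⟩
      rw [this]
      exact Finset.card_biUnion_le_card_mul _ _ _ (fun u _ => hΔ u)
    have h1 : Bs.card ≤ D.E.card * Δ + D.E.card :=
      le_trans (card_le_card hsub) (le_trans (card_union_le _ _)
        (Nat.add_le_add hC Finset.card_image_le))
    calc k * Bs.card ≤ k * (D.E.card * Δ + D.E.card) := Nat.mul_le_mul_left _ h1
      _ = (Δ + 1) * (k * D.E.card) := by ring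
      _ ≤ _ := Nat.mul_le_mul_left _ hE
  · -- counting
    let U : Finset (Fin n) := univ.filter (fun v => v ∉ D.E ∧ D.IsTop (D.top v) ∧
      ¬ ρ (D.top v) < P (c (D.top v)) ∧ True)
    have hmtot : ∑ τ ∈ range T, m τ * N τ ≤ n := by
      let S : Finset (Fin n) :=
        univ.filter (fun v => v ∉ D.E ∧ D.IsTop (D.top v) ∧ True ∧ True)
      have h1 := hfib (fun _ => True) (fun _ => True) S (fun _ => 1)
        (by intro v; simp only [S]; rw [mem_filter]; exact ⟨fun h => h.2, fun h => ⟨mem_univ _, h⟩⟩)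
      have h2 : ∑ τ ∈ range T, ∑ t ∈ (tops τ).filter (fun _ => True),
          ∑ v ∈ (D.comp t).filter (fun _ => True), 1 = ∑ τ ∈ range T, m τ * N τ := by
        apply Finset.sum_congr rfl
        intro τ _
        rw [Finset.sum_congr rfl (g := fun _ => m τ)]
        · rw [Finset.sum_const, smul_eq_mul, mul_comm]
          simp [N]
        · intro t ht
          rw [mem_filter, hmt] at ht
          rw [← (d4 τ t ht.1.1 (hcode ht.1.2)).1]
          simp
      rw [← h2, ← h1, Finset.sum_const, smul_eq_mul, mul_one]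
      calc S.card ≤ (univ : Finset (Fin n)).card := Finset.card_le_card (Finset.filter_subset _ _)
        _ = n := by simp
    have hU : k * U.card ≤ n + T * (k * cst) := by
      have h2 : ∑ v ∈ U, 1 = ∑ τ ∈ range T, ∑ t ∈ (tops τ).filter (fun t => ¬ ρ t < P (c t)),
          ∑ v ∈ (D.comp t).filter (fun _ => True), 1 :=
        hfib (fun t => ¬ ρ t < P (c t)) (fun _ => True) U (fun _ => 1)
          (by intro v; simp only [U]; rw [mem_filter]; exact ⟨fun h => h.2, fun h => ⟨mem_univ _, h⟩⟩)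
      rw [Finset.sum_const, smul_eq_mul, mul_one] at h2
      have h3 : ∀ τ, k * ∑ t ∈ (tops τ).filter (fun t => ¬ ρ t < P (c t)),
          ∑ v ∈ (D.comp t).filter (fun _ => True), 1 ≤ m τ * N τ + k * cst := by
        intro τ
        have e1 : ∑ t ∈ (tops τ).filter (fun t => ¬ ρ t < P (c t)),
          ∑ v ∈ (D.comp t).filter (fun _ => True), 1 =
          ((tops τ).filter (fun t => ¬ ρ t < P (c t))).card * m τ := by
          rw [Finset.sum_congr rfl (g := fun _ => m τ)]
          · rw [Finset.sum_const, smul_eq_mul]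
          · intro t ht
            rw [mem_filter, hmt] at ht
            rw [← (d4 τ t ht.1.1 (hcode ht.1.2)).1]
            simp
        have e2 : ((tops τ).filter (fun t => ¬ ρ t < P (c t))).card ≤ N τ - P τ := by
          have : ((tops τ).filter (fun t => ¬ ρ t < P (c t))).card ≤ (Finset.Ico (P τ) (N τ)).card := by
            apply Finset.card_le_card_of_injOn ρ
            · intro t ht
              rw [mem_coe, mem_filter, hmt] at ht
              have z1 := hρlt t ht.1.1
              have z2 := ht.2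
              rw [ht.1.2] at z1 z2
              rw [mem_coe, Finset.mem_Ico]
              exact ⟨by omega, z1⟩
            · intro t ht t' ht' h
              rw [mem_coe, mem_filter, hmt] at ht ht'
              exact hρinj t t' ht.1.1 ht'.1.1 (by rw [ht.1.2, ht'.1.2]) h
          rw [Nat.card_Ico] at this
          exact this
        rw [e1]
        calc k * (((tops τ).filter (fun t => ¬ ρ t < P (c t))).card * m τ)
            ≤ k * ((N τ - P τ) * m τ) :=
              Nat.mul_le_mul_left _ (Nat.mul_le_mul_right _ e2)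
          _ = (k * (N τ - P τ)) * m τ := by ring
          _ ≤ (N τ + cst) * m τ := Nat.mul_le_mul_right _ (d2 τ)
          _ = m τ * N τ + m τ * cst := by ring
          _ ≤ m τ * N τ + k * cst :=
              Nat.add_le_add_left (Nat.mul_le_mul_right _ (d3 τ)) _
      rw [h2, Finset.mul_sum]
      calc _ ≤ ∑ τ ∈ range T, (m τ * N τ + k * cst) :=
            Finset.sum_le_sum (fun τ _ => h3 τ)
        _ = (∑ τ ∈ range T, m τ * N τ) + T * (k * cst) := by
            rw [Finset.sum_add_distrib, Finset.sum_const, card_range, smul_eq_mul]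
        _ ≤ n + T * (k * cst) := by omega
    let C : Finset (Fin n) := univ.filter (fun v : Fin n => 0 < v.val ∧ D.par v ∈ D.E)
    have hC : C.card ≤ D.E.card * Δ := by
      have : C = D.E.biUnion (fun u => univ.filter (fun v : Fin n => 0 < v.val ∧ D.par v = u)) := by
        ext v
        simp only [C, mem_filter, mem_univ, true_and, mem_biUnion]
        constructor
        · rintro ⟨h1, h2⟩; exact ⟨_, h2, h1, rfl⟩
        · rintro ⟨u, h1, h2, h3⟩; exact ⟨h2, by rw [h3]; exact h1⟩
      rw [this]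
      exact Finset.card_biUnion_le_card_mul _ _ _ (fun u _ => hΔ u)
    have hcov : (univ \ G : Finset (Fin n)) ⊆ D.E ∪ (C ∪ U) := by
      intro v hvG
      rw [mem_sdiff] at hvG
      simp only [mem_union]
      by_cases h1 : v ∈ D.E
      · exact Or.inl h1
      by_cases h2 : D.par v ∈ D.E
      · exact Or.inr (Or.inl (by
          simp only [C, mem_filter, mem_univ, true_and]
          exact ⟨D.val_pos (hcm v h1), h2⟩))
      have htop : D.IsTop (D.top v) := by
        have m1 := hcm v h1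
        have m2 : D.par v ∈ D.comp (D.top v) := (D.mem_comp _ _).2 ⟨h2, (D.ht2 v h1 h2).symm⟩
        refine ⟨D.top_mem m1, ?_⟩
        have hne : D.par v ≠ v := ne_of_lt (D.par_lt m1)
        have : ({D.par v, v} : Finset (Fin n)) ⊆ D.comp (D.top v) := by
          intro x hx
          simp only [mem_insert, mem_singleton] at hx
          rcases hx with rfl | rfl
          · exact m2
          · exact m1
        have h3 := card_le_card this
        rw [card_pair hne] at h3
        exact h3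
      by_cases h3 : ρ (D.top v) < P (c (D.top v))
      · exact absurd ((hG v).2 ⟨h1, htop, h3⟩) hvG.2
      · exact Or.inr (Or.inr (by
          simp only [U, mem_filter, mem_univ, true_and]
          exact ⟨h1, htop, h3, trivial⟩))
    have hcount : (univ \ G).card ≤ D.E.card + (C.card + U.card) :=
      le_trans (card_le_card hcov) (le_trans (card_union_le _ _)
        (Nat.add_le_add_left (card_union_le _ _) _))
    calc k * (univ \ G).card ≤ k * (D.E.card + (D.E.card * Δ + U.card)) :=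
          Nat.mul_le_mul_left _ (by omega)
      _ = (Δ + 1) * (k * D.E.card) + k * U.card := by ring
      _ ≤ (Δ + 1) * (n + k) + (n + T * (k * cst)) :=
          Nat.add_le_add (Nat.mul_le_mul_left _ hE) hU
      _ = _ := by ring

end Dec
end Alp
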