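import Pool.Agent.Work.MP_f04a5a_co.CertData

/-! The check of the certificate. -/

namespace CatW

theorem chk0 : chkR 0 (rt 0) = true := by decide +kernel

theorem chk1 : chkR 1 (rt 1) = true := by decide +kernel

theorem chk2 : chkR 2 (rt 2) = true := by decide +kernel

theorem chk3 : chkR 3 (rt 3) = true := by decide +kernel

theorem chk_all : ∀ h ≤ 3, chkR h (rt h) = true
  | 0, _ => chk0
  | 1, _ => chk1
  | 2, _ => chk2
  | 3, _ => chk3
  | n + 4, hn => absurd hn (by omega)

/-- Every nonempty word can be labelled. -/
theorem word_rel (w : List Lt) (hw : w ≠ []) : ∃ x y, Rel w x y := exists_rel rt chk_all w hw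

end CatW
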