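import Mathlib

/-! Alpha-labellings in sum form and the generalised Delta-construction over a balanced base. -/

namespace AlpLift

open Finset

/-- `HasAlpha G`: an alpha-labelling of `G` with the labels `0, ..., |V| - 1` (so `|V| - 1` plays
the role of the number of edges, as for trees). This is the conclusion of the frozen statement. -/
def HasAlpha {V : Type*} [Fintype V] (G : SimpleGraph V) : Prop :=
  ∃ f : V → ℤ,
    Function.Injective f ∧
    (∀ v : V, 0 ≤ f v ∧ f v ≤ (Fintype.card V : ℤ) - 1) ∧
    (∀ u v w x : V, G.Adj u v → G.Adj w x →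
        |f u - f v| = |f w - f x| →
        (u = w ∧ v = x) ∨ (u = x ∧ v = w)) ∧
    ∃ k : ℤ, 0 ≤ k ∧ k < (Fintype.card V : ℤ) - 1 ∧
      ∀ u v : V, G.Adj u v →
        min (f u) (f v) ≤ k ∧ k < max (f u) (f v)

/-- Sum form of an alpha-labelling: two classes of sizes `p` and `r` (`c v = true` is the first
class), labels `a` below the class size, injective on each class; edges join the classes and are
determined by the sum of their labels. -/
structure SumForm {V : Type*} [Fintype V] (G : SimpleGraph V) (p r : ℕ) (c : V → Bool)
    (a : V → ℕ) : Prop where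
  card : p + r = Fintype.card V
  lt_p : ∀ v, c v = true → a v < p
  lt_r : ∀ v, c v = false → a v < r
  inj : ∀ u v, c u = c v → a u = a v → u = v
  adj : ∀ u v, G.Adj u v → c u ≠ c v
  sum : ∀ u v w x, G.Adj u v → G.Adj w x → a u + a v = a w + a x →
    (u = w ∧ v = x) ∨ (u = x ∧ v = w)

theorem SumForm.swap {V : Type*} [Fintype V] {G : SimpleGraph V} {p r : ℕ} {c : V → Bool}
    {a : V → ℕ} (h : SumForm G p r c a) : SumForm G r p (fun v => !c v) a where
  card := by rw [add_comm]; exact h.card
  lt_p := fun v hv => h.lt_r v (by simpa using hv)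
  lt_r := fun v hv => h.lt_p v (by simpa using hv)
  inj := fun u v hc => h.inj u v (by simpa using hc)
  adj := fun u v huv => by simpa using h.adj u v huv
  sum := h.sum

/-- From the usual form to the sum form. -/
theorem sumForm_of_hasAlpha {V : Type*} [Fintype V] {G : SimpleGraph V} (h : HasAlpha G) :
    ∃ p r c a, 1 ≤ p ∧ 1 ≤ r ∧ SumForm G p r c a := by
  classical
  obtain ⟨f, hf, hb, hd, k, hk0, hk1, hk⟩ := h
  have hcard : (0 : ℤ) ≤ (Fintype.card V : ℤ) := by positivity
  refine ⟨(k + 1).toNat, (Fintype.card V - 1 - k : ℤ).toNat, fun v => decide (f v ≤ k),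
    fun v => if f v ≤ k then (k - f v).toNat else (f v - k - 1).toNat, by omega, by omega, ?_⟩
  refine ⟨by omega, ?_, ?_, ?_, ?_, ?_⟩
  · intro v hv
    have hv' : f v ≤ k := by simpa using hv
    have := (hb v).1
    simp only [hv', if_true]
    omega
  · intro v hv
    have hv' : ¬ f v ≤ k := by simpa using hv
    have := (hb v).2
    simp only [hv', if_false]
    omega
  · intro u v hc ha
    apply hf
    have hc' : (f u ≤ k) ↔ (f v ≤ k) := by simpa using hc
    by_cases hu : f u ≤ k
    · have hv := hc'.1 hu
      simp only [hu, hv, if_true] at ha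
      omega
    · have hv : ¬ f v ≤ k := fun h => hu (hc'.2 h)
      simp only [hu, hv, if_false] at ha
      omega
  · intro u v huv hc
    have hc' : (f u ≤ k) ↔ (f v ≤ k) := by simpa using hc
    obtain ⟨h1, h2⟩ := hk u v huv
    rcases min_le_iff.1 h1 with h | h <;> rcases lt_max_iff.1 h2 with h' | h' <;> omega
  · -- the sum is |f u - f v| - 1
    have key : ∀ u v, G.Adj u v →
        (((if f u ≤ k then (k - f u).toNat else (f u - k - 1).toNat) +
          (if f v ≤ k then (k - f v).toNat else (f v - k - 1).toNat) : ℕ) : ℤ)
          = |f u - f v| - 1 := by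
      intro u v huv
      obtain ⟨h1, h2⟩ := hk u v huv
      by_cases hu : f u ≤ k
      · have hv : ¬ f v ≤ k := by
          rcases lt_max_iff.1 h2 with h' | h' <;> omega
        simp only [hu, hv, if_true, if_false]
        rw [abs_of_nonpos (by omega)]
        push_cast
        rw [Int.toNat_of_nonneg (by omega), Int.toNat_of_nonneg (by omega)]
        ring
      · have hv : f v ≤ k := by
          rcases min_le_iff.1 h1 with h | h <;> omega
        simp only [hu, hv, if_true, if_false]
        rw [abs_of_nonneg (by omega)]
        push_cast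
        rw [Int.toNat_of_nonneg (by omega), Int.toNat_of_nonneg (by omega)]
        ring
    intro u v w x huv hwx he
    apply hd u v w x huv hwx
    have e1 := key u v huv
    have e2 := key w x hwx
    rw [he] at e1
    omega

/-- From the sum form to the usual form. -/
theorem hasAlpha_of_sumForm {V : Type*} [Fintype V] {G : SimpleGraph V} {p r : ℕ} {c : V → Bool}
    {a : V → ℕ} (hp : 1 ≤ p) (hr : 1 ≤ r) (h : SumForm G p r c a) : HasAlpha G := by
  classical
  have hc := h.card
  refine ⟨fun v => if c v = true then (p : ℤ) - 1 - a v else (p : ℤ) + a v, ?_, ?_, ?_,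
    (p : ℤ) - 1, by omega, by omega, ?_⟩
  · intro u v huv
    simp only at huv
    by_cases hu : c u = true
    · by_cases hv : c v = true
      · simp only [hu, hv, if_true] at huv
        exact h.inj u v (hu.trans hv.symm) (by omega)
      · simp only [hu, hv, if_true] at huv
        have := h.lt_p u hu
        simp only [Bool.false_eq_true, if_false] at huv
        omega
    · by_cases hv : c v = true
      · simp only [hu, hv, if_true] at huv
        have := h.lt_p v hv
        simp only [Bool.false_eq_true, if_false] at huv
        omega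
      · simp only [hu, hv, Bool.false_eq_true, if_false] at huv
        exact h.inj u v (by simp_all) (by omega)
  · intro v
    by_cases hv : c v = true
    · have := h.lt_p v hv
      simp only [hv, if_true]
      omega
    · have := h.lt_r v (by simpa using hv)
      simp only [hv, Bool.false_eq_true, if_false]
      omega
  · have key : ∀ u v, G.Adj u v →
        |(if c u = true then (p : ℤ) - 1 - a u else (p : ℤ) + a u) -
          (if c v = true then (p : ℤ) - 1 - a v else (p : ℤ) + a v)| = a u + a v + 1 := by
      intro u v huv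
      have hne := h.adj u v huv
      by_cases hu : c u = true
      · have hv : ¬ c v = true := fun hv => hne (hu.trans hv.symm)
        simp only [hu, hv, if_true, Bool.false_eq_true, if_false]
        rw [abs_of_nonpos (by omega)]
        ring
      · have hv : c v = true := by
          cases h' : c v
          · exfalso; apply hne; rw [h']; simpa using hu
          · rfl
        simp only [hu, hv, if_true, Bool.false_eq_true, if_false]
        rw [abs_of_nonneg (by omega)]
        ring
    intro u v w x huv hwx he
    simp only at he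
    rw [key u v huv, key w x hwx] at he
    exact h.sum u v w x huv hwx (by omega)
  · intro u v huv
    have hne := h.adj u v huv
    simp only
    by_cases hu : c u = true
    · have hv : ¬ c v = true := fun hv => hne (hu.trans hv.symm)
      simp only [hu, hv, if_true, Bool.false_eq_true, if_false]
      constructor
      · exact min_le_iff.2 (Or.inl (by omega))
      · exact lt_max_iff.2 (Or.inr (by omega))
    · have hv : c v = true := by
        cases h' : c v
        · exfalso; apply hne; rw [h']; simpa using hu
        · rfl
      simp only [hu, hv, if_true, Bool.false_eq_true, if_false]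
      constructor
      · exact min_le_iff.2 (Or.inr (by omega))
      · exact lt_max_iff.2 (Or.inl (by omega))

/-- Class and label of a vertex of the lift. -/
def liftC {W A : Type*} (c0 : W → Bool) (cS : A → Bool) (z : W × A) : Bool := c0 z.1 == cS z.2

def liftA {W A : Type*} (P Q : ℕ) (c0 : W → Bool) (a0 : W → ℕ) (cS : A → Bool) (aS : A → ℕ)
    (z : W × A) : ℕ :=
  if c0 z.1 = true then (P + Q) * a0 z.1 + aS z.2
  else if cS z.2 = true then (P + Q) * a0 z.1 + Q + (P - 1 - aS z.2)
  else (P + Q) * a0 z.1 + P + (Q - 1 - aS z.2)

/-- `IsLift T0 S T`: `T` consists of copies of `S`, one for each vertex of `T0`, and for each edge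
`xy` of `T0` at most one edge between the copies `x` and `y`, joining corresponding vertices. -/
structure IsLift {W A : Type*} (T0 : SimpleGraph W) (S : SimpleGraph A)
    (T : SimpleGraph (W × A)) : Prop where
  copy : ∀ x u v, T.Adj (x, u) (x, v) → S.Adj u v
  base : ∀ x y u v, x ≠ y → T.Adj (x, u) (y, v) → u = v ∧ T0.Adj x y
  uniq : ∀ x y u v, x ≠ y → T.Adj (x, u) (y, u) → T.Adj (x, v) (y, v) → u = v

theorem mul_block {s m m' t t' : ℕ} (hs : 0 < s) (ht : t < s) (ht' : t' < s)
    (h : s * m + t = s * m' + t') : m = m' ∧ t = t' := by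
  have h1 : (s * m + t) / s = m := by
    rw [Nat.mul_add_div hs, Nat.div_eq_of_lt ht, add_zero]
  have h2 : (s * m' + t') / s = m' := by
    rw [Nat.mul_add_div hs, Nat.div_eq_of_lt ht', add_zero]
  have hm : m = m' := by rw [← h1, ← h2, h]
  subst hm
  exact ⟨rfl, by omega⟩

theorem sumForm_lift {W A : Type*} [Fintype W] [Fintype A] {T0 : SimpleGraph W}
    {S : SimpleGraph A} {T : SimpleGraph (W × A)} {p r P Q : ℕ} {c0 : W → Bool} {a0 : W → ℕ}
    {cS : A → Bool} {aS : A → ℕ} (h0 : SumForm T0 p r c0 a0) (hS : SumForm S P Q cS aS)
    (hP : 1 ≤ P) (hQ : 1 ≤ Q) (hpr : p = r ∨ p = r + 1) (hT : IsLift T0 S T) :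
    SumForm T (p * P + r * Q) (p * Q + r * P) (liftC c0 cS) (liftA P Q c0 a0 cS aS) := by
  have hs : 0 < P + Q := by omega
  -- the sum of the labels of an edge of `T`
  have inner : ∀ x u v, T.Adj (x, u) (x, v) → c0 x = true →
      liftA P Q c0 a0 cS aS (x, u) + liftA P Q c0 a0 cS aS (x, v)
        = (P + Q) * (2 * a0 x) + (aS u + aS v) := by
    intro x u v _ hx
    simp only [liftA, hx, if_true]
    ring
  have sumlt : ∀ u v, S.Adj u v → aS u + aS v + 2 ≤ P + Q := by
    intro u v huv
    have hne := hS.adj u v huv
    cases hu : cS u <;> cases hv : cS v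
    · exact absurd (hu.trans hv.symm) hne
    · have := hS.lt_r u hu; have := hS.lt_p v hv; omega
    · have := hS.lt_p u hu; have := hS.lt_r v hv; omega
    · exact absurd (hu.trans hv.symm) hne
  have inner' : ∀ x u v, T.Adj (x, u) (x, v) → c0 x = false →
      liftA P Q c0 a0 cS aS (x, u) + liftA P Q c0 a0 cS aS (x, v)
        = (P + Q) * (2 * a0 x + 1) + (P + Q - 2 - (aS u + aS v)) := by
    intro x u v huv hx
    have huv' := hT.copy x u v huv
    have hlt := sumlt u v huv'
    have hne := hS.adj u v huv'
    have e1 : (P + Q) * (2 * a0 x + 1) = (P + Q) * a0 x + (P + Q) * a0 x + (P + Q) := by ring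
    cases hu : cS u <;> cases hv : cS v
    · exact absurd (hu.trans hv.symm) hne
    · have h1 := hS.lt_r u hu; have h2 := hS.lt_p v hv
      simp only [liftA, hx, hu, hv, Bool.false_eq_true, if_true, if_false]
      omega
    · have h1 := hS.lt_p u hu; have h2 := hS.lt_r v hv
      simp only [liftA, hx, hu, hv, Bool.false_eq_true, if_true, if_false]
      omega
    · exact absurd (hu.trans hv.symm) hne
  have outer : ∀ x y u, T0.Adj x y → T.Adj (x, u) (y, u) →
      liftA P Q c0 a0 cS aS (x, u) + liftA P Q c0 a0 cS aS (y, u)
        = (P + Q) * (a0 x + a0 y) + (P + Q - 1) := by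
    intro x y u hxy _
    have hne := h0.adj x y hxy
    have e1 : (P + Q) * (a0 x + a0 y) = (P + Q) * a0 x + (P + Q) * a0 y := by ring
    cases hx : c0 x <;> cases hy : c0 y <;> cases hu : cS u
    · exact absurd (hx.trans hy.symm) hne
    · exact absurd (hx.trans hy.symm) hne
    · have h1 := hS.lt_r u hu
      simp only [liftA, hx, hy, hu, Bool.false_eq_true, if_true, if_false]
      omega
    · have h1 := hS.lt_p u hu
      simp only [liftA, hx, hy, hu, Bool.false_eq_true, if_true, if_false]
      omega
    · have h1 := hS.lt_r u hu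
      simp only [liftA, hx, hy, hu, Bool.false_eq_true, if_true, if_false]
      omega
    · have h1 := hS.lt_p u hu
      simp only [liftA, hx, hy, hu, Bool.false_eq_true, if_true, if_false]
      omega
    · exact absurd (hx.trans hy.symm) hne
    · exact absurd (hx.trans hy.symm) hne
  refine ⟨?_, ?_, ?_, ?_, ?_, ?_⟩
  · rw [Fintype.card_prod, ← h0.card, ← hS.card]; ring
  · -- first class
    rintro ⟨x, u⟩ hz
    simp only [liftC, beq_iff_eq] at hz
    cases hx : c0 x
    · have hu : cS u = false := by rw [← hz, hx]
      have h1 := h0.lt_r x hx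
      have h2 := hS.lt_r u hu
      simp only [liftA, hx, hu, Bool.false_eq_true, if_false]
      have h3 : (P + Q) * a0 x + (P + Q) ≤ (P + Q) * r := by
        have : a0 x + 1 ≤ r := h1
        calc (P + Q) * a0 x + (P + Q) = (P + Q) * (a0 x + 1) := by ring
          _ ≤ (P + Q) * r := Nat.mul_le_mul_left _ this
      have h4 : (P + Q) * r = r * P + r * Q := by ring
      have h5 : r * P ≤ p * P := Nat.mul_le_mul_right _ (by omega)
      omega
    · have hu : cS u = true := by rw [← hz, hx]
      have h1 := h0.lt_p x hx
      have h2 := hS.lt_p u hu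
      simp only [liftA, hx, if_true]
      rcases hpr with hpr | hpr
      · have h3 : (P + Q) * a0 x + (P + Q) ≤ (P + Q) * p := by
          calc (P + Q) * a0 x + (P + Q) = (P + Q) * (a0 x + 1) := by ring
            _ ≤ (P + Q) * p := Nat.mul_le_mul_left _ h1
        subst hpr
        have h4 : (P + Q) * p = p * P + p * Q := by ring
        omega
      · have h3 : (P + Q) * a0 x ≤ (P + Q) * r := Nat.mul_le_mul_left _ (by omega)
        have h4 : (P + Q) * r = r * P + r * Q := by ring
        have h5 : p * P = r * P + P := by rw [hpr]; ring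
        omega
  · rintro ⟨x, u⟩ hz
    have hz' : c0 x ≠ cS u := by
      intro h; simp [liftC, h] at hz
    cases hx : c0 x
    · have hu : cS u = true := by
        cases h' : cS u
        · exact absurd (hx.trans h'.symm) hz'
        · rfl
      have h1 := h0.lt_r x hx
      have h2 := hS.lt_p u hu
      simp only [liftA, hx, hu, Bool.false_eq_true, if_true, if_false]
      have h3 : (P + Q) * a0 x + (P + Q) ≤ (P + Q) * r := by
        calc (P + Q) * a0 x + (P + Q) = (P + Q) * (a0 x + 1) := by ring
          _ ≤ (P + Q) * r := Nat.mul_le_mul_left _ h1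
      have h4 : (P + Q) * r = r * P + r * Q := by ring
      have h5 : r * Q ≤ p * Q := Nat.mul_le_mul_right _ (by omega)
      omega
    · have hu : cS u = false := by
        cases h' : cS u
        · rfl
        · exact absurd (hx.trans h'.symm) hz'
      have h1 := h0.lt_p x hx
      have h2 := hS.lt_r u hu
      simp only [liftA, hx, if_true]
      rcases hpr with hpr | hpr
      · have h3 : (P + Q) * a0 x + (P + Q) ≤ (P + Q) * p := by
          calc (P + Q) * a0 x + (P + Q) = (P + Q) * (a0 x + 1) := by ring
            _ ≤ (P + Q) * p := Nat.mul_le_mul_left _ h1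
        subst hpr
        have h4 : (P + Q) * p = p * P + p * Q := by ring
        omega
      · have h3 : (P + Q) * a0 x ≤ (P + Q) * r := Nat.mul_le_mul_left _ (by omega)
        have h4 : (P + Q) * r = r * P + r * Q := by ring
        have h5 : p * Q = r * Q + Q := by rw [hpr]; ring
        omega
  · -- injectivity on the classes
    rintro ⟨x, u⟩ ⟨y, v⟩ hc ha
    simp only [liftC] at hc
    cases hx : c0 x <;> cases hy : c0 y <;> cases hu : cS u <;> cases hv : cS v <;>
      simp only [hx, hy, hu, hv] at hc <;>
      simp only [liftA, hx, hy, hu, hv, Bool.false_eq_true, if_true, if_false] at ha <;>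
      first
      | (exfalso; revert hc; decide)
      | skip
    · have h1 := hS.lt_r u hu; have h2 := hS.lt_r v hv
      obtain ⟨e1, e2⟩ := mul_block (s := P + Q) (m := a0 x) (m' := a0 y)
        (t := P + (Q - 1 - aS u)) (t' := P + (Q - 1 - aS v)) hs (by omega) (by omega) (by omega)
      rw [h0.inj x y (hx.trans hy.symm) e1, hS.inj u v (hu.trans hv.symm) (by omega)]
    · have h1 := hS.lt_p u hu; have h2 := hS.lt_p v hv
      obtain ⟨e1, e2⟩ := mul_block (s := P + Q) (m := a0 x) (m' := a0 y)
        (t := Q + (P - 1 - aS u)) (t' := Q + (P - 1 - aS v)) hs (by omega) (by omega) (by omega)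
      rw [h0.inj x y (hx.trans hy.symm) e1, hS.inj u v (hu.trans hv.symm) (by omega)]
    · have h1 := hS.lt_r u hu; have h2 := hS.lt_p v hv
      obtain ⟨e1, e2⟩ := mul_block (s := P + Q) (m := a0 x) (m' := a0 y)
        (t := P + (Q - 1 - aS u)) (t' := aS v) hs (by omega) (by omega) (by omega)
      omega
    · have h1 := hS.lt_p u hu; have h2 := hS.lt_r v hv
      obtain ⟨e1, e2⟩ := mul_block (s := P + Q) (m := a0 x) (m' := a0 y)
        (t := Q + (P - 1 - aS u)) (t' := aS v) hs (by omega) (by omega) (by omega)
      omega
    · have h1 := hS.lt_r u hu; have h2 := hS.lt_p v hv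
      obtain ⟨e1, e2⟩ := mul_block (s := P + Q) (m := a0 x) (m' := a0 y)
        (t := aS u) (t' := Q + (P - 1 - aS v)) hs (by omega) (by omega) (by omega)
      omega
    · have h1 := hS.lt_p u hu; have h2 := hS.lt_r v hv
      obtain ⟨e1, e2⟩ := mul_block (s := P + Q) (m := a0 x) (m' := a0 y)
        (t := aS u) (t' := P + (Q - 1 - aS v)) hs (by omega) (by omega) (by omega)
      omega
    · have h1 := hS.lt_r u hu; have h2 := hS.lt_r v hv
      obtain ⟨e1, e2⟩ := mul_block (s := P + Q) (m := a0 x) (m' := a0 y)
        (t := aS u) (t' := aS v) hs (by omega) (by omega) (by omega)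
      rw [h0.inj x y (hx.trans hy.symm) e1, hS.inj u v (hu.trans hv.symm) e2]
    · have h1 := hS.lt_p u hu; have h2 := hS.lt_p v hv
      obtain ⟨e1, e2⟩ := mul_block (s := P + Q) (m := a0 x) (m' := a0 y)
        (t := aS u) (t' := aS v) hs (by omega) (by omega) (by omega)
      rw [h0.inj x y (hx.trans hy.symm) e1, hS.inj u v (hu.trans hv.symm) e2]
  · -- adjacent vertices lie in different classes
    rintro ⟨x, u⟩ ⟨y, v⟩ huv hc
    simp only [liftC] at hc
    by_cases hxy : x = y
    · subst hxy
      have := hS.adj u v (hT.copy x u v huv)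
      cases hx : c0 x <;> cases hu : cS u <;> cases hv : cS v <;> simp_all
    · obtain ⟨e, h1⟩ := hT.base x y u v hxy huv
      subst e
      have := h0.adj x y h1
      cases hx : c0 x <;> cases hy : c0 y <;> cases hu : cS u <;> simp_all
  · -- sums determine edges
    rintro ⟨x, u⟩ ⟨y, v⟩ ⟨x', u'⟩ ⟨y', v'⟩ h1 h2 he
    by_cases hxy : x = y
    · subst hxy
      have hadj := hT.copy x u v h1
      have hlt := sumlt u v hadj
      by_cases hxy' : x' = y'
      · subst hxy'
        have hadj' := hT.copy x' u' v' h2
        have hlt' := sumlt u' v' hadj'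
        cases hx : c0 x <;> cases hx' : c0 x'
        · rw [inner' x u v h1 hx, inner' x' u' v' h2 hx'] at he
          obtain ⟨e1, e2⟩ := mul_block hs (by omega) (by omega) he
          have ex : x = x' := h0.inj x x' (hx.trans hx'.symm) (by omega)
          subst ex
          rcases hS.sum u v u' v' hadj hadj' (by omega) with ⟨a, b⟩ | ⟨a, b⟩
          · exact Or.inl ⟨by rw [a], by rw [b]⟩
          · exact Or.inr ⟨by rw [a], by rw [b]⟩
        · rw [inner' x u v h1 hx, inner x' u' v' h2 hx'] at he
          obtain ⟨e1, e2⟩ := mul_block hs (by omega) (by omega) he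
          omega
        · rw [inner x u v h1 hx, inner' x' u' v' h2 hx'] at he
          obtain ⟨e1, e2⟩ := mul_block hs (by omega) (by omega) he
          omega
        · rw [inner x u v h1 hx, inner x' u' v' h2 hx'] at he
          obtain ⟨e1, e2⟩ := mul_block hs (by omega) (by omega) he
          have ex : x = x' := h0.inj x x' (hx.trans hx'.symm) (by omega)
          subst ex
          rcases hS.sum u v u' v' hadj hadj' (by omega) with ⟨a, b⟩ | ⟨a, b⟩
          · exact Or.inl ⟨by rw [a], by rw [b]⟩
          · exact Or.inr ⟨by rw [a], by rw [b]⟩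
      · obtain ⟨e, h3⟩ := hT.base x' y' u' v' hxy' h2
        subst e
        cases hx : c0 x
        · rw [inner' x u v h1 hx, outer x' y' u' h3 h2] at he
          obtain ⟨e1, e2⟩ := mul_block hs (by omega) (by omega) he
          omega
        · rw [inner x u v h1 hx, outer x' y' u' h3 h2] at he
          obtain ⟨e1, e2⟩ := mul_block hs (by omega) (by omega) he
          omega
    · obtain ⟨e, h3⟩ := hT.base x y u v hxy h1
      subst e
      by_cases hxy' : x' = y'
      · subst hxy'
        have hadj' := hT.copy x' u' v' h2
        have hlt' := sumlt u' v' hadj'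
        cases hx' : c0 x'
        · rw [inner' x' u' v' h2 hx', outer x y u h3 h1] at he
          obtain ⟨e1, e2⟩ := mul_block hs (by omega) (by omega) he
          omega
        · rw [inner x' u' v' h2 hx', outer x y u h3 h1] at he
          obtain ⟨e1, e2⟩ := mul_block hs (by omega) (by omega) he
          omega
      · obtain ⟨e', h4⟩ := hT.base x' y' u' v' hxy' h2
        subst e'
        rw [outer x' y' u' h4 h2, outer x y u h3 h1] at he
        obtain ⟨e1, e2⟩ := mul_block hs (by omega) (by omega) he
        rcases h0.sum x y x' y' h3 h4 e1 with ⟨a, b⟩ | ⟨a, b⟩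
        · subst a; subst b
          have := hT.uniq x y u u' hxy h1 h2
          exact Or.inl ⟨by rw [this], by rw [this]⟩
        · subst a; subst b
          have := hT.uniq x y u u' hxy h1 h2.symm
          exact Or.inr ⟨by rw [this], by rw [this]⟩

end AlpLift
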