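import Pool.Agent.Work.MP_f04a5a_co.TreeWord
import Pool.Agent.Work.MP_f04a5a_co.WordAlpha
import Pool.Agent.Work.MP_f04a5a_co.CertCheck

/-! Trees with maximum degree three and a perfect matching whose contraction is a caterpillar have
an alpha-labelling. -/

namespace CatW

open AlpLift

theorem alpha_of_dominating {V P : Type*} [Fintype V] [Fintype P] (T : SimpleGraph V)
    (hT : T.IsTree) (m : V → V) (pr : V → P) (h : Setup T m pr) (hsurj : ∀ e : P, ∃ v, pr v = e)
    (R : P → P → Prop) (hR : ∀ e f, R e f ↔ e ≠ f ∧ ∃ a b, pr a = e ∧ pr b = f ∧ T.Adj a b)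
    (hdom : ∃ L : List P, L ≠ [] ∧ L.Nodup ∧ L.IsChain R ∧ ∀ g, g ∈ L ∨ ∃ e ∈ L, R g e) :
    HasAlpha T := by
  classical
  have hsymm : ∀ e f, R e f → R f e := by
    intro e f hef
    obtain ⟨h1, a, b, h2, h3, h4⟩ := (hR e f).1 hef
    exact (hR f e).2 ⟨h1.symm, b, a, h3, h2, h4.symm⟩
  -- a dominating list of maximal length
  let Q : Set ℕ := {n | ∃ L : List P, (L ≠ [] ∧ L.Nodup ∧ L.IsChain R ∧
    ∀ g, g ∈ L ∨ ∃ e ∈ L, R g e) ∧ L.length = n}
  have hQne : Q.Nonempty := by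
    obtain ⟨L, hL⟩ := hdom
    exact ⟨L.length, L, hL, rfl⟩
  have hQb : BddAbove Q := by
    refine ⟨Fintype.card P, ?_⟩
    rintro n ⟨L, hL, rfl⟩
    exact hL.2.1.length_le_card
  obtain ⟨L, ⟨hLne, hLnd, hLch, hLd⟩, hLlen⟩ := Nat.sSup_mem hQne hQb
  have hmax : ∀ L' : List P, L' ≠ [] → L'.Nodup → L'.IsChain R →
      (∀ g, g ∈ L' ∨ ∃ e ∈ L', R g e) → L'.length ≤ L.length := by
    intro L' h1 h2 h3 h4
    rw [hLlen]
    exact le_csSup hQb ⟨L', ⟨h1, h2, h3, h4⟩, rfl⟩
  -- the ends have no neighbours off the spine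
  have hfirst : ∀ e L', L = e :: L' → ∀ g, g ∉ L → ¬ R g e := by
    intro e L' hLe g hg hge
    have := hmax (g :: L) (by simp) (List.nodup_cons.2 ⟨hg, hLnd⟩)
      (by rw [hLe, List.isChain_cons_cons, ← hLe]; exact ⟨hge, hLch⟩)
      (by
        intro g'
        rcases hLd g' with h1 | ⟨f, h1, h2⟩
        · left; simp [h1]
        · right; exact ⟨f, by simp [h1], h2⟩)
    simp at this
  have hlast' : ∀ e L1, L = L1 ++ [e] → ∀ g, g ∉ L → ¬ R e g := by
    intro e L1 hLe g hg hge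
    have := hmax (L ++ [g]) (by simp)
      (by
        rw [List.nodup_append]
        refine ⟨hLnd, by simp, ?_⟩
        intro a ha b hb
        rw [List.mem_singleton] at hb
        rintro rfl
        exact hg (by rw [← hb]; exact ha))
      (by
        rw [List.isChain_append]
        refine ⟨hLch, by simp, ?_⟩
        intro x hx y hy
        rw [hLe, List.getLast?_concat, Option.mem_some_iff] at hx
        rw [List.head?_cons, Option.mem_some_iff] at hy
        rw [← hx, ← hy]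
        exact hge)
      (by
        intro g'
        rcases hLd g' with h1 | ⟨f, h1, h2⟩
        · left; simp [h1]
        · right; exact ⟨f, by simp [h1], h2⟩)
    simp at this
  -- attachments
  obtain ⟨v0⟩ : Nonempty V := hT.connected.nonempty
  have hatt : ∀ g, ∃ a c, g ∉ L → pr a = g ∧ pr c ∈ L ∧ T.Adj c a := by
    intro g
    by_cases hg : g ∈ L
    · exact ⟨v0, v0, fun h => absurd hg h⟩
    · rcases hLd g with h1 | ⟨e, h1, h2⟩
      · exact absurd h1 hg
      · obtain ⟨-, a, b, h3, h4, h5⟩ := (hR g e).1 h2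
        exact ⟨a, b, fun _ => ⟨h3, by rw [h4]; exact h1, h5.symm⟩⟩
  choose A Cc hAC using hatt
  have hL : Spine T pr L A Cc :=
    ⟨hLnd, fun g hg => (hAC g hg).1, fun g hg => (hAC g hg).2.1, fun g hg => (hAC g hg).2.2⟩
  have hpl : ∀ e, (∀ g, g ∉ L → ¬ R g e) → ∀ c, pr c = e → plist L Cc c = [] := by
    intro e he c hc
    rw [List.eq_nil_iff_forall_not_mem]
    intro g hg
    obtain ⟨h1, h2⟩ := mem_plist.1 hg
    apply he g h1
    rw [hR]
    refine ⟨?_, A g, c, hL.prA g h1, hc, ?_⟩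
    · rintro rfl
      have := hL.prC g h1
      rw [h2, hc] at this
      exact h1 this
    · have := hL.adj g h1
      rw [h2] at this
      exact this.symm
  have hch : L.IsChain (fun e f => ∃ a b, pr a = e ∧ pr b = f ∧ T.Adj a b) := by
    refine hLch.imp ?_
    intro e f hef
    exact ((hR e f).1 hef).2
  obtain ⟨e, L', hLe⟩ := List.exists_cons_of_ne_nil hLne
  obtain ⟨s, hs⟩ := hsurj e
  obtain ⟨w, g, hw, -, hgE, hgi, -, hgs⟩ := build h hL hch
    (by
      intro L1 e hLe c hc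
      exact hpl e (fun g hg hge => hlast' e L1 hLe g hg (hsymm _ _ hge)) c hc)
    L' e [] (by simpa using hLe) s hs (Or.inl (hpl e (hfirst e L' hLe)))
  have hhome : ∀ v, home pr L Cc v ∈ e :: L' := by
    intro v
    rw [← hLe, home]
    split_ifs with h1
    · exact h1
    · exact hL.prC _ h1
  exact hasAlpha_of_word T hT w hw g hgE hgi (fun v => hgs v (hhome v)) (word_rel w hw)

/-- The theorem. -/
theorem alpha_of_caterpillar_contraction {V : Type*} [Fintype V] (T : SimpleGraph V)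
    (hT : T.IsTree) (hdeg : ∀ v : V, (T.neighborSet v).ncard ≤ 3) (M : T.Subgraph)
    (hM : M.IsPerfectMatching) (C : SimpleGraph M.edgeSet)
    (hC : ∀ e f : M.edgeSet, C.Adj e f ↔
      e ≠ f ∧ ∃ a ∈ (e : Sym2 V), ∃ b ∈ (f : Sym2 V), T.Adj a b)
    (hcat : ∃ (x y : M.edgeSet) (p : C.Walk x y), p.IsPath ∧
      ∀ e : M.edgeSet, e ∈ p.support ∨ ∃ f ∈ p.support, C.Adj e f) : HasAlpha T := by
  classical
  have hex : ∀ v, ∃ u, M.Adj v u ∧ ∀ y, M.Adj v y → y = u := by
    intro v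
    obtain ⟨u, hu, hu'⟩ := hM.1 (hM.2 v)
    exact ⟨u, hu, hu'⟩
  choose m hm hm' using hex
  have hmm : ∀ v, m (m v) = v := fun v => (hm' (m v) v (hm v).symm).symm
  let pr : V → M.edgeSet := fun v => ⟨s(v, m v), hm v⟩
  have hmem : ∀ (v : V) (e : M.edgeSet), v ∈ (e : Sym2 V) ↔ pr v = e := by
    intro v e
    constructor
    · intro hv
      apply Subtype.ext
      obtain ⟨u, hu⟩ := Sym2.mem_iff_exists.1 hv
      have he := e.2
      rw [hu, SimpleGraph.Subgraph.mem_edgeSet] at he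
      rw [hu, hm' v u he]
    · intro hv
      rw [← hv]
      exact Sym2.mem_mk_left _ _
  have hset : Setup T m pr := by
    refine ⟨hmm, fun v => (hm v).adj_sub, ?_, hdeg⟩
    intro u v
    rw [Subtype.ext_iff]
    simp only [pr, Sym2.eq_iff]
    constructor
    · rintro (⟨h1, -⟩ | ⟨h1, -⟩)
      · exact Or.inl h1
      · exact Or.inr h1
    · rintro (rfl | rfl)
      · exact Or.inl ⟨rfl, rfl⟩
      · exact Or.inr ⟨rfl, hmm v⟩
  have : Fintype M.edgeSet := Fintype.ofFinite _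
  obtain ⟨x, y, p, hp, hpd⟩ := hcat
  refine alpha_of_dominating T hT m pr hset ?_ C.Adj ?_ ⟨p.support, p.support_ne_nil,
    hp.support_nodup, p.isChain_adj_support, hpd⟩
  · intro e
    obtain ⟨v, hv⟩ : ∃ v, v ∈ (e : Sym2 V) := by
      induction h : (e : Sym2 V) using Sym2.inductionOn with
      | hf a b => exact ⟨a, Sym2.mem_mk_left _ _⟩
    exact ⟨v, (hmem v e).1 hv⟩
  · intro e f
    rw [hC]
    simp only [hmem]
    constructor
    · rintro ⟨h1, a, h2, b, h3, h4⟩
      exact ⟨h1, a, b, h2, h3, h4⟩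
    · rintro ⟨h1, a, b, h2, h3, h4⟩
      exact ⟨h1, a, h2, b, h3, h4⟩

end CatW
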