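import Pool.Agent.Work.MP_f04a5a_co.WordDefs

/-! A checker for labelled words and for decision trees, and its soundness. -/

namespace CatW

/-- Digit `i` in base `64`. -/
def dg (code i : ℕ) : ℕ := Nat.land (Nat.shiftRight code (Nat.mul 6 i)) 63

theorem dg_lt (code i : ℕ) : dg code i < 64 := by
  have : dg code i = (code >>> (6 * i)) &&& 63 := rfl
  rw [this]
  exact lt_of_le_of_lt Nat.and_le_right (by norm_num)

/-- One bit. -/
def bt (i : ℕ) : ℕ := Nat.shiftLeft 1 i

theorem testBit_bt {i j : ℕ} : (bt i).testBit j = true ↔ i = j := by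
  have : bt i = 1 <<< i := rfl
  rw [this, Nat.one_shiftLeft, Nat.testBit_two_pow]
  simp

theorem testBit_lor {a b j : ℕ} :
    (Nat.lor a b).testBit j = true ↔ a.testBit j = true ∨ b.testBit j = true := by
  have : Nat.lor a b = a ||| b := rfl
  rw [this, Nat.testBit_or, Bool.or_eq_true]

/-- The bits of a letter: the vertices with digits `d i`, and the edges (shifted by `64`). -/
def sm (l : Lt) (d : ℕ → ℕ) : ℕ :=
  match l with
  | .S0 => Nat.lor (bt (d 0)) (Nat.lor (bt (d 1)) (bt (Nat.add 64 (Nat.add (d 0) (d 1)))))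
  | .D00 => Nat.lor (bt (d 0)) (Nat.lor (bt (d 1)) (bt (Nat.add 64 (Nat.add (d 0) (d 1)))))
  | .S1 => Nat.lor (bt (d 0)) (Nat.lor (bt (d 1)) (Nat.lor (bt (d 2)) (Nat.lor (bt (d 3))
      (Nat.lor (bt (Nat.add 64 (Nat.add (d 0) (d 1))))
      (Nat.lor (bt (Nat.add 64 (Nat.add (d 1) (d 2)))) (bt (Nat.add 64 (Nat.add (d 2) (d 3)))))))))
  | .D01 => Nat.lor (bt (d 0)) (Nat.lor (bt (d 1)) (Nat.lor (bt (d 2)) (Nat.lor (bt (d 3))
      (Nat.lor (bt (Nat.add 64 (Nat.add (d 0) (d 1))))
      (Nat.lor (bt (Nat.add 64 (Nat.add (d 1) (d 2)))) (bt (Nat.add 64 (Nat.add (d 2) (d 3)))))))))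
  | .D10 => Nat.lor (bt (d 0)) (Nat.lor (bt (d 1)) (Nat.lor (bt (d 2)) (Nat.lor (bt (d 3))
      (Nat.lor (bt (Nat.add 64 (Nat.add (d 0) (d 1))))
      (Nat.lor (bt (Nat.add 64 (Nat.add (d 0) (d 2)))) (bt (Nat.add 64 (Nat.add (d 2) (d 3)))))))))
  | .S2 => Nat.lor (bt (d 0)) (Nat.lor (bt (d 1)) (Nat.lor (bt (d 2)) (Nat.lor (bt (d 3))
      (Nat.lor (bt (d 4)) (Nat.lor (bt (d 5))
      (Nat.lor (bt (Nat.add 64 (Nat.add (d 0) (d 1))))
      (Nat.lor (bt (Nat.add 64 (Nat.add (d 1) (d 2))))
      (Nat.lor (bt (Nat.add 64 (Nat.add (d 2) (d 3))))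
      (Nat.lor (bt (Nat.add 64 (Nat.add (d 1) (d 4))))
      (bt (Nat.add 64 (Nat.add (d 4) (d 5)))))))))))))
  | .D11 => Nat.lor (bt (d 0)) (Nat.lor (bt (d 1)) (Nat.lor (bt (d 2)) (Nat.lor (bt (d 3))
      (Nat.lor (bt (d 4)) (Nat.lor (bt (d 5))
      (Nat.lor (bt (Nat.add 64 (Nat.add (d 0) (d 1))))
      (Nat.lor (bt (Nat.add 64 (Nat.add (d 0) (d 2))))
      (Nat.lor (bt (Nat.add 64 (Nat.add (d 2) (d 3))))
      (Nat.lor (bt (Nat.add 64 (Nat.add (d 1) (d 4))))
      (bt (Nat.add 64 (Nat.add (d 4) (d 5)))))))))))))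

theorem exists_lt_two {p : ℕ → Prop} : (∃ i < 2, p i) ↔ p 0 ∨ p 1 := by
  constructor
  · rintro ⟨i, hi, h⟩
    interval_cases i <;> simp [h]
  · rintro (h | h)
    · exact ⟨0, by norm_num, h⟩
    · exact ⟨1, by norm_num, h⟩

theorem exists_lt_four {p : ℕ → Prop} : (∃ i < 4, p i) ↔ p 0 ∨ p 1 ∨ p 2 ∨ p 3 := by
  constructor
  · rintro ⟨i, hi, h⟩
    interval_cases i <;> simp [h]
  · rintro (h | h | h | h)
    · exact ⟨0, by norm_num, h⟩
    · exact ⟨1, by norm_num, h⟩
    · exact ⟨2, by norm_num, h⟩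
    · exact ⟨3, by norm_num, h⟩

theorem exists_lt_six {p : ℕ → Prop} :
    (∃ i < 6, p i) ↔ p 0 ∨ p 1 ∨ p 2 ∨ p 3 ∨ p 4 ∨ p 5 := by
  constructor
  · rintro ⟨i, hi, h⟩
    interval_cases i <;> simp [h]
  · rintro (h | h | h | h | h | h)
    · exact ⟨0, by norm_num, h⟩
    · exact ⟨1, by norm_num, h⟩
    · exact ⟨2, by norm_num, h⟩
    · exact ⟨3, by norm_num, h⟩
    · exact ⟨4, by norm_num, h⟩
    · exact ⟨5, by norm_num, h⟩

theorem sm_spec (l : Lt) (d : ℕ → ℕ) (j : ℕ) : (sm l d).testBit j = true ↔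
    (∃ i < sz l, d i = j) ∨ (∃ e ∈ esl l, 64 + (d e.1 + d e.2) = j) := by
  cases l <;> simp only [sm, sz, esl, testBit_lor, testBit_bt, Nat.add_eq, exists_lt_two,
    exists_lt_four, exists_lt_six, List.mem_cons, List.not_mem_nil, or_false, exists_eq_or_imp,
    exists_eq_left] <;> tauto

/-- The bits of a word (with `lm` for the link to the part before). -/
noncomputable def wm (code : ℕ) (w : List Lt) : ℕ → (ℕ → ℕ) → ℕ :=
  List.rec (motive := fun _ => ℕ → (ℕ → ℕ) → ℕ) (fun _ _ => 0)
    (fun l _ ih off lm => Nat.lor (lm (dg code off)) (Nat.lor (sm l (fun i => dg code (Nat.add off i)))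
      (ih (Nat.add off (sz l)) (fun g => bt (Nat.add 64 (Nat.add (dg code (Nat.add off (exi l))) g))))))
    w

theorem wm_cons (code : ℕ) (l : Lt) (w : List Lt) (off : ℕ) (lm : ℕ → ℕ) :
    wm code (l :: w) off lm = Nat.lor (lm (dg code off)) (Nat.lor (sm l (fun i => dg code (off + i)))
      (wm code w (off + sz l) (fun g => bt (64 + (dg code (off + exi l) + g))))) := rfl

theorem wm_spec (code : ℕ) {w : List Lt} (hw : w ≠ []) : ∀ (off : ℕ) (lm : ℕ → ℕ) (j : ℕ),
    (wm code w off lm).testBit j = true ↔ (lm (dg code off)).testBit j = true ∨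
      (∃ i < tot w, dg code (off + i) = j) ∨
      (∃ e ∈ E w, 64 + (dg code (off + e.1) + dg code (off + e.2)) = j) := by
  induction w with
  | nil => exact absurd rfl hw
  | cons l w ih =>
    intro off lm j
    rw [wm_cons, testBit_lor, testBit_lor, sm_spec]
    by_cases h : w = []
    · subst h
      have : wm code [] (off + sz l) (fun g => bt (64 + (dg code (off + exi l) + g))) = 0 := rfl
      rw [this, Nat.zero_testBit, E_single]
      simp [tot]
    · rw [ih h, testBit_bt, E_cons l h]
      simp only [tot]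
      constructor
      · rintro (h1 | (⟨i, hi, h1⟩ | ⟨e, he, h1⟩) | h1 | ⟨i, hi, h1⟩ | ⟨e, he, h1⟩)
        · exact Or.inl h1
        · exact Or.inr (Or.inl ⟨i, by omega, h1⟩)
        · exact Or.inr (Or.inr ⟨e, by simp [he], h1⟩)
        · exact Or.inr (Or.inr ⟨(exi l, sz l), by simp, h1⟩)
        · exact Or.inr (Or.inl ⟨sz l + i, by omega, by rw [← h1]; congr 1; ring⟩)
        · refine Or.inr (Or.inr ⟨(sz l + e.1, sz l + e.2), ?_, ?_⟩)
          · rw [List.mem_append, List.mem_cons]
            exact Or.inr (Or.inr (mem_shf.2 ⟨e, he, rfl⟩))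
          · rw [← h1]; simp only [add_assoc]
      · rintro (h1 | ⟨i, hi, h1⟩ | ⟨e, he, h1⟩)
        · exact Or.inl h1
        · by_cases hil : i < sz l
          · exact Or.inr (Or.inl (Or.inl ⟨i, hil, h1⟩))
          · refine Or.inr (Or.inr (Or.inr (Or.inl ⟨i - sz l, by omega, ?_⟩)))
            rw [← h1]; congr 1; omega
        · rw [List.mem_append, List.mem_cons] at he
          rcases he with he | rfl | he
          · exact Or.inr (Or.inl (Or.inr ⟨e, he, h1⟩))
          · exact Or.inr (Or.inr (Or.inl h1))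
          · obtain ⟨e', he', rfl⟩ := mem_shf.1 he
            refine Or.inr (Or.inr (Or.inr (Or.inr ⟨e', he', ?_⟩)))
            rw [← h1]; simp only [add_assoc]

/-- The bits which should occur for `n` vertices: `0, ..., n - 1` and `65, 67, ..., 64 + 2 n - 3`. -/
def fl : ℕ → ℕ
  | 0 => 0
  | 1 => 1
  | n + 2 => Nat.lor (bt (n + 1)) (Nat.lor (bt (65 + 2 * n)) (fl (n + 1)))

theorem fl_spec : ∀ (n j : ℕ), (fl n).testBit j = true ↔ j < n ∨ ∃ k, k + 1 < n ∧ j = 65 + 2 * k
  | 0, j => by simp [fl]
  | 1, j => by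
    simp only [fl, Nat.testBit_one_eq_true_iff_self_eq_zero]
    constructor
    · intro h; left; omega
    · rintro (h | ⟨k, hk, -⟩) <;> omega
  | n + 2, j => by
    rw [fl, testBit_lor, testBit_lor, testBit_bt, testBit_bt, fl_spec (n + 1) j]
    constructor
    · rintro (h | h | h | ⟨k, hk, h⟩)
      · left; omega
      · right; exact ⟨n, by omega, h.symm⟩
      · left; omega
      · right; exact ⟨k, by omega, h⟩
    · rintro (h | ⟨k, hk, h⟩)
      · by_cases h' : n + 1 = j
        · exact Or.inl h'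
        · exact Or.inr (Or.inr (Or.inl (by omega)))
      · by_cases h' : k = n
        · subst h'; exact Or.inr (Or.inl h.symm)
        · exact Or.inr (Or.inr (Or.inr ⟨k, by omega, h⟩))

/-- Closed form of `fl`. -/
def flF (n : ℕ) : ℕ :=
  Nat.add (Nat.sub (Nat.shiftLeft 1 n) 1)
    (Nat.shiftLeft (Nat.div (Nat.sub (Nat.shiftLeft 1 (Nat.mul 2 (Nat.sub n 1))) 1) 3) 65)

theorem flF_eq : ∀ n < 64, flF n = fl n := by decide +kernel

noncomputable def labOK (w : List Lt) (e y code : ℕ) : Bool :=
  Nat.blt (tot w) 64 && (Nat.beq (wm code w 0 (fun _ => 0)) (flF (tot w)) &&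
    (Nat.beq (Nat.div (dg code 0) 2) e &&
    Nat.beq (Nat.mul 2 (Nat.succ (Nat.add (Nat.div (dg code (exw w)) 2) y))) (tot w)))

theorem labOK_rel {w : List Lt} {e y code : ℕ} (hw : w ≠ []) (h : labOK w e y code = true) :
    Rel w e y := by
  rw [labOK, Bool.and_eq_true, Bool.and_eq_true, Bool.and_eq_true] at h
  obtain ⟨h0, h1, h3, h4⟩ := h
  have h0' : tot w < 64 := by simpa [Nat.blt_eq] using h0
  have h1' : wm code w 0 (fun _ => 0) = flF (tot w) := by simpa using h1
  have h3' : dg code 0 / 2 = e := Nat.eq_of_beq_eq_true h3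
  have h4' : 2 * (dg code (exw w) / 2 + y + 1) = tot w := Nat.eq_of_beq_eq_true h4
  rw [flF_eq _ h0'] at h1'
  have hbit : ∀ j, ((∃ i < tot w, dg code i = j) ∨
      (∃ e ∈ E w, 64 + (dg code e.1 + dg code e.2) = j)) ↔
      (j < tot w ∨ ∃ k, k + 1 < tot w ∧ j = 65 + 2 * k) := by
    intro j
    rw [← fl_spec, ← h1', wm_spec code hw]
    simp
  have hlt : ∀ i < tot w, dg code i < tot w := by
    intro i hi
    rcases (hbit (dg code i)).1 (Or.inl ⟨i, hi, rfl⟩) with h | ⟨k, hk, h⟩
    · exact h
    · have := dg_lt code i; omega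
  have hsur : ∀ j < tot w, ∃ i < tot w, dg code i = j := by
    intro j hj
    rcases (hbit j).2 (Or.inl hj) with h | ⟨e, he, h⟩
    · exact h
    · omega
  have hinj : ∀ i < tot w, ∀ j < tot w, dg code i = dg code j → i = j := by
    intro i hi j hj hij
    let F : Fin (tot w) → Fin (tot w) := fun a => ⟨dg code a, hlt a a.2⟩
    have hF : Function.Surjective F := by
      intro b
      obtain ⟨i, hi, h⟩ := hsur b b.2
      exact ⟨⟨i, hi⟩, Fin.ext h⟩
    have hF' : Function.Injective F := Finite.injective_iff_surjective.2 hF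
    have := @hF' ⟨i, hi⟩ ⟨j, hj⟩ (Fin.ext hij)
    exact congrArg Fin.val this
  have hodd : ∀ e ∈ E w, ∃ k, k + 1 < tot w ∧ dg code e.1 + dg code e.2 = 2 * k + 1 := by
    intro e he
    rcases (hbit _).1 (Or.inr ⟨e, he, rfl⟩) with h | ⟨k, hk, h⟩
    · omega
    · exact ⟨k, hk, by omega⟩
  have hcov : ∀ k, k + 1 < tot w → ∃ e ∈ E w, dg code e.1 + dg code e.2 = 2 * k + 1 := by
    intro k hk
    rcases (hbit (65 + 2 * k)).2 (Or.inr ⟨k, hk, rfl⟩) with ⟨i, hi, h⟩ | ⟨e, he, h⟩
    · have := dg_lt code i; omega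
    · exact ⟨e, he, by omega⟩
  have hnd : ((E w).map (fun e => dg code e.1 + dg code e.2)).Nodup := by
    have hlen := E_length hw
    rw [← Multiset.coe_nodup, ← Multiset.toFinset_card_eq_card_iff_nodup]
    apply le_antisymm (Multiset.toFinset_card_le _)
    rw [Multiset.coe_card, List.length_map]
    have hsub : (Finset.range (tot w - 1)).image (fun k => 2 * k + 1) ⊆
        (((E w).map (fun e => dg code e.1 + dg code e.2) : List ℕ) : Multiset ℕ).toFinset := by
      intro x hx
      obtain ⟨k, hk, rfl⟩ := Finset.mem_image.1 hx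
      rw [Finset.mem_range] at hk
      obtain ⟨e, he, h⟩ := hcov k (by omega)
      rw [Multiset.mem_toFinset, Multiset.mem_coe, List.mem_map]
      exact ⟨e, he, h⟩
    have := Finset.card_le_card hsub
    rw [Finset.card_image_of_injective _ (fun a b h => by omega),
      Finset.card_range] at this
    omega
  rw [List.Nodup, List.pairwise_map] at hnd
  refine ⟨fun i => dg code i / 2, fun i => decide (dg code i % 2 = 1), ?_, ?_, ?_, ?_, h3', h4'⟩
  · intro i hi
    have := hlt i hi
    omega
  · intro i hi j hj hc hl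
    apply hinj i hi j hj
    have hc' : (dg code i % 2 = 1) ↔ (dg code j % 2 = 1) := by simpa using hc
    omega
  · intro p hp
    obtain ⟨k, -, h⟩ := hodd p hp
    intro hc
    have hc' : (dg code p.1 % 2 = 1) ↔ (dg code p.2 % 2 = 1) := by simpa using hc
    omega
  · refine hnd.imp_of_mem ?_
    intro a b ha hb hab
    obtain ⟨k, -, h⟩ := hodd a ha
    obtain ⟨k', -, h'⟩ := hodd b hb
    omega

/-- Decision trees: a leaf names the hub it returns to, with the facts needed there; an inner node
carries a fact for the present word and one child for every letter. -/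
inductive DT
  | lf (g : ℕ) (fs : List (ℕ × ℕ × ℕ))
  | nd (f : ℕ × ℕ × ℕ × ℕ) (c0 c1 c2 c3 c4 c5 c6 : DT)

/-- The last letters recorded by a hub. -/
def hubL : ℕ → List Lt
  | 0 => []
  | 1 => [.D00, .D00]
  | 2 => [.D10, .D10]
  | _ => [.D10, .D10]

/-- The end labels known to be possible at a hub: `(i, y)` stands for the label `y` at the end of the
word without all but the first `i` of the letters recorded by the hub. -/
def hubP : ℕ → List (ℕ × ℕ)
  | 0 => [(0, 0), (0, 1)]
  | 1 => [(0, 1), (0, 2), (1, 1), (1, 2), (2, 1), (2, 2)]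
  | 2 => [(0, 1), (0, 3), (1, 0), (1, 2), (2, 1), (2, 3)]
  | _ => [(0, 0), (0, 2), (1, 1), (1, 3), (2, 0), (2, 2)]

def memP (a b : ℕ) : List (ℕ × ℕ) → Bool
  | [] => false
  | e :: L => (Nat.beq e.1 a && Nat.beq e.2 b) || memP a b L

theorem memP_spec {a b : ℕ} {L : List (ℕ × ℕ)} (h : memP a b L = true) : (a, b) ∈ L := by
  induction L with
  | nil => simp [memP] at h
  | cons e L ih =>
    rw [memP, Bool.or_eq_true, Bool.and_eq_true] at h
    rcases h with h | h
    · have h1 : e.1 = a := by simpa using h.1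
      have h2 : e.2 = b := by simpa using h.2
      rw [List.mem_cons]
      left
      ext <;> simp [h1, h2]
    · exact List.mem_cons_of_mem _ (ih h)

theorem hubP_le (h : ℕ) : ∀ p ∈ hubP h, p.1 ≤ (hubL h).length := by
  match h with
  | 0 => decide
  | 1 => decide
  | 2 => decide
  | n + 3 => simp [hubP, hubL]

theorem hubP_last (h : ℕ) : ∃ y, ((hubL h).length, y) ∈ hubP h := by
  match h with
  | 0 => exact ⟨0, by decide⟩
  | 1 => exact ⟨1, by decide⟩
  | 2 => exact ⟨1, by decide⟩
  | n + 3 => exact ⟨0, by simp [hubP, hubL]⟩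

def eqLt : Lt → Lt → Bool
  | .S0, .S0 => true
  | .S1, .S1 => true
  | .S2, .S2 => true
  | .D00, .D00 => true
  | .D10, .D10 => true
  | .D01, .D01 => true
  | .D11, .D11 => true
  | _, _ => false

theorem eqLt_spec {a b : Lt} (h : eqLt a b = true) : a = b := by
  cases a <;> cases b <;> simp_all [eqLt]

def eqL : List Lt → List Lt → Bool
  | [], [] => true
  | a :: L, b :: L' => eqLt a b && eqL L L'
  | _, _ => false

theorem eqL_spec : ∀ {L L' : List Lt}, eqL L L' = true → L = L' := by
  intro L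
  induction L with
  | nil => intro L' h; cases L' with
    | nil => rfl
    | cons b L' => simp [eqL] at h
  | cons a L ih => intro L' h; cases L' with
    | nil => simp [eqL] at h
    | cons b L' =>
      rw [eqL, Bool.and_eq_true] at h
      rw [eqLt_spec h.1, ih h.2]

/-- The fact that the first `t` letters of `W` can end with label `y`, from the label `e` after `i`
letters. -/
noncomputable def factOK (h : ℕ) (W : List Lt) (t y i e code : ℕ) : Bool :=
  Nat.ble i t && (memP i e (hubP h) &&
    (bif Nat.beq i t then Nat.beq e y else labOK ((W.take t).drop i) e y code))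

noncomputable def lfOK (h : ℕ) (W : List Lt) (d : ℕ) : List (ℕ × ℕ) → List (ℕ × ℕ × ℕ) → Bool
  | [], _ => true
  | p :: P, f :: fs => factOK h W (d + p.1) p.2 f.1 f.2.1 f.2.2 && lfOK h W d P fs
  | _ :: _, [] => false

/-- The checker. -/
noncomputable def chk (h : ℕ) : DT → List Lt → Bool
  | .lf g fs, W => Nat.ble g 3 && (eqL (W.drop (W.length - (hubL g).length)) (hubL g) &&
      lfOK h W (W.length - (hubL g).length) (hubP g) fs)
  | .nd f c0 c1 c2 c3 c4 c5 c6, W =>
      factOK h W W.length f.2.2.1 f.1 f.2.1 f.2.2.2 &&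
      (chk h c0 (W ++ [.S0]) && (chk h c1 (W ++ [.S1]) && (chk h c2 (W ++ [.S2]) &&
      (chk h c3 (W ++ [.D00]) && (chk h c4 (W ++ [.D10]) && (chk h c5 (W ++ [.D01]) &&
      chk h c6 (W ++ [.D11])))))))

/-- The check for a root (the hub itself). -/
noncomputable def chkR (h : ℕ) : DT → Bool
  | .lf _ _ => false
  | .nd _ c0 c1 c2 c3 c4 c5 c6 =>
      chk h c0 (hubL h ++ [.S0]) && (chk h c1 (hubL h ++ [.S1]) && (chk h c2 (hubL h ++ [.S2]) &&
      (chk h c3 (hubL h ++ [.D00]) && (chk h c4 (hubL h ++ [.D10]) &&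
      (chk h c5 (hubL h ++ [.D01]) && chk h c6 (hubL h ++ [.D11]))))))

/-- The state described by hub `h` after the word `q`. -/
def St (h : ℕ) (q : List Lt) : Prop := ∀ p ∈ hubP h, Ach (q ++ (hubL h).take p.1) p.2

theorem factOK_ach {h : ℕ} {q W R : List Lt} {t y i e code : ℕ} (hq : St h q)
    (hW : W = hubL h ++ R) (ht : t ≤ W.length) (hf : factOK h W t y i e code = true) :
    Ach (q ++ W.take t) y := by
  rw [factOK, Bool.and_eq_true, Bool.and_eq_true] at hf
  obtain ⟨h1, h2, h3⟩ := hf
  have hit : i ≤ t := Nat.le_of_ble_eq_true h1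
  have hm := memP_spec h2
  have hi := hubP_le h _ hm
  have hA := hq _ hm
  simp only at hi hA
  have hWi : (hubL h).take i = W.take i := by
    rw [hW, List.take_append_of_le_length hi]
  rw [hWi] at hA
  by_cases hb : i = t
  · subst hb
    have h3' : e = y := by simpa using h3
    rwa [← h3']
  · have hb' : Nat.beq i t = false := by
      rw [← Bool.not_eq_true]; simpa using hb
    rw [hb'] at h3
    simp only [cond_false] at h3
    have hne : (W.take t).drop i ≠ [] := by
      intro h0
      have := congrArg List.length h0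
      simp only [List.length_drop, List.length_take, List.length_nil] at this
      omega
    have hR := labOK_rel hne h3
    have := hA.glue hne hR
    have heq : q ++ W.take i ++ (W.take t).drop i = q ++ W.take t := by
      rw [List.append_assoc]
      congr 1
      have : W.take i = (W.take t).take i := by
        rw [List.take_take, min_eq_left hit]
      rw [this, List.take_append_drop]
    rwa [heq] at this

theorem lfOK_spec {h : ℕ} {W : List Lt} {d : ℕ} : ∀ {P : List (ℕ × ℕ)} {fs : List (ℕ × ℕ × ℕ)},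
    lfOK h W d P fs = true → ∀ p ∈ P, ∃ i e code, factOK h W (d + p.1) p.2 i e code = true := by
  intro P
  induction P with
  | nil => intro fs _ p hp; simp at hp
  | cons p P ih =>
    intro fs hf p' hp'
    cases fs with
    | nil => simp [lfOK] at hf
    | cons f fs =>
      rw [lfOK, Bool.and_eq_true] at hf
      rcases List.mem_cons.1 hp' with rfl | hp'
      · exact ⟨_, _, _, hf.1⟩
      · exact ih hf.2 p' hp'

/-- Soundness at a node. -/
theorem chk_sound {h : ℕ} {q : List Lt} (hq : St h q) (n : ℕ)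
    (IH : ∀ g ≤ 3, ∀ q', St g q' → ∀ r : List Lt, r.length ≤ n →
      ∃ y, Ach (q' ++ hubL g ++ r) y) :
    ∀ (t : DT) (R : List Lt), chk h t (hubL h ++ R) = true → ∀ r : List Lt, r.length ≤ n →
      ∃ y, Ach (q ++ (hubL h ++ R) ++ r) y := by
  intro t
  induction t with
  | lf g fs =>
    intro R hc r hr
    rw [chk, Bool.and_eq_true, Bool.and_eq_true] at hc
    obtain ⟨h0, h1, h2⟩ := hc
    have h0' : g ≤ 3 := Nat.le_of_ble_eq_true h0
    have h1' := eqL_spec h1
    set W := hubL h ++ R with hW
    set d := W.length - (hubL g).length with hd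
    have hlen : d + (hubL g).length = W.length := by
      have := congrArg List.length h1'
      rw [List.length_drop] at this
      omega
    have hWd : W = W.take d ++ hubL g := by
      conv_lhs => rw [← List.take_append_drop d W, h1']
    have hst : St g (q ++ W.take d) := by
      intro p hp
      obtain ⟨i, e, code, hf⟩ := lfOK_spec h2 p hp
      have hp1 := hubP_le g p hp
      have := factOK_ach hq hW (by omega) hf
      have heq : W.take (d + p.1) = W.take d ++ (hubL g).take p.1 := by
        rw [List.take_add]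
        rw [h1']
      rw [heq, ← List.append_assoc] at this
      exact this
    obtain ⟨y, hy⟩ := IH g h0' _ hst r hr
    refine ⟨y, ?_⟩
    have heq : q ++ W ++ r = q ++ W.take d ++ hubL g ++ r := by
      conv_lhs => rw [hWd]
      simp only [List.append_assoc]
    rw [heq]
    exact hy
  | nd f c0 c1 c2 c3 c4 c5 c6 i0 i1 i2 i3 i4 i5 i6 =>
    intro R hc r hr
    rw [chk] at hc
    simp only [Bool.and_eq_true] at hc
    obtain ⟨hf, k0, k1, k2, k3, k4, k5, k6⟩ := hc
    cases r with
    | nil =>
      refine ⟨f.2.2.1, ?_⟩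
      have := factOK_ach hq rfl le_rfl hf
      rw [List.take_length] at this
      simpa using this
    | cons l r =>
      have hr' : r.length ≤ n := by simp only [List.length_cons] at hr; omega
      have key : ∀ (c : DT), (∀ (R : List Lt), chk h c (hubL h ++ R) = true → ∀ r : List Lt,
          r.length ≤ n → ∃ y, Ach (q ++ (hubL h ++ R) ++ r) y) →
          chk h c (hubL h ++ R ++ [l]) = true → ∃ y, Ach (q ++ (hubL h ++ R) ++ (l :: r)) y := by
        intro c hc hk
        obtain ⟨y, hy⟩ := hc (R ++ [l]) (by rwa [← List.append_assoc]) r hr'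
        refine ⟨y, ?_⟩
        simpa [List.append_assoc] using hy
      cases l with
      | S0 => exact key c0 i0 k0
      | S1 => exact key c1 i1 k1
      | S2 => exact key c2 i2 k2
      | D00 => exact key c3 i3 k3
      | D10 => exact key c4 i4 k4
      | D01 => exact key c5 i5 k5
      | D11 => exact key c6 i6 k6

/-- If all four roots pass the check then every word can be labelled. -/
theorem all_words (rt : ℕ → DT) (hrt : ∀ h ≤ 3, chkR h (rt h) = true) :
    ∀ n, ∀ g ≤ 3, ∀ q', St g q' → ∀ r : List Lt, r.length ≤ n →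
      ∃ y, Ach (q' ++ hubL g ++ r) y := by
  intro n
  induction n with
  | zero =>
    intro g hg q' hq r hr
    have : r = [] := List.length_eq_zero_iff.1 (by omega)
    subst this
    obtain ⟨y, hy⟩ := hubP_last g
    refine ⟨y, ?_⟩
    have := hq _ hy
    simpa using this
  | succ n ih =>
    intro g hg q' hq r hr
    cases r with
    | nil =>
      obtain ⟨y, hy⟩ := hubP_last g
      refine ⟨y, ?_⟩
      have := hq _ hy
      simpa using this
    | cons l r =>
      have hr' : r.length ≤ n := by simp only [List.length_cons] at hr; omega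
      have hc := hrt g hg
      cases hd : rt g with
      | lf a b => rw [hd] at hc; simp [chkR] at hc
      | nd f c0 c1 c2 c3 c4 c5 c6 =>
        rw [hd, chkR] at hc
        simp only [Bool.and_eq_true] at hc
        obtain ⟨k0, k1, k2, k3, k4, k5, k6⟩ := hc
        have key : ∀ (c : DT), chk g c (hubL g ++ [l]) = true →
            ∃ y, Ach (q' ++ hubL g ++ (l :: r)) y := by
          intro c hk
          obtain ⟨y, hy⟩ := chk_sound hq n ih c [l] hk r hr'
          refine ⟨y, ?_⟩
          simpa [List.append_assoc] using hy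
        cases l with
        | S0 => exact key c0 k0
        | S1 => exact key c1 k1
        | S2 => exact key c2 k2
        | D00 => exact key c3 k3
        | D10 => exact key c4 k4
        | D01 => exact key c5 k5
        | D11 => exact key c6 k6

theorem exists_rel (rt : ℕ → DT) (hrt : ∀ h ≤ 3, chkR h (rt h) = true) (w : List Lt) (hw : w ≠ []) :
    ∃ x y, Rel w x y := by
  have hst : St 0 [] := by
    intro p hp
    left
    simp [hubL]
  obtain ⟨y, hy⟩ := all_words rt hrt w.length 0 (by norm_num) [] hst w le_rfl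
  rcases hy with h | ⟨x, hx⟩
  · exact absurd (by simpa [hubL] using h) hw
  · exact ⟨x, y, by simpa [hubL] using hx⟩

end CatW
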