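import Mathlib

/-! Components of a decomposed rooted tree and their codes. -/

namespace Alp
open Finset

theorem eq_of_rank {S : Finset ℕ} {x y : ℕ} (hx : x ∈ S) (hy : y ∈ S)
    (h : (S.filter (fun s => s < x)).card = (S.filter (fun s => s < y)).card) : x = y := by
  have key : ∀ a b : ℕ, a ∈ S → a < b →
      (S.filter (fun s => s < a)).card < (S.filter (fun s => s < b)).card := by
    intro a b ha hab
    apply Finset.card_lt_card
    rw [Finset.ssubset_iff_of_subset]
    · exact ⟨a, by simp [ha, hab], by simp⟩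
    · intro v hv
      simp only [mem_filter] at hv ⊢
      exact ⟨hv.1, lt_trans hv.2 hab⟩
  rcases lt_trichotomy x y with h1 | h1 | h1
  · have := key x y hx h1; omega
  · exact h1
  · have := key y x hy h1; omega

/-- A rooted tree with a decomposition into components smaller than `k`. -/
structure Dec (n k : ℕ) where
  par : Fin n → Fin n
  side : Fin n → Bool
  E : Finset (Fin n)
  top : Fin n → Fin n
  hpar : ∀ v, 0 < v.val → (par v).val < v.val
  hmono : ∀ v w, v ≤ w → par v ≤ par w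
  hside : ∀ v, 0 < v.val → side v = !side (par v)
  h0 : ∀ v : Fin n, v.val = 0 → v ∈ E
  ht1 : ∀ v, v ∉ E → par v ∈ E → top v = v
  ht2 : ∀ v, v ∉ E → par v ∉ E → top v = top (par v)
  ht3 : ∀ v, v ∉ E → top v ∉ E ∧ par (top v) ∈ E ∧ top v ≤ v ∧ top (top v) = top v
  hsz : ∀ t, (univ.filter (fun v => v ∉ E ∧ top v = t)).card < k

namespace Dec

variable {n k : ℕ} (D : Dec n k)

/-- The component with top `t`. -/
def comp (t : Fin n) : Finset (Fin n) := univ.filter (fun v => v ∉ D.E ∧ D.top v = t)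
/-- The index of a vertex in its component. -/
def idx (v : Fin n) : ℕ := ((D.comp (D.top v)).filter (fun w => w < v)).card
/-- A strictly monotone key encoding the parent. -/
def g (v : Fin n) : ℕ := D.idx v + D.idx (D.par v)
/-- The code of a component. -/
def code (t : Fin n) : Finset ℕ × Finset ℕ :=
  (((D.comp t).erase t).image D.g, ((D.comp t).filter (fun v => D.side v = true)).image D.idx)

theorem mem_comp (t v : Fin n) : v ∈ D.comp t ↔ v ∉ D.E ∧ D.top v = t := by
  simp [comp]

theorem card_comp_lt (t : Fin n) : (D.comp t).card < k := D.hsz t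

theorem idx_lt_card {t v : Fin n} (hv : v ∈ D.comp t) : D.idx v < (D.comp t).card := by
  have h2 := ((D.mem_comp t v).1 hv).2
  unfold idx
  rw [h2]
  apply Finset.card_lt_card
  rw [Finset.ssubset_iff_of_subset (Finset.filter_subset _ _)]
  exact ⟨v, hv, by simp⟩

theorem idx_lt_idx {t v w : Fin n} (hv : v ∈ D.comp t) (hw : w ∈ D.comp t) (h : v < w) :
    D.idx v < D.idx w := by
  have h1 := ((D.mem_comp t v).1 hv).2
  have h2 := ((D.mem_comp t w).1 hw).2
  unfold idx
  rw [h1, h2]
  apply Finset.card_lt_card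
  rw [Finset.ssubset_iff_of_subset]
  · exact ⟨v, by simp [hv, h], by simp⟩
  · intro x hx
    simp only [mem_filter] at hx ⊢
    exact ⟨hx.1, lt_trans hx.2 h⟩

theorem idx_inj {t v w : Fin n} (hv : v ∈ D.comp t) (hw : w ∈ D.comp t) (h : D.idx v = D.idx w) :
    v = w := by
  rcases lt_trichotomy v w with h1 | h1 | h1
  · have := D.idx_lt_idx hv hw h1; omega
  · exact h1
  · have := D.idx_lt_idx hw hv h1; omega

theorem idx_le_idx {t v w : Fin n} (hv : v ∈ D.comp t) (hw : w ∈ D.comp t) (h : v ≤ w) :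
    D.idx v ≤ D.idx w := by
  rcases lt_or_eq_of_le h with h1 | h1
  · exact (D.idx_lt_idx hv hw h1).le
  · rw [h1]

theorem top_mem {t v : Fin n} (hv : v ∈ D.comp t) : t ∈ D.comp t := by
  obtain ⟨h1, h2⟩ := (D.mem_comp t v).1 hv
  obtain ⟨a1, a2, a3, a4⟩ := D.ht3 v h1
  rw [h2] at a1 a4
  exact (D.mem_comp t t).2 ⟨a1, a4⟩

theorem par_top {t v : Fin n} (hv : v ∈ D.comp t) : D.par t ∈ D.E := by
  obtain ⟨h1, h2⟩ := (D.mem_comp t v).1 hv
  obtain ⟨a1, a2, a3, a4⟩ := D.ht3 v h1
  rw [h2] at a2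
  exact a2

theorem top_le {t v : Fin n} (hv : v ∈ D.comp t) : t ≤ v := by
  obtain ⟨h1, h2⟩ := (D.mem_comp t v).1 hv
  obtain ⟨a1, a2, a3, a4⟩ := D.ht3 v h1
  rw [h2] at a3
  exact a3

theorem val_pos {t v : Fin n} (hv : v ∈ D.comp t) : 0 < v.val := by
  obtain ⟨h1, h2⟩ := (D.mem_comp t v).1 hv
  rcases Nat.eq_zero_or_pos v.val with h | h
  · exact absurd (D.h0 v h) h1
  · exact h

theorem par_lt {t v : Fin n} (hv : v ∈ D.comp t) : D.par v < v := D.hpar v (D.val_pos hv)

theorem par_mem {t v : Fin n} (hv : v ∈ D.comp t) (hne : v ≠ t) : D.par v ∈ D.comp t := by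
  obtain ⟨h1, h2⟩ := (D.mem_comp t v).1 hv
  by_cases hp : D.par v ∈ D.E
  · exact absurd ((D.ht1 v h1 hp).symm.trans h2) hne
  · exact (D.mem_comp t _).2 ⟨hp, by rw [← D.ht2 v h1 hp]; exact h2⟩

theorem idx_top {t : Fin n} (ht : t ∈ D.comp t) : D.idx t = 0 := by
  have h2 := ((D.mem_comp t t).1 ht).2
  unfold idx
  rw [h2, Finset.card_eq_zero, Finset.filter_eq_empty_iff]
  intro x hx
  exact not_lt.2 (D.top_le hx)

theorem idx_pos {t v : Fin n} (hv : v ∈ D.comp t) (hne : v ≠ t) : 0 < D.idx v := by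
  have h1 := D.idx_lt_idx (D.top_mem hv) hv (lt_of_le_of_ne (D.top_le hv) (Ne.symm hne))
  omega

theorem idx_par_lt {t v : Fin n} (hv : v ∈ D.comp t) (hne : v ≠ t) :
    D.idx (D.par v) < D.idx v :=
  D.idx_lt_idx (D.par_mem hv hne) hv (D.par_lt hv)

theorem g_lt_g {t v w : Fin n} (hv : v ∈ D.comp t) (hvt : v ≠ t) (hw : w ∈ D.comp t) (hwt : w ≠ t)
    (h : v < w) : D.g v < D.g w := by
  have h1 := D.idx_lt_idx hv hw h
  have h2 := D.idx_le_idx (D.par_mem hv hvt) (D.par_mem hw hwt) (D.hmono v w h.le)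
  unfold g
  omega

theorem g_inj {t v w : Fin n} (hv : v ∈ D.comp t) (hvt : v ≠ t) (hw : w ∈ D.comp t) (hwt : w ≠ t)
    (h : D.g v = D.g w) : v = w := by
  rcases lt_trichotomy v w with h1 | h1 | h1
  · have := D.g_lt_g hv hvt hw hwt h1; omega
  · exact h1
  · have := D.g_lt_g hw hwt hv hvt h1; omega

theorem g_lt_iff {t v w : Fin n} (hv : v ∈ D.comp t) (hvt : v ≠ t) (hw : w ∈ D.comp t) (hwt : w ≠ t) :
    D.g v < D.g w ↔ v < w := by
  constructor
  · intro h
    by_contra hh
    rcases lt_or_eq_of_le (not_lt.1 hh) with h1 | h1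
    · have := D.g_lt_g hw hwt hv hvt h1; omega
    · rw [h1] at h; omega
  · exact D.g_lt_g hv hvt hw hwt

theorem idx_surj {t : Fin n} {i : ℕ} (hi : i < (D.comp t).card) :
    ∃ v ∈ D.comp t, D.idx v = i := by
  have himg : (D.comp t).image D.idx = range (D.comp t).card := by
    apply Finset.eq_of_subset_of_card_le
    · intro x hx
      rw [mem_image] at hx
      obtain ⟨v, hv, rfl⟩ := hx
      exact mem_range.2 (D.idx_lt_card hv)
    · rw [card_range, card_image_of_injOn]
      intro a ha b hb hab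
      exact D.idx_inj ha hb hab
  have : i ∈ (D.comp t).image D.idx := by rw [himg]; exact mem_range.2 hi
  rw [mem_image] at this
  obtain ⟨v, hv, h⟩ := this
  exact ⟨v, hv, h⟩

theorem code_mem (t : Fin n) :
    D.code t ∈ (range (2 * k)).powerset ×ˢ (range k).powerset := by
  rw [mem_product, mem_powerset, mem_powerset]
  constructor
  · intro x hx
    simp only [code, mem_image, mem_erase] at hx
    obtain ⟨v, ⟨h1, h2⟩, rfl⟩ := hx
    have a1 := D.idx_lt_card h2
    have a2 := D.idx_par_lt h2 h1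
    have a3 := D.card_comp_lt t
    rw [mem_range]
    unfold g
    omega
  · intro x hx
    simp only [code, mem_image, mem_filter] at hx
    obtain ⟨v, ⟨h1, h2⟩, rfl⟩ := hx
    have a1 := D.idx_lt_card h1
    have a3 := D.card_comp_lt t
    rw [mem_range]
    omega

theorem card_code_fst {t : Fin n} (ht : t ∈ D.comp t) :
    (D.code t).1.card + 1 = (D.comp t).card := by
  simp only [code]
  rw [card_image_of_injOn, Finset.card_erase_add_one ht]
  intro a ha b hb hab
  simp only [coe_erase, Set.mem_sdiff, Set.mem_singleton_iff, mem_coe] at ha hb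
  exact D.g_inj ha.1 ha.2 hb.1 hb.2 hab

theorem side_iff {t v : Fin n} (hv : v ∈ D.comp t) :
    D.side v = true ↔ D.idx v ∈ (D.code t).2 := by
  simp only [code, mem_image, mem_filter]
  constructor
  · intro h; exact ⟨v, ⟨hv, h⟩, rfl⟩
  · rintro ⟨w, ⟨h1, h2⟩, h3⟩
    rw [← D.idx_inj h1 hv h3]; exact h2

theorem g_rank {t v : Fin n} (hv : v ∈ D.comp t) (hne : v ≠ t) :
    ((D.code t).1.filter (fun s => s < D.g v)).card + 1 = D.idx v := by
  have h2 := ((D.mem_comp t v).1 hv).2
  have e1 : (D.code t).1.filter (fun s => s < D.g v) =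
      (((D.comp t).erase t).filter (fun w => w < v)).image D.g := by
    ext x
    simp only [code, mem_filter, mem_image, mem_erase]
    constructor
    · rintro ⟨⟨w, ⟨h1, h2⟩, rfl⟩, h3⟩
      exact ⟨w, ⟨⟨h1, h2⟩, (D.g_lt_iff h2 h1 hv hne).1 h3⟩, rfl⟩
    · rintro ⟨w, ⟨⟨h1, h2⟩, h3⟩, rfl⟩
      exact ⟨⟨w, ⟨h1, h2⟩, rfl⟩, (D.g_lt_iff h2 h1 hv hne).2 h3⟩
  rw [e1, card_image_of_injOn]
  · unfold idx
    rw [h2]
    have e2 : ((D.comp t).erase t).filter (fun w => w < v) =
        ((D.comp t).filter (fun w => w < v)).erase t := by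
      ext x; simp only [mem_filter, mem_erase]; tauto
    rw [e2, Finset.card_erase_add_one]
    rw [mem_filter]
    exact ⟨D.top_mem hv, lt_of_le_of_ne (D.top_le hv) (Ne.symm hne)⟩
  · intro a ha b hb hab
    simp only [coe_filter, mem_erase, Set.mem_ofPred_eq] at ha hb
    exact D.g_inj ha.1.2 ha.1.1 hb.1.2 hb.1.1 hab

/-- Components with equal codes are isomorphic via their indices. -/
theorem code_eq {t t' : Fin n} (ht : t ∈ D.comp t) (ht' : t' ∈ D.comp t')
    (h : D.code t = D.code t') :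
    (D.comp t).card = (D.comp t').card ∧
    ∀ v ∈ D.comp t, ∀ v' ∈ D.comp t', D.idx v = D.idx v' →
      D.side v = D.side v' ∧ (v ≠ t → D.idx (D.par v) = D.idx (D.par v')) := by
  refine ⟨?_, ?_⟩
  · have h1 := D.card_code_fst ht
    have h2 := D.card_code_fst ht'
    rw [h] at h1
    omega
  · intro v hv v' hv' hvv
    refine ⟨?_, ?_⟩
    · have h1 := D.side_iff hv
      have h2 := D.side_iff hv'
      rw [h, hvv, ← h2] at h1
      cases hs : D.side v <;> cases hs' : D.side v' <;> simp_all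
    · intro hne
      have hne' : v' ≠ t' := by
        rintro rfl
        have e1 := D.idx_top ht'
        have e2 := D.idx_pos hv hne
        omega
      have r1 := D.g_rank hv hne
      have r2 := D.g_rank hv' hne'
      have m1 : D.g v ∈ (D.code t).1 := by
        simp only [code, mem_image, mem_erase]
        exact ⟨v, ⟨hne, hv⟩, rfl⟩
      have m2 : D.g v' ∈ (D.code t').1 := by
        simp only [code, mem_image, mem_erase]
        exact ⟨v', ⟨hne', hv'⟩, rfl⟩
      rw [h] at r1 m1
      have : D.g v = D.g v' := eq_of_rank m1 m2 (by omega)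
      unfold g at this
      omega

end Dec
end Alp
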