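import Pool.Agent.Work.MP_f04a5a_co.ClassPlace
import Pool.Agent.Work.MP_f04a5a_co.Types

/-! Placement data for one class of components. -/

namespace Alp
open Finset

namespace Dec

variable {n k : ℕ} (D : Dec n k)

/-- Tops of components with at least two vertices. -/
def IsTop (t : Fin n) : Prop := t ∈ D.comp t ∧ 2 ≤ (D.comp t).card

theorem both_sides {t : Fin n} (ht : D.IsTop t) :
    0 < ((D.comp t).filter (fun v => D.side v = true)).card ∧
    0 < ((D.comp t).filter (fun v => D.side v = false)).card := by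
  obtain ⟨h1, h2⟩ := ht
  obtain ⟨v, hv, hv1⟩ := D.idx_surj (t := t) (i := 1) (by omega)
  have hvt : v ≠ t := by
    rintro rfl
    rw [D.idx_top h1] at hv1
    omega
  have hp := D.par_mem hv hvt
  have hs := D.hside v (D.val_pos hv)
  rw [Finset.card_pos, Finset.card_pos]
  cases h : D.side (D.par v) with
  | true =>
    rw [h] at hs
    exact ⟨⟨D.par v, by rw [mem_filter]; exact ⟨hp, h⟩⟩, ⟨v, by rw [mem_filter]; exact ⟨hv, hs⟩⟩⟩
  | false =>
    rw [h] at hs
    exact ⟨⟨v, by rw [mem_filter]; exact ⟨hv, hs⟩⟩, ⟨D.par v, by rw [mem_filter]; exact ⟨hp, h⟩⟩⟩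

theorem class_data (hk : 0 < k) (κ : Finset ℕ × Finset ℕ) (N : ℕ) :
    ∃ (a b P : ℕ) (pos : ℕ → ℕ → ℕ), P ≤ N ∧ k * (N - P) ≤ N + k ^ 6 ∧
    a + b ≤ k ∧
    (∀ t, D.IsTop t → D.code t = κ →
       ((D.comp t).filter (fun v => D.side v = true)).card = a ∧
       ((D.comp t).filter (fun v => D.side v = false)).card = b) ∧
    (∀ t v, D.IsTop t → D.code t = κ → v ∈ D.comp t → ∀ r < P,
       (D.side v = true → pos r (D.idx v) < a * N) ∧
       (D.side v = false → pos r (D.idx v) < b * N)) ∧
    (∀ t v t' v', D.IsTop t → D.code t = κ → v ∈ D.comp t → D.IsTop t' → D.code t' = κ →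
       v' ∈ D.comp t' → ∀ r < P, ∀ r' < P,
       (D.side v = D.side v' → pos r (D.idx v) = pos r' (D.idx v') →
          r = r' ∧ D.idx v = D.idx v') ∧
       (v ≠ t → v' ≠ t' → pos r (D.idx v) + pos r (D.idx (D.par v)) =
          pos r' (D.idx v') + pos r' (D.idx (D.par v')) → r = r' ∧ D.idx v = D.idx v')) := by
  classical
  by_cases hex : ∃ t, D.IsTop t ∧ D.code t = κ
  · obtain ⟨t₀, ht₀, hc₀⟩ := hex
    set R := (D.comp t₀).card with hR
    have hRk : R < k := D.card_comp_lt t₀
    have hsurj : ∀ i : ℕ, ∃ v : Fin n, i < R → (v ∈ D.comp t₀ ∧ D.idx v = i) := by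
      intro i
      by_cases hi : i < R
      · obtain ⟨v, h1, h2⟩ := D.idx_surj (t := t₀) hi
        exact ⟨v, fun _ => ⟨h1, h2⟩⟩
      · exact ⟨t₀, fun h => absurd h hi⟩
    choose w hw using hsurj
    let pp : ℕ → ℕ := fun i => D.idx (D.par (w i))
    let sd : ℕ → Bool := fun i => D.side (w i)
    -- matching
    have hmatch : ∀ t v, D.IsTop t → D.code t = κ → v ∈ D.comp t →
        D.idx v < R ∧ sd (D.idx v) = D.side v ∧
        (v ≠ t → 0 < D.idx v ∧ pp (D.idx v) = D.idx (D.par v)) := by
      intro t v ht hc hv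
      obtain ⟨e1, e2⟩ := D.code_eq ht.1 ht₀.1 (by rw [hc, hc₀])
      have h1 : D.idx v < R := by
        have := D.idx_lt_card hv
        rw [e1] at this; exact this
      obtain ⟨a1, a2⟩ := hw (D.idx v) h1
      obtain ⟨b1, b2⟩ := e2 v hv (w (D.idx v)) a1 a2.symm
      exact ⟨h1, b1.symm, fun hne => ⟨D.idx_pos hv hne, (b2 hne).symm⟩⟩
    have hcount : ∀ t, D.IsTop t → D.code t = κ → ∀ bb : Bool,
        ((D.comp t).filter (fun v => D.side v = bb)).card =
          ((range R).filter (fun i => sd i = bb)).card := by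
      intro t ht hc bb
      obtain ⟨e1, e2⟩ := D.code_eq ht.1 ht₀.1 (by rw [hc, hc₀])
      apply Finset.card_bij (fun v _ => D.idx v)
      · intro v hv
        rw [mem_filter] at hv
        obtain ⟨m1, m2, m3⟩ := hmatch t v ht hc hv.1
        rw [mem_filter, mem_range]
        exact ⟨m1, by rw [m2]; exact hv.2⟩
      · intro v hv v' hv' h
        rw [mem_filter] at hv hv'
        exact D.idx_inj hv.1 hv'.1 h
      · intro i hi
        rw [mem_filter, mem_range] at hi
        obtain ⟨v, hv, hvi⟩ := D.idx_surj (t := t) (i := i) (by rw [e1]; exact hi.1)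
        refine ⟨v, ?_, hvi⟩
        rw [mem_filter]
        refine ⟨hv, ?_⟩
        rw [← (hmatch t v ht hc hv).2.1, hvi]; exact hi.2
    have hne : ∀ i, 0 < i → i < R → w i ≠ t₀ := by
      intro i h0 hi h
      obtain ⟨a1, a2⟩ := hw i hi
      rw [h, D.idx_top ht₀.1] at a2
      omega
    have hpos := D.both_sides ht₀
    rw [hcount t₀ ht₀ hc₀ true, hcount t₀ ht₀ hc₀ false] at hpos
    set a := ((range R).filter (fun i => sd i = true)).card with ha
    set b := ((range R).filter (fun i => sd i = false)).card with hb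
    have hab : a + b = R := by
      have h1 := Finset.card_filter_add_card_filter_not (s := range R) (fun i => sd i = true)
      have h2 : ((range R).filter (fun i => ¬ sd i = true)) =
          ((range R).filter (fun i => sd i = false)) := by
        apply Finset.filter_congr
        intro x _
        simp
      rw [h2, card_range] at h1
      exact h1
    obtain ⟨P, pos, q1, q2, q3, q4, q5, q6⟩ := class_place R pp sd
      (by
        intro i h0 hi
        obtain ⟨a1, a2⟩ := hw i hi
        have := D.idx_par_lt a1 (hne i h0 hi)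
        rw [a2] at this
        exact this)
      (by
        intro i h0 hi
        obtain ⟨a1, a2⟩ := hw i hi
        have m1 := D.par_mem a1 (hne i h0 hi)
        have m2 := (hmatch t₀ _ ht₀ hc₀ m1).2.1
        have m3 := D.hside _ (D.val_pos a1)
        change D.side (w i) = !(sd (D.idx (D.par (w i))))
        rw [m2]; exact m3)
      a b hpos.1 hpos.2 rfl rfl k N hk
    refine ⟨a, b, P, pos, q1, ?_, by omega, ?_, ?_, ?_⟩
    · refine le_trans q2 ?_
      have e1 : a * k + 1 ≤ k * k := by
        have : a + 1 ≤ k := by omega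
        calc a * k + 1 ≤ a * k + k := by omega
          _ = (a + 1) * k := by ring
          _ ≤ k * k := Nat.mul_le_mul_right _ this
      have e2 : a * k * R + 1 ≤ k * k * k := by
        calc a * k * R + 1 ≤ (k * k) * R + k * k := by
              have : a * k * R ≤ (k * k) * R := Nat.mul_le_mul_right _ (by omega)
              have : 0 < k * k := Nat.mul_pos hk hk
              omega
          _ = (k * k) * (R + 1) := by ring
          _ ≤ k * k * k := Nat.mul_le_mul_left _ (by omega)
      have e3 : k * ((a * k + 1) * (a * k * R + 1)) ≤ k * ((k * k) * (k * k * k)) :=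
        Nat.mul_le_mul_left _ (Nat.mul_le_mul e1 e2)
      have e4 : k * ((k * k) * (k * k * k)) = k ^ 6 := by ring
      omega
    · intro t ht hc
      exact ⟨hcount t ht hc true, hcount t ht hc false⟩
    · intro t v ht hc hv r hr
      obtain ⟨m1, m2, m3⟩ := hmatch t v ht hc hv
      refine ⟨fun h => q3 r hr _ m1 (by rw [m2]; exact h), fun h => q4 r hr _ m1 (by rw [m2]; exact h)⟩
    · intro t v t' v' ht hc hv ht' hc' hv' r hr r' hr'
      obtain ⟨m1, m2, m3⟩ := hmatch t v ht hc hv
      obtain ⟨m1', m2', m3'⟩ := hmatch t' v' ht' hc' hv'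
      refine ⟨fun h1 h2 => q5 r hr _ m1 r' hr' _ m1' (by rw [m2, m2']; exact h1) h2, ?_⟩
      intro n1 n2 h
      obtain ⟨z1, z2⟩ := m3 n1
      obtain ⟨z1', z2'⟩ := m3' n2
      rw [← z2, ← z2'] at h
      exact q6 r hr _ m1 z1 r' hr' _ m1' z1' h
  · refine ⟨0, 0, N, fun _ _ => 0, le_refl _, by simp, by omega, ?_, ?_, ?_⟩
    · intro t ht hc; exact absurd ⟨t, ht, hc⟩ hex
    · intro t v ht hc; exact absurd ⟨t, ht, hc⟩ hex
    · intro t v t' v' ht hc; exact absurd ⟨t, ht, hc⟩ hex

end Dec
end Alp
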