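import Pool.Agent.Work.MP_f04a5a_co.Pack

/-! Placement of all but few copies of one small bipartite tree shape. -/

namespace Alp
open Finset

theorem class_place (R : ℕ) (pp : ℕ → ℕ) (sd : ℕ → Bool)
    (hpp : ∀ i, 0 < i → i < R → pp i < i)
    (hsd : ∀ i, 0 < i → i < R → sd i = !sd (pp i))
    (a b : ℕ) (ha : 0 < a) (hb : 0 < b)
    (hA : ((range R).filter (fun i => sd i = true)).card = a)
    (hB : ((range R).filter (fun i => sd i = false)).card = b)
    (K N : ℕ) (hK : 0 < K) :
    ∃ (P : ℕ) (pos : ℕ → ℕ → ℕ), P ≤ N ∧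
      K * (N - P) ≤ N + K * ((a * K + 1) * (a * K * R + 1)) ∧
      (∀ r < P, ∀ i < R, sd i = true → pos r i < a * N) ∧
      (∀ r < P, ∀ i < R, sd i = false → pos r i < b * N) ∧
      (∀ r < P, ∀ i < R, ∀ r' < P, ∀ i' < R, sd i = sd i' → pos r i = pos r' i' →
        r = r' ∧ i = i') ∧
      (∀ r < P, ∀ i < R, 0 < i → ∀ r' < P, ∀ i' < R, 0 < i' →
        pos r i + pos r (pp i) = pos r' i' + pos r' (pp i') → r = r' ∧ i = i') := by
  classical
  have hab : a + b = R := by
    have h1 := Finset.card_filter_add_card_filter_not (s := range R) (fun i => sd i = true)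
    have h2 : ((range R).filter (fun i => ¬ sd i = true)) = ((range R).filter (fun i => sd i = false)) := by
      apply Finset.filter_congr
      intro x _
      simp
    rw [h2, hA, hB, card_range] at h1
    exact h1
  set M := a * K with hM
  have hMpos : 0 < M := Nat.mul_pos ha hK
  set s := a * M with hs
  set t := b * M + 1 with ht
  set Q := s + t with hQ
  have hspos : 0 < s := Nat.mul_pos ha hMpos
  have htpos : 0 < t := by omega
  have hcop : Nat.Coprime s t := by
    have h1 : Nat.Coprime a t := by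
      rw [ht, hM]
      have : b * (a * K) + 1 = a * (b * K) + 1 := by ring
      rw [this]
      simp
    have h2 : Nat.Coprime K t := by
      rw [ht, hM]
      have : b * (a * K) + 1 = K * (b * a) + 1 := by ring
      rw [this]
      simp
    rw [hs, hM]
    exact Nat.Coprime.mul_left h1 (Nat.Coprime.mul_left h1 h2)
  have hQe : Q = M * R + 1 := by rw [hQ, hs, ht, ← hab]; ring
  let side : Fin M × Fin R → Bool := fun u => sd u.2.val
  let par : Fin M × Fin R → Option (Fin M × Fin R) := fun u =>
    if h : 0 < u.2.val then some (u.1, ⟨pp u.2.val, lt_trans (hpp _ h u.2.isLt) u.2.isLt⟩) else none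
  have hparspec : ∀ u v, par u = some v → 0 < u.2.val ∧ v.1 = u.1 ∧ v.2.val = pp u.2.val := by
    intro u v h
    simp only [par] at h
    split_ifs at h with h0
    simp only [Option.some.injEq] at h
    rw [← h]
    exact ⟨h0, rfl, rfl⟩
  have hcardside : ∀ (bb : Bool) (z : ℕ), Nat.card {u : Fin M × Fin R // side u = bb ∧ (0 : ℕ) = z} ≤
      M * ((range R).filter (fun i => sd i = bb)).card := by
    intro bb z
    have e1 : ((range R).filter (fun i => sd i = bb)).card = Nat.card {i : Fin R // sd i.val = bb} := by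
      rw [Nat.card_eq_fintype_card, Fintype.card_subtype]
      symm
      apply Finset.card_bij (fun i _ => i.val)
      · intro i hi
        rw [mem_filter] at hi
        rw [mem_filter, mem_range]
        exact ⟨i.isLt, hi.2⟩
      · intro i _ j _ hij
        exact Fin.ext hij
      · intro i hi
        rw [mem_filter, mem_range] at hi
        exact ⟨⟨i, hi.1⟩, by rw [mem_filter]; exact ⟨mem_univ _, hi.2⟩, rfl⟩
    rw [e1]
    have e2 : M * Nat.card {i : Fin R // sd i.val = bb} = Nat.card (Fin M × {i : Fin R // sd i.val = bb}) := by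
      rw [Nat.card_prod]; simp
    rw [e2]
    apply Nat.card_le_card_of_injective
      (fun x : {u : Fin M × Fin R // side u = bb ∧ (0 : ℕ) = z} =>
        ((x.1.1, ⟨x.1.2, x.2.1⟩) : Fin M × {i : Fin R // sd i.val = bb}))
    intro x y hxy
    simp only [Prod.mk.injEq, Subtype.mk.injEq] at hxy
    exact Subtype.ext (Prod.ext hxy.1 hxy.2)
  obtain ⟨pos, p1, p2, p3, p4, p5, p6⟩ := packing 1 s t (by norm_num) hspos htpos hcop side
    (fun _ => 0) (fun _ => by norm_num) par (fun u => u.2.val)
    (by
      intro u v h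
      obtain ⟨h1, h2, h3⟩ := hparspec u v h
      rw [h3]; exact hpp _ h1 u.2.isLt)
    (by
      intro u v h
      obtain ⟨h1, h2, h3⟩ := hparspec u v h
      simp only [side]
      rw [h3]
      have := hsd _ h1 u.2.isLt
      rw [this]; simp)
    (by
      intro z
      refine le_trans (hcardside true z) ?_
      rw [hA, hs, mul_comm])
    (by
      intro z
      refine le_trans (hcardside false z) ?_
      rw [hB, ht, mul_comm]; omega)
    (by
      intro z
      have : Nat.card {u : Fin M × Fin R // ∃ v, par u = some v ∧ ((fun _ => 0 : Fin M × Fin R → ℕ) u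
          + (fun _ => 0 : Fin M × Fin R → ℕ) v) % 1 = z} ≤ Nat.card (Fin M × Fin R) :=
        Nat.card_le_card_of_injective _ Subtype.val_injective
      refine le_trans this ?_
      rw [Nat.card_prod]
      simp only [Nat.card_eq_fintype_card, Fintype.card_fin]
      omega)
  simp only [one_mul] at p2 p3 p4 p5
  -- number of blocks
  obtain ⟨D, hDN, hND⟩ : ∃ D, (M + 1) * D ≤ N ∧ N < (M + 1) * D + (M + 1) := by
    refine ⟨N / (M + 1), Nat.mul_div_le N (M + 1), ?_⟩
    have := Nat.lt_mul_div_succ N (Nat.succ_pos M)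
    simp only [Nat.succ_eq_add_one] at this
    rw [mul_add, mul_one] at this
    exact this
  obtain ⟨W, hW⟩ : ∃ W, W = D + 1 - Q := ⟨_, rfl⟩
  have hWD : M * W ≤ N := by
    have : W ≤ D := by omega
    calc M * W ≤ (M + 1) * D := Nat.mul_le_mul (by omega) this
      _ ≤ N := hDN
  have hbd : ∀ r < M * W, r / M + Q ≤ D := by
    intro r hr
    have : r / M < W := Nat.div_lt_of_lt_mul hr
    generalize r / M = x at this ⊢
    omega
  have hmod : ∀ r, r % M < M := fun r => Nat.mod_lt _ hMpos
  refine ⟨M * W, fun r i => if h : i < R then pos (⟨r % M, hmod r⟩, ⟨i, h⟩) (r / M) else 0,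
    hWD, ?_, ?_, ?_, ?_, ?_⟩
  · -- count
    have h1 : N - M * W ≤ D + (M + 1) * Q := by
      by_cases hc : Q ≤ D + 1
      · have e1 : M * W + M * Q = M * D + M := by
          rw [← mul_add, hW]
          have : D + 1 - Q + Q = D + 1 := by omega
          rw [this]; ring
        have e2 : (M + 1) * D = M * D + D := by ring
        have e3 : (M + 1) * Q = M * Q + Q := by ring
        omega
      · have e1 : W = 0 := by omega
        rw [e1]
        have e2 : (M + 1) * (D + 1) ≤ (M + 1) * Q := Nat.mul_le_mul_left _ (by omega)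
        have e3 : (M + 1) * (D + 1) = (M + 1) * D + (M + 1) := by ring
        omega
    have hKM : K ≤ M + 1 := by
      rw [hM]
      calc K = 1 * K := (one_mul K).symm
        _ ≤ a * K := Nat.mul_le_mul_right _ ha
        _ ≤ a * K + 1 := by omega
    calc K * (N - M * W) ≤ K * (D + (M + 1) * Q) := Nat.mul_le_mul_left _ h1
      _ = K * D + K * ((M + 1) * Q) := by ring
      _ ≤ N + K * ((M + 1) * Q) := by
          have : K * D ≤ (M + 1) * D := Nat.mul_le_mul_right _ hKM
          omega
      _ = _ := by rw [hQe]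
  · intro r hr i hi hsi
    dsimp only
    rw [dif_pos hi]
    have h1 := (p2 (⟨r % M, hmod r⟩, ⟨i, hi⟩) (r / M) hsi).2
    have h2 := hbd r hr
    calc _ < s * (r / M + s + t) := h1
      _ ≤ s * D := Nat.mul_le_mul_left _ (by rw [add_assoc]; exact h2)
      _ = a * (M * D) := by rw [hs]; ring
      _ ≤ a * N := Nat.mul_le_mul_left _ (le_trans (Nat.mul_le_mul_right _ (by omega)) hDN)
  · intro r hr i hi hsi
    dsimp only
    rw [dif_pos hi]
    have h1 := (p3 (⟨r % M, hmod r⟩, ⟨i, hi⟩) (r / M) hsi).2
    have h2 := hbd r hr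
    calc _ < t * (r / M + s + t) := h1
      _ ≤ t * D := Nat.mul_le_mul_left _ (by rw [add_assoc]; exact h2)
      _ ≤ b * (M + 1) * D := Nat.mul_le_mul_right _ (by rw [ht, mul_add, mul_one]; omega)
      _ = b * ((M + 1) * D) := by ring
      _ ≤ b * N := Nat.mul_le_mul_left _ hDN
  · intro r hr i hi r' hr' i' hi' hsi h
    dsimp only at h
    rw [dif_pos hi, dif_pos hi'] at h
    have key : ∀ (u u' : Fin M × Fin R) (w w' : ℕ), side u = side u' → pos u w = pos u' w' →
        u = u' ∧ w = w' := by
      intro u u' w w' h1 h2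
      cases hb : side u with
      | true =>
        have := p4 u u' w w' 0 0 hb (by rw [← h1]; exact hb) (by simpa using h2)
        simpa using this
      | false =>
        have := p5 u u' w w' 0 0 hb (by rw [← h1]; exact hb) (by simpa using h2)
        simpa using this
    obtain ⟨h1, h2⟩ := key _ _ _ _ hsi h
    simp only [Prod.mk.injEq, Fin.mk.injEq] at h1
    refine ⟨?_, h1.2⟩
    rw [← Nat.mod_add_div r M, ← Nat.mod_add_div r' M, h1.1, h2]
  · intro r hr i hi hi0 r' hr' i' hi' hi0' h
    have hpi := hpp i hi0 hi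
    have hpi' := hpp i' hi0' hi'
    dsimp only at h
    rw [dif_pos hi, dif_pos hi', dif_pos (lt_trans hpi hi), dif_pos (lt_trans hpi' hi')] at h
    have q1 : par (⟨r % M, hmod r⟩, ⟨i, hi⟩) = some (⟨r % M, hmod r⟩, ⟨pp i, lt_trans hpi hi⟩) := by
      simp only [par]; rw [dif_pos hi0]
    have q2 : par (⟨r' % M, hmod r'⟩, ⟨i', hi'⟩) =
        some (⟨r' % M, hmod r'⟩, ⟨pp i', lt_trans hpi' hi'⟩) := by
      simp only [par]; rw [dif_pos hi0']
    obtain ⟨h1, h2⟩ := p6 _ _ _ _ _ _ q1 q2 h
    simp only [Prod.mk.injEq, Fin.mk.injEq] at h1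
    refine ⟨?_, h1.2⟩
    rw [← Nat.mod_add_div r M, ← Nat.mod_add_div r' M, h1.1, h2]

end Alp
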