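import Pool.Agent.Work.MP_f04a5a_co.PlaceB
import Pool.Agent.Work.MP_f04a5a_co.ClassData

/-! Placement data for one class of components with marked boundary vertices. -/

namespace Alp
open Finset

theorem wt_pos (h : ℕ) (hh : 0 < h) (b : Bool) : 0 < wt h b := by
  unfold wt; split_ifs <;> omega

theorem wt_le (h : ℕ) (hh : 0 < h) (b : Bool) : wt h b ≤ 2 * h := by
  unfold wt; split_ifs <;> omega

namespace Dec

variable {n k : ℕ} (D : Dec n k)

/-- Boundary vertices: adjacent to a deleted vertex. -/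
def bdry (v : Fin n) : Bool :=
  decide (D.par v ∈ D.E ∨ ∃ c : Fin n, 0 < c.val ∧ D.par c = v ∧ c ∈ D.E)

/-- The code of a component with its boundary vertices. -/
def codeB (t : Fin n) : (Finset ℕ × Finset ℕ) × Finset ℕ :=
  (D.code t, ((D.comp t).filter (fun v => D.bdry v = true)).image D.idx)

theorem codeB_mem (t : Fin n) :
    D.codeB t ∈ ((range (2 * k)).powerset ×ˢ (range k).powerset) ×ˢ (range k).powerset := by
  rw [mem_product]
  refine ⟨D.code_mem t, ?_⟩
  rw [mem_powerset]
  intro x hx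
  simp only [codeB, mem_image, mem_filter] at hx
  obtain ⟨v, ⟨h1, h2⟩, rfl⟩ := hx
  have a1 := D.idx_lt_card h1
  have a3 := D.card_comp_lt t
  rw [mem_range]
  omega

theorem exists_numberingB : ∃ (c : Fin n → ℕ) (κ : ℕ → (Finset ℕ × Finset ℕ) × Finset ℕ),
    (∀ t, c t < 16 ^ k) ∧ ∀ t, D.codeB t = κ (c t) := by
  classical
  set S := ((range (2 * k)).powerset ×ˢ (range k).powerset) ×ˢ (range k).powerset with hS
  have hcard : S.card = 16 ^ k := by
    rw [hS, card_product, card_product, card_powerset, card_powerset, card_range, card_range,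
      pow_mul, ← mul_pow, ← mul_pow]
    norm_num
  let e := S.equivFin
  refine ⟨fun t => (e ⟨D.codeB t, D.codeB_mem t⟩).val,
    fun i => if h : i < S.card then (e.symm ⟨i, h⟩).val else ((∅, ∅), ∅), ?_, ?_⟩
  · intro t; dsimp only; rw [← hcard]; exact (e _).isLt
  · intro t
    dsimp only
    rw [dif_pos (e _).isLt]
    simp

theorem bdry_iff {t v : Fin n} (hv : v ∈ D.comp t) :
    D.bdry v = true ↔ D.idx v ∈ (D.codeB t).2 := by
  simp only [codeB, mem_image, mem_filter]
  constructor
  · intro h; exact ⟨v, ⟨hv, h⟩, rfl⟩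
  · rintro ⟨w, ⟨h1, h2⟩, h3⟩
    rw [← D.idx_inj h1 hv h3]; exact h2

theorem codeB_bdry {t t' : Fin n} (h : D.codeB t = D.codeB t') {v v' : Fin n}
    (hv : v ∈ D.comp t) (hv' : v' ∈ D.comp t') (hvv : D.idx v = D.idx v') :
    D.bdry v = D.bdry v' := by
  have h1 := D.bdry_iff hv
  have h2 := D.bdry_iff hv'
  rw [h, hvv, ← h2] at h1
  cases hs : D.bdry v <;> cases hs' : D.bdry v' <;> simp_all

theorem class_dataB (hk : 0 < k) (h : ℕ) (hh : 0 < h) (κ : (Finset ℕ × Finset ℕ) × Finset ℕ)
    (N : ℕ) :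
    ∃ (A B m P : ℕ) (pos : ℕ → ℕ → ℕ), P ≤ N ∧
    k * (N - P) ≤ N + 2 * (2 * h * k) ^ 4 * k ^ 2 ∧ m ≤ k ∧
    (∀ t, D.IsTop t → D.codeB t = κ → (D.comp t).card = m ∧
       ∑ v ∈ (D.comp t).filter (fun v => D.side v = true), wt h (D.bdry v) = A ∧
       ∑ v ∈ (D.comp t).filter (fun v => D.side v = false), wt h (D.bdry v) = B) ∧
    (∀ t v, D.IsTop t → D.codeB t = κ → v ∈ D.comp t → ∀ r < P,
       (D.side v = true → pos r (D.idx v) < (2 * h + 1) * (A * (N / (2 * h)))) ∧
       (D.side v = false → pos r (D.idx v) < (2 * h + 1) * (B * (N / (2 * h)))) ∧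
       (pos r (D.idx v) % (2 * h + 1) = 0 ↔ D.bdry v = true) ∧
       (v ≠ t → (pos r (D.idx v) + pos r (D.idx (D.par v))) % (2 * h + 1) = 0 →
          D.bdry v = true)) ∧
    (∀ t v t' v', D.IsTop t → D.codeB t = κ → v ∈ D.comp t → D.IsTop t' → D.codeB t' = κ →
       v' ∈ D.comp t' → ∀ r < P, ∀ r' < P,
       (D.side v = D.side v' → pos r (D.idx v) = pos r' (D.idx v') →
          r = r' ∧ D.idx v = D.idx v') ∧
       (v ≠ t → v' ≠ t' → pos r (D.idx v) + pos r (D.idx (D.par v)) =
          pos r' (D.idx v') + pos r' (D.idx (D.par v')) → r = r' ∧ D.idx v = D.idx v')) := by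
  classical
  by_cases hex : ∃ t, D.IsTop t ∧ D.codeB t = κ
  · obtain ⟨t₀, ht₀, hc₀⟩ := hex
    set R := (D.comp t₀).card with hR
    have hRk : R < k := D.card_comp_lt t₀
    have hsurj : ∀ i : ℕ, ∃ v : Fin n, i < R → (v ∈ D.comp t₀ ∧ D.idx v = i) := by
      intro i
      by_cases hi : i < R
      · obtain ⟨v, h1, h2⟩ := D.idx_surj (t := t₀) hi
        exact ⟨v, fun _ => ⟨h1, h2⟩⟩
      · exact ⟨t₀, fun h => absurd h hi⟩
    choose w hw using hsurj
    let pp : ℕ → ℕ := fun i => D.idx (D.par (w i))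
    let sd : ℕ → Bool := fun i => D.side (w i)
    let bd : ℕ → Bool := fun i => D.bdry (w i)
    -- matching
    have hmatch : ∀ t v, D.IsTop t → D.codeB t = κ → v ∈ D.comp t →
        D.idx v < R ∧ sd (D.idx v) = D.side v ∧ bd (D.idx v) = D.bdry v ∧
        (v ≠ t → 0 < D.idx v ∧ pp (D.idx v) = D.idx (D.par v)) := by
      intro t v ht hc hv
      have hcc : D.codeB t = D.codeB t₀ := by rw [hc, hc₀]
      obtain ⟨e1, e2⟩ := D.code_eq ht.1 ht₀.1 (congrArg Prod.fst hcc)
      have h1 : D.idx v < R := by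
        have := D.idx_lt_card hv
        rw [e1] at this; exact this
      obtain ⟨a1, a2⟩ := hw (D.idx v) h1
      obtain ⟨b1, b2⟩ := e2 v hv (w (D.idx v)) a1 a2.symm
      exact ⟨h1, b1.symm, (D.codeB_bdry hcc hv a1 a2.symm).symm,
        fun hne => ⟨D.idx_pos hv hne, (b2 hne).symm⟩⟩
    have hsize : ∀ t, D.IsTop t → D.codeB t = κ → (D.comp t).card = R := by
      intro t ht hc
      exact (D.code_eq ht.1 ht₀.1 (congrArg Prod.fst (show D.codeB t = D.codeB t₀ by
        rw [hc, hc₀]))).1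
    have hcount : ∀ t, D.IsTop t → D.codeB t = κ → ∀ bb : Bool,
        ∑ v ∈ (D.comp t).filter (fun v => D.side v = bb), wt h (D.bdry v) =
          ∑ i ∈ (range R).filter (fun i => sd i = bb), wt h (bd i) := by
      intro t ht hc bb
      apply Finset.sum_bij (fun v _ => D.idx v)
      · intro v hv
        rw [mem_filter] at hv
        obtain ⟨m1, m2, m3, m4⟩ := hmatch t v ht hc hv.1
        rw [mem_filter, mem_range]
        exact ⟨m1, by rw [m2]; exact hv.2⟩
      · intro v hv v' hv' h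
        rw [mem_filter] at hv hv'
        exact D.idx_inj hv.1 hv'.1 h
      · intro i hi
        rw [mem_filter, mem_range] at hi
        obtain ⟨v, hv, hvi⟩ := D.idx_surj (t := t) (i := i) (by rw [hsize t ht hc]; exact hi.1)
        refine ⟨v, ?_, hvi⟩
        rw [mem_filter]
        refine ⟨hv, ?_⟩
        rw [← (hmatch t v ht hc hv).2.1, hvi]; exact hi.2
      · intro v hv
        rw [mem_filter] at hv
        rw [(hmatch t v ht hc hv.1).2.2.1]
    have hne : ∀ i, 0 < i → i < R → w i ≠ t₀ := by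
      intro i h0 hi h
      obtain ⟨a1, a2⟩ := hw i hi
      rw [h, D.idx_top ht₀.1] at a2
      omega
    have hpos : 0 < ∑ i ∈ (range R).filter (fun i => sd i = true), wt h (bd i) ∧
        0 < ∑ i ∈ (range R).filter (fun i => sd i = false), wt h (bd i) := by
      have hb := D.both_sides ht₀
      rw [Finset.card_pos, Finset.card_pos] at hb
      rw [← hcount t₀ ht₀ hc₀ true, ← hcount t₀ ht₀ hc₀ false]
      exact ⟨Finset.sum_pos (fun _ _ => wt_pos h hh _) hb.1,
        Finset.sum_pos (fun _ _ => wt_pos h hh _) hb.2⟩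
    obtain ⟨A, hA⟩ : ∃ A, ∑ i ∈ (range R).filter (fun i => sd i = true), wt h (bd i) = A :=
      ⟨_, rfl⟩
    obtain ⟨B, hB⟩ : ∃ B, ∑ i ∈ (range R).filter (fun i => sd i = false), wt h (bd i) = B :=
      ⟨_, rfl⟩
    rw [hA, hB] at hpos
    have hAB : A + B ≤ 2 * h * R := by
      have h2 : ((range R).filter (fun i => ¬ sd i = true)) =
          ((range R).filter (fun i => sd i = false)) := by
        apply Finset.filter_congr
        intro x _
        simp
      rw [← hA, ← hB, ← h2, Finset.sum_filter_add_sum_filter_not]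
      calc ∑ i ∈ range R, wt h (bd i) ≤ ∑ _i ∈ range R, 2 * h :=
            Finset.sum_le_sum (fun _ _ => wt_le h hh _)
        _ = 2 * h * R := by rw [Finset.sum_const, card_range, smul_eq_mul, mul_comm]
    obtain ⟨P, pos, q1, q2, q3, q4, q5, q6, q7, q8⟩ := class_placeB R pp sd bd
      (by
        intro i h0 hi
        obtain ⟨a1, a2⟩ := hw i hi
        have := D.idx_par_lt a1 (hne i h0 hi)
        rw [a2] at this
        exact this)
      (by
        intro i h0 hi
        obtain ⟨a1, a2⟩ := hw i hi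
        have m1 := D.par_mem a1 (hne i h0 hi)
        have m2 := (hmatch t₀ _ ht₀ hc₀ m1).2.1
        have m3 := D.hside _ (D.val_pos a1)
        change D.side (w i) = !(sd (D.idx (D.par (w i))))
        rw [m2]; exact m3)
      h hh A B hpos.1 hpos.2 hA hB k N hk
    refine ⟨A, B, R, P, pos, q1, ?_, hRk.le, ?_, ?_, ?_⟩
    · refine le_trans q2 (Nat.add_le_add_left ?_ _)
      obtain ⟨S, hS⟩ : ∃ S, S = 2 * h * k := ⟨_, rfl⟩
      have hS1 : A + B + 1 ≤ S := by
        rw [hS]
        calc A + B + 1 ≤ 2 * h * R + 2 * h := by omega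
          _ = 2 * h * (R + 1) := by ring
          _ ≤ 2 * h * k := Nat.mul_le_mul_left _ hRk
      rw [← hS]
      have e1 : A * k + 1 ≤ S * k := by
        calc A * k + 1 ≤ A * k + k := by omega
          _ = (A + 1) * k := by ring
          _ ≤ S * k := Nat.mul_le_mul_right _ (by omega)
      have e2 : A * k * (A + B) + 1 ≤ S * k * S := by
        have h1 : A * k ≤ S * k := Nat.mul_le_mul_right _ (by omega)
        have h2 : 0 < S * k := Nat.mul_pos (by omega) hk
        calc A * k * (A + B) + 1 ≤ S * k * (A + B) + S * k :=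
              Nat.add_le_add (Nat.mul_le_mul_right _ h1) h2
          _ = S * k * (A + B + 1) := by ring
          _ ≤ S * k * S := Nat.mul_le_mul_left _ hS1
      have e3 : (A * k + 1) * (A * k * (A + B) + 1) + 1 ≤ 2 * (S * k * (S * k * S)) := by
        have h1 := Nat.mul_le_mul e1 e2
        have h2 : 0 < S * k * (S * k * S) := by
          have : 0 < S := by omega
          positivity
        omega
      calc S * ((A * k + 1) * (A * k * (A + B) + 1) + 1)
          ≤ S * (2 * (S * k * (S * k * S))) := Nat.mul_le_mul_left _ e3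
        _ = 2 * S ^ 4 * k ^ 2 := by ring
    · intro t ht hc
      refine ⟨hsize t ht hc, ?_, ?_⟩
      · rw [hcount t ht hc true, hA]
      · rw [hcount t ht hc false, hB]
    · intro t v ht hc hv r hr
      obtain ⟨m1, m2, m3, m4⟩ := hmatch t v ht hc hv
      refine ⟨fun hs => q3 r hr _ m1 (by rw [m2]; exact hs),
        fun hs => q4 r hr _ m1 (by rw [m2]; exact hs), ?_, ?_⟩
      · rw [← m3]; exact q7 r hr _ m1
      · intro hne' hz
        obtain ⟨z1, z2⟩ := m4 hne'
        rw [← z2] at hz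
        rw [← m3]
        exact (q8 r hr _ m1 z1 hz).1
    · intro t v t' v' ht hc hv ht' hc' hv' r hr r' hr'
      obtain ⟨m1, m2, m3, m4⟩ := hmatch t v ht hc hv
      obtain ⟨m1', m2', m3', m4'⟩ := hmatch t' v' ht' hc' hv'
      refine ⟨fun h1 h2 => q5 r hr _ m1 r' hr' _ m1' (by rw [m2, m2']; exact h1) h2, ?_⟩
      intro n1 n2 hpos
      obtain ⟨z1, z2⟩ := m4 n1
      obtain ⟨z1', z2'⟩ := m4' n2
      rw [← z2, ← z2'] at hpos
      exact q6 r hr _ m1 z1 r' hr' _ m1' z1' hpos
  · refine ⟨0, 0, 0, N, fun _ _ => 0, le_refl _, by simp, Nat.zero_le _, ?_, ?_, ?_⟩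
    · intro t ht hc; exact absurd ⟨t, ht, hc⟩ hex
    · intro t v ht hc; exact absurd ⟨t, ht, hc⟩ hex
    · intro t v t' v' ht hc; exact absurd ⟨t, ht, hc⟩ hex

end Dec
end Alp
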