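import Mathlib

/-! Rooting a finite tree with a breadth first ordering. -/

namespace Alp
open Finset

theorem exists_order {V : Type*} [Fintype V] {α : Type*} [LinearOrder α] (key : V → α)
    (hinj : Function.Injective key) :
    ∃ φ : Fin (Fintype.card V) ≃ V, ∀ i j, i ≤ j ↔ key (φ i) ≤ key (φ j) := by
  let _ : LinearOrder V := LinearOrder.lift' key hinj
  let o := Fintype.orderIsoFinOfCardEq V rfl
  exact ⟨o.toEquiv, fun i j => o.le_iff_le.symm⟩

theorem exists_root {V : Type*} [Fintype V] (G : SimpleGraph V) (hG : G.IsTree) :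
    ∃ (r : V) (p : V → V), p r = r ∧
      (∀ v, v ≠ r → G.Adj v (p v) ∧ G.dist r v = G.dist r (p v) + 1) ∧
      (∀ u v, G.Adj u v → (u ≠ r ∧ p u = v) ∨ (v ≠ r ∧ p v = u)) := by
  classical
  have : Nonempty V := hG.connected.nonempty
  let r : V := Classical.arbitrary V
  have hp : ∀ v, ∃ w, (v = r → w = r) ∧ (v ≠ r → G.Adj v w ∧ G.dist r v = G.dist r w + 1) := by
    intro v
    by_cases hv : v = r
    · exact ⟨r, fun _ => rfl, fun h => absurd hv h⟩
    · obtain ⟨q, hq⟩ := hG.connected.exists_walk_length_eq_dist v r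
      cases q with
      | nil => exact absurd rfl hv
      | @cons _ w _ hadj q' =>
        refine ⟨w, fun h => absurd h hv, fun _ => ⟨hadj, ?_⟩⟩
        rw [SimpleGraph.Walk.length_cons] at hq
        have h1 : G.dist w r ≤ q'.length := SimpleGraph.dist_le q'
        rcases hG.dist_eq_dist_add_one_of_adj r hadj with h | h
        · exact h
        · rw [SimpleGraph.dist_comm (u := r) (v := v), SimpleGraph.dist_comm (u := r) (v := w)] at h
          omega
  choose p hp1 hp2 using hp
  refine ⟨r, p, hp1 r rfl, hp2, ?_⟩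
  -- the map v ↦ s(v, p v) is injective off the root and hits all edges
  have hinj : Set.InjOn (fun v => s(v, p v)) ((univ.erase r : Finset V) : Set V) := by
    intro v hv w hw h
    rw [mem_coe, mem_erase] at hv hw
    have h' : s(v, p v) = s(w, p w) := h
    rw [Sym2.eq_iff] at h'
    rcases h' with ⟨h1, _⟩ | ⟨h1, h2⟩
    · exact h1
    · have a := (hp2 v hv.1).2
      have b := (hp2 w hw.1).2
      rw [h2] at a
      rw [← h1] at b
      omega
  have himg : (univ.erase r : Finset V).image (fun v => s(v, p v)) = G.edgeFinset := by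
    apply Finset.eq_of_subset_of_card_le
    · intro x hx
      rw [mem_image] at hx
      obtain ⟨v, hv, rfl⟩ := hx
      rw [mem_erase] at hv
      rw [SimpleGraph.mem_edgeFinset, SimpleGraph.mem_edgeSet]
      exact (hp2 v hv.1).1
    · rw [card_image_of_injOn hinj, card_erase_of_mem (mem_univ r), card_univ]
      have := hG.card_edgeFinset
      omega
  intro u v huv
  have hmem : s(u, v) ∈ G.edgeFinset := by
    rw [SimpleGraph.mem_edgeFinset, SimpleGraph.mem_edgeSet]; exact huv
  rw [← himg, mem_image] at hmem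
  obtain ⟨w, hw, h⟩ := hmem
  rw [mem_erase] at hw
  rw [Sym2.eq_iff] at h
  rcases h with ⟨h1, h2⟩ | ⟨h1, h2⟩
  · left; rw [← h1]; exact ⟨hw.1, h2⟩
  · right; rw [← h1]; exact ⟨hw.1, h2⟩

theorem exists_bfs {V : Type*} [Fintype V] (G : SimpleGraph V) (hG : G.IsTree) :
    ∃ (φ : Fin (Fintype.card V) ≃ V) (par : Fin (Fintype.card V) → Fin (Fintype.card V))
      (side : Fin (Fintype.card V) → Bool),
      (∀ v, 0 < v.val → (par v).val < v.val) ∧
      (∀ v w, v ≤ w → par v ≤ par w) ∧
      (∀ v, 0 < v.val → side v = !side (par v)) ∧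
      (∀ v, 0 < v.val → G.Adj (φ v) (φ (par v))) ∧
      (∀ x y, G.Adj x y → (0 < (φ.symm x).val ∧ φ (par (φ.symm x)) = y) ∨
        (0 < (φ.symm y).val ∧ φ (par (φ.symm y)) = x)) := by
  classical
  obtain ⟨r, p, hr, hp, hadj⟩ := exists_root G hG
  set n := Fintype.card V with hn
  let ι : V ≃ Fin n := Fintype.equivFin V
  let F : ℕ → V → ℕ := fun d => Nat.rec (fun _ => 0) (fun _ f v => n * f (p v) + (ι v).val) d
  have hF0 : ∀ v, F 0 v = 0 := fun v => rfl
  have hFs : ∀ d v, F (d + 1) v = n * F d (p v) + (ι v).val := fun d v => rfl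
  let N : V → ℕ := fun v => F (G.dist r v) v
  have hNr : N r = 0 := by simp only [N, SimpleGraph.dist_self]; exact hF0 r
  have hN : ∀ v, v ≠ r → N v = n * N (p v) + (ι v).val := by
    intro v hv
    simp only [N]
    rw [(hp v hv).2, hFs]
  let key : V → ℕ ×ₗ ℕ := fun v => toLex (G.dist r v, N v)
  have hd0 : ∀ v, G.dist r v = 0 → v = r := by
    intro v hv
    exact ((hG.connected.dist_eq_zero_iff).1 hv).symm
  have hkle : ∀ v w, key v ≤ key w ↔
      (G.dist r v < G.dist r w ∨ (G.dist r v = G.dist r w ∧ N v ≤ N w)) := by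
    intro v w
    simp only [key]
    rw [Prod.Lex.toLex_le_toLex]
  have hkinj : Function.Injective key := by
    intro v w h
    have h1 : (G.dist r v, N v) = (G.dist r w, N w) := h
    rw [Prod.mk.injEq] at h1
    by_cases hv : v = r
    · have : G.dist r w = 0 := by rw [← h1.1, hv, SimpleGraph.dist_self]
      rw [hd0 w this, hv]
    · have hw : w ≠ r := by
        intro hw
        apply hv
        apply hd0
        rw [h1.1, hw, SimpleGraph.dist_self]
      have h2 := h1.2
      rw [hN v hv, hN w hw] at h2
      have h3 : (ι v).val = (ι w).val := by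
        have a1 := (ι v).isLt
        have a2 := (ι w).isLt
        have := congrArg (· % n) h2
        simp only [Nat.mul_add_mod] at this
        rwa [Nat.mod_eq_of_lt a1, Nat.mod_eq_of_lt a2] at this
      exact ι.injective (Fin.ext h3)
  have hmonoP : ∀ v w, key v ≤ key w → key (p v) ≤ key (p w) := by
    intro v w h
    rw [hkle] at h ⊢
    by_cases hv : v = r
    · rw [hv, hr, SimpleGraph.dist_self, hNr]
      rcases Nat.eq_zero_or_pos (G.dist r (p w)) with h1 | h1
      · exact Or.inr ⟨h1.symm, Nat.zero_le _⟩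
      · exact Or.inl h1
    · have hvd : 0 < G.dist r v := by
        rcases Nat.eq_zero_or_pos (G.dist r v) with h1 | h1
        · exact absurd (hd0 v h1) hv
        · exact h1
      have hw : w ≠ r := by
        intro hw
        rw [hw, SimpleGraph.dist_self] at h
        omega
      have e1 := (hp v hv).2
      have e2 := (hp w hw).2
      rcases h with h | ⟨h1, h2⟩
      · left; omega
      · right
        refine ⟨by omega, ?_⟩
        rw [hN v hv, hN w hw] at h2
        by_contra hc
        push Not at hc
        have a2 := (ι w).isLt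
        have : n * (N (p w) + 1) ≤ n * N (p v) := Nat.mul_le_mul_left _ hc
        rw [mul_add, mul_one] at this
        omega
  obtain ⟨φ, hφ⟩ := exists_order key hkinj
  have hr0 : ∀ v : Fin n, v.val = 0 ↔ φ v = r := by
    intro v
    constructor
    · intro hv
      have h1 : v ≤ φ.symm r := by rw [Fin.le_def]; omega
      rw [hφ, Equiv.apply_symm_apply, hkle, SimpleGraph.dist_self] at h1
      apply hd0
      omega
    · intro hv
      by_contra hne
      have hn0 : 0 < n := lt_of_le_of_lt (Nat.zero_le _) v.isLt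
      have h1 : ¬ v ≤ (⟨0, hn0⟩ : Fin n) := by rw [Fin.le_def]; simpa using hne
      rw [hφ, hv, hkle, SimpleGraph.dist_self, hNr] at h1
      push Not at h1
      have h2 := h1.1
      have h3 : G.dist r (φ ⟨0, hn0⟩) = 0 := by omega
      exact absurd (h1.2 h3.symm) (by omega)
  refine ⟨φ, fun v => φ.symm (p (φ v)), fun v => decide (G.dist r (φ v) % 2 = 0), ?_, ?_, ?_, ?_, ?_⟩
  · intro v hv
    have hvr : φ v ≠ r := fun h => by rw [(hr0 v).2 h] at hv; omega
    have h1 : ¬ (v ≤ φ.symm (p (φ v))) := by
      rw [hφ, Equiv.apply_symm_apply, hkle]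
      have := (hp _ hvr).2
      omega
    rw [Fin.le_def] at h1
    exact not_le.1 h1
  · intro v w h
    rw [hφ] at h ⊢
    simp only [Equiv.apply_symm_apply]
    exact hmonoP _ _ h
  · intro v hv
    have hvr : φ v ≠ r := fun h => by rw [(hr0 v).2 h] at hv; omega
    have h2 := (hp _ hvr).2
    simp only [Equiv.apply_symm_apply]
    rw [h2]
    by_cases h3 : G.dist r (p (φ v)) % 2 = 0
    · rw [decide_eq_true h3, decide_eq_false (by omega)]; rfl
    · rw [decide_eq_false h3, decide_eq_true (by omega)]; rfl
  · intro v hv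
    have hvr : φ v ≠ r := fun h => by rw [(hr0 v).2 h] at hv; omega
    simp only [Equiv.apply_symm_apply]
    exact (hp _ hvr).1
  · intro x y hxy
    simp only [Equiv.apply_symm_apply]
    rcases hadj x y hxy with ⟨h1, h2⟩ | ⟨h1, h2⟩
    · left
      refine ⟨?_, h2⟩
      rcases Nat.eq_zero_or_pos (φ.symm x).val with h | h
      · rw [hr0, Equiv.apply_symm_apply] at h; exact absurd h h1
      · exact h
    · right
      refine ⟨?_, h2⟩
      rcases Nat.eq_zero_or_pos (φ.symm y).val with h | h
      · rw [hr0, Equiv.apply_symm_apply] at h; exact absurd h h1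
      · exact h

end Alp
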