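import Pool.Agent.Work.MP_f04a5a_co.Assemble
import Pool.Agent.Work.MP_f04a5a_co.Root

/-! Bipartite labellings of bounded degree trees with almost all edge labels distinct. -/

namespace Alp
open Finset

/-- Extend the partial positions on one side to a bijection with an initial segment. -/
theorem extend_side {V : Type*} [Fintype V] (p : V → Prop) [DecidablePred p] (e : V → ℕ)
    (G : Finset V) (m : ℕ) (hm : (univ.filter p).card = m)
    (hlt : ∀ v ∈ G, p v → e v < m)
    (hinj : ∀ v ∈ G, ∀ w ∈ G, p v → p w → e v = e w → v = w) :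
    ∃ h : V → ℕ, (∀ v, p v → h v < m) ∧ (∀ v w, p v → p w → h v = h w → v = w) ∧
      ∀ v ∈ G, p v → h v = e v := by
  classical
  have hc : Fintype.card {v // p v} = (range m).card := by
    rw [card_range, ← hm, Fintype.card_subtype]
  obtain ⟨g, hg⟩ := Finset.exists_equiv_extend_of_card_eq hc
    (s := univ.filter (fun x : {v // p v} => x.val ∈ G)) (f := fun x => e x.val)
    (by
      intro y hy
      rw [mem_image] at hy
      obtain ⟨x, hx, rfl⟩ := hy
      rw [mem_filter] at hx
      exact mem_range.2 (hlt x.val hx.2 x.prop))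
    (by
      intro x hx y hy hxy
      rw [mem_coe, mem_filter] at hx hy
      exact Subtype.ext (hinj x.val hx.2 y.val hy.2 x.prop y.prop hxy))
  refine ⟨fun v => if hv : p v then (g ⟨v, hv⟩ : ℕ) else 0, ?_, ?_, ?_⟩
  · intro v hv
    dsimp only
    rw [dif_pos hv]
    exact mem_range.1 (g ⟨v, hv⟩).prop
  · intro v w hv hw h
    dsimp only at h
    rw [dif_pos hv, dif_pos hw] at h
    have h1 := g.injective (Subtype.ext h)
    exact congrArg Subtype.val h1
  · intro v hv hpv
    dsimp only
    rw [dif_pos hpv]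
    exact hg ⟨v, hpv⟩ (by rw [mem_filter]; exact ⟨mem_univ _, hv⟩)

theorem alpha_size_aux (n Δ k : ℕ) (hk : 0 < k) {V : Type*} [Fintype V] (G : SimpleGraph V)
    (hdeg : ∀ v : V, (G.neighborSet v).ncard ≤ Δ) (hn : 2 ≤ n)
    (φ : Fin n ≃ V) (par : Fin n → Fin n) (side : Fin n → Bool)
    (b1 : ∀ v, 0 < v.val → (par v).val < v.val)
    (b2 : ∀ v w, v ≤ w → par v ≤ par w)
    (b3 : ∀ v, 0 < v.val → side v = !side (par v))
    (b4 : ∀ v, 0 < v.val → G.Adj (φ v) (φ (par v)))
    (b5 : ∀ x y, G.Adj x y → (0 < (φ.symm x).val ∧ φ (par (φ.symm x)) = y) ∨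
        (0 < (φ.symm y).val ∧ φ (par (φ.symm y)) = x)) :
    ∃ f : V → ℤ, Function.Injective f ∧ (∀ v : V, 0 ≤ f v ∧ f v ≤ (n : ℤ) - 1) ∧
      (∃ κ : ℤ, 0 ≤ κ ∧ κ < (n : ℤ) - 1 ∧
        ∀ u v : V, G.Adj u v → min (f u) (f v) ≤ κ ∧ κ < max (f u) (f v)) ∧
      k * (n - {d : ℤ | ∃ u v : V, G.Adj u v ∧ |f u - f v| = d}.ncard) ≤
        (Δ + 1) * (n + k) + n + 8 ^ k * k ^ 7 := by
  classical
  obtain ⟨E, top, c1, c2, c3, c4, c5, c6⟩ := decomp hk par b1
  let D : Dec n k := ⟨par, side, E, top, b1, b2, b3, c2, c3, c4, c5, c6⟩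
  have hchild : ∀ u, (univ.filter (fun v : Fin n => 0 < v.val ∧ par v = u)).card ≤ Δ := by
    intro u
    refine le_trans ?_ (hdeg (φ u))
    rw [← Set.ncard_coe_finset]
    refine Set.ncard_le_ncard_of_injOn φ ?_ ?_ (Set.toFinite _)
    · intro v hv
      rw [mem_coe, mem_filter] at hv
      rw [SimpleGraph.mem_neighborSet, ← hv.2.2]
      exact (b4 v hv.2.1).symm
    · intro v _ w _ h
      exact φ.injective h
  obtain ⟨e, Gd, H, a1, a2, a3, a4, a5, a6⟩ := D.assemble hk Δ hchild c1
  set A := (univ.filter (fun v => side v = true)).card with hA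
  set B := (univ.filter (fun v => side v = false)).card with hB
  have hAB : A + B = n := by
    have h1 := Finset.card_filter_add_card_filter_not (s := (univ : Finset (Fin n)))
      (fun v => side v = true)
    have h2 : ((univ : Finset (Fin n)).filter (fun v => ¬ side v = true)) =
        (univ.filter (fun v => side v = false)) := by
      apply Finset.filter_congr
      intro x _
      simp
    rw [h2] at h1
    simpa using h1
  obtain ⟨hT, t1, t2, t3⟩ := extend_side (fun v => side v = true) e Gd A rfl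
    (fun v hv hs => a1 v hv hs) (fun v hv w hw hs hs' h => a3 v hv w hw (by
      change side v = side w; rw [hs, hs']) h)
  obtain ⟨hF, f1, f2, f3⟩ := extend_side (fun v => side v = false) e Gd B rfl
    (fun v hv hs => a2 v hv hs) (fun v hv w hw hs hs' h => a3 v hv w hw (by
      change side v = side w; rw [hs, hs']) h)
  -- both sides nonempty
  have hn1 : 1 < n := by omega
  have h1par := b1 ⟨1, hn1⟩ (by norm_num)
  have h1side := b3 ⟨1, hn1⟩ (by norm_num)
  have hApos : 0 < A ∧ 0 < B := by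
    rw [hA, hB, Finset.card_pos, Finset.card_pos]
    cases h : side (par ⟨1, hn1⟩) with
    | true =>
      rw [h] at h1side
      exact ⟨⟨_, by rw [mem_filter]; exact ⟨mem_univ _, h⟩⟩,
        ⟨_, by rw [mem_filter]; exact ⟨mem_univ _, h1side⟩⟩⟩
    | false =>
      rw [h] at h1side
      exact ⟨⟨_, by rw [mem_filter]; exact ⟨mem_univ _, h1side⟩⟩,
        ⟨_, by rw [mem_filter]; exact ⟨mem_univ _, h⟩⟩⟩
  -- the labelling
  let F : Fin n → ℤ := fun v => if side v = true then (hT v : ℤ) else (n : ℤ) - 1 - hF v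
  have hFt : ∀ v, side v = true → F v = hT v := fun v h => by simp only [F]; rw [if_pos h]
  have hFf : ∀ v, side v = false → F v = (n : ℤ) - 1 - hF v := fun v h => by
    simp only [F]; rw [if_neg (by rw [h]; simp)]
  have hrange : ∀ v, 0 ≤ F v ∧ F v ≤ (n : ℤ) - 1 ∧ (side v = true → F v < A) ∧
      (side v = false → (A : ℤ) ≤ F v) := by
    intro v
    cases h : side v with
    | true =>
      have := t1 v h
      rw [hFt v h]
      refine ⟨by positivity, by omega, fun _ => by exact_mod_cast this, fun h => by simp at h⟩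
    | false =>
      have := f1 v h
      rw [hFf v h]
      refine ⟨by omega, by omega, fun h => by simp at h, fun _ => by omega⟩
  have hFinj : Function.Injective F := by
    intro v w h
    obtain ⟨r1, r2, r3, r4⟩ := hrange v
    obtain ⟨r1', r2', r3', r4'⟩ := hrange w
    cases hv : side v with
    | true =>
      cases hw : side w with
      | true =>
        rw [hFt v hv, hFt w hw] at h
        exact t2 v w hv hw (by exact_mod_cast h)
      | false =>
        have := r3 hv
        have := r4' hw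
        omega
    | false =>
      cases hw : side w with
      | true =>
        have := r4 hv
        have := r3' hw
        omega
      | false =>
        rw [hFf v hv, hFf w hw] at h
        exact f2 v w hv hw (by omega)
  have hopp : ∀ x y, G.Adj x y → side (φ.symm x) = !side (φ.symm y) := by
    intro x y hxy
    rcases b5 x y hxy with ⟨h1, h2⟩ | ⟨h1, h2⟩
    · rw [b3 _ h1, ← h2, Equiv.symm_apply_apply]
    · rw [b3 _ h1, ← h2, Equiv.symm_apply_apply, Bool.not_not]
  have hdiff : ∀ v ∈ H, |F v - F (par v)| = (n : ℤ) - 1 - (e v + e (par v)) := by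
    intro v hv
    obtain ⟨h0, hv1, hv2⟩ := a4 v hv
    have hs := b3 v h0
    cases hp : side (par v) with
    | true =>
      rw [hp] at hs
      have hs' : side v = false := hs
      have e1 : F v = (n : ℤ) - 1 - e v := by rw [hFf v hs', f3 v hv1 hs']
      have e2 : F (par v) = e (par v) := by rw [hFt _ hp, t3 _ hv2 hp]
      have r1 := (hrange v).2.2.2 hs'
      have r2 := (hrange (par v)).2.2.1 hp
      rw [abs_of_nonneg (by omega), e1, e2]
      ring
    | false =>
      rw [hp] at hs
      have hs' : side v = true := hs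
      have e1 : F v = e v := by rw [hFt v hs', t3 v hv1 hs']
      have e2 : F (par v) = (n : ℤ) - 1 - e (par v) := by rw [hFf _ hp, f3 _ hv2 hp]
      have r1 := (hrange v).2.2.1 hs'
      have r2 := (hrange (par v)).2.2.2 hp
      rw [abs_of_nonpos (by omega), e1, e2]
      ring
  refine ⟨fun x => F (φ.symm x), hFinj.comp φ.symm.injective, fun x => ?_, ?_, ?_⟩
  · obtain ⟨r1, r2, _, _⟩ := hrange (φ.symm x)
    exact ⟨r1, r2⟩
  · refine ⟨(A : ℤ) - 1, by omega, by omega, ?_⟩
    intro x y hxy
    obtain ⟨r1, r2, r3, r4⟩ := hrange (φ.symm x)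
    obtain ⟨r1', r2', r3', r4'⟩ := hrange (φ.symm y)
    have ho := hopp x y hxy
    dsimp only
    cases hy : side (φ.symm y) with
    | true =>
      rw [hy] at ho
      have := r4 ho
      have := r3' hy
      rw [min_le_iff, lt_max_iff]
      omega
    | false =>
      rw [hy] at ho
      have := r3 ho
      have := r4' hy
      rw [min_le_iff, lt_max_iff]
      omega
  · have hle : H.card ≤ {d : ℤ | ∃ u v : V, G.Adj u v ∧
        |F (φ.symm u) - F (φ.symm v)| = d}.ncard := by
      rw [← Set.ncard_coe_finset]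
      refine Set.ncard_le_ncard_of_injOn (fun v => |F v - F (par v)|) ?_ ?_
        (Set.Finite.subset (Set.finite_range (fun p : V × V =>
          |F (φ.symm p.1) - F (φ.symm p.2)|)) (by
            rintro d ⟨u, v, _, h⟩
            exact ⟨(u, v), h⟩))
      · intro v hv
        obtain ⟨h0, _, _⟩ := a4 v hv
        exact ⟨φ v, φ (par v), b4 v h0, by rw [Equiv.symm_apply_apply, Equiv.symm_apply_apply]⟩
      · intro v hv w hw h
        dsimp only at h
        rw [hdiff v hv, hdiff w hw] at h
        exact a5 v hv w hw (by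
          change e v + e (par v) = e w + e (par w)
          omega)
    refine le_trans (Nat.mul_le_mul_left _ ?_) a6
    dsimp only
    omega

theorem alpha_size_nat (Δ k : ℕ) (hk : 0 < k) {V : Type*} [Fintype V] (G : SimpleGraph V)
    (hG : G.IsTree) (hdeg : ∀ v : V, (G.neighborSet v).ncard ≤ Δ) (hn : 2 ≤ Fintype.card V) :
    ∃ f : V → ℤ, Function.Injective f ∧ (∀ v : V, 0 ≤ f v ∧ f v ≤ (Fintype.card V : ℤ) - 1) ∧
      (∃ κ : ℤ, 0 ≤ κ ∧ κ < (Fintype.card V : ℤ) - 1 ∧
        ∀ u v : V, G.Adj u v → min (f u) (f v) ≤ κ ∧ κ < max (f u) (f v)) ∧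
      k * (Fintype.card V - {d : ℤ | ∃ u v : V, G.Adj u v ∧ |f u - f v| = d}.ncard) ≤
        (Δ + 1) * (Fintype.card V + k) + Fintype.card V + 8 ^ k * k ^ 7 := by
  obtain ⟨φ, par, side, b1, b2, b3, b4, b5⟩ := exists_bfs G hG
  exact alpha_size_aux (Fintype.card V) Δ k hk G hdeg hn φ par side b1 b2 b3 b4 b5

/-- Every tree of maximum degree at most `Δ` on `n ≥ 2` vertices has a bipartite labelling with
at least `n - 28 (Δ + 2) n / log n` distinct edge labels. -/
theorem alpha_size (Δ : ℕ) {V : Type*} [Fintype V] (G : SimpleGraph V)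
    (hG : G.IsTree) (hdeg : ∀ v : V, (G.neighborSet v).ncard ≤ Δ) (hn : 2 ≤ Fintype.card V) :
    ∃ f : V → ℤ, Function.Injective f ∧ (∀ v : V, 0 ≤ f v ∧ f v ≤ (Fintype.card V : ℤ) - 1) ∧
      (∃ κ : ℤ, 0 ≤ κ ∧ κ < (Fintype.card V : ℤ) - 1 ∧
        ∀ u v : V, G.Adj u v → min (f u) (f v) ≤ κ ∧ κ < max (f u) (f v)) ∧
      (Fintype.card V : ℝ) - 28 * (Δ + 2) * Fintype.card V / Real.log (Fintype.card V) ≤
        ({d : ℤ | ∃ u v : V, G.Adj u v ∧ |f u - f v| = d}.ncard : ℝ) := by
  generalize hnV : Fintype.card V = n at hn ⊢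
  set k := Nat.log 1024 n with hkdef
  have hn0 : n ≠ 0 := by omega
  have hlogpos : 0 < Real.log n := Real.log_pos (by exact_mod_cast (by omega : 1 < n))
  have hlog1024 : Real.log 1024 < 7 := by
    have h1 : Real.log 1024 = 10 * Real.log 2 := by
      rw [show (1024 : ℝ) = 2 ^ 10 by norm_num, Real.log_pow]; norm_num
    rw [h1]
    have := Real.log_two_lt_d9
    linarith
  have hkub : Real.log n < 7 * (k + 1) := by
    have h1 : n < 1024 ^ (k + 1) := Nat.lt_pow_succ_log_self (by norm_num) n
    have h2 : Real.log n < Real.log ((1024 : ℝ) ^ (k + 1)) :=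
      Real.log_lt_log (by exact_mod_cast Nat.pos_of_ne_zero hn0) (by exact_mod_cast h1)
    rw [Real.log_pow] at h2
    have h3 : ((k + 1 : ℕ) : ℝ) * Real.log 1024 ≤ ((k + 1 : ℕ) : ℝ) * 7 :=
      mul_le_mul_of_nonneg_left hlog1024.le (by positivity)
    push_cast at h2 h3
    linarith
  obtain ⟨f, f1, f2, f3, f4⟩ := alpha_size_nat Δ (max k 1) (by simp) G hG hdeg (by rw [hnV]; exact hn)
  rw [hnV] at f2 f3 f4
  refine ⟨f, f1, f2, f3, ?_⟩
  set M := {d : ℤ | ∃ u v : V, G.Adj u v ∧ |f u - f v| = d}.ncard with hM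
  have hnR : (0 : ℝ) < n := by exact_mod_cast Nat.pos_of_ne_zero hn0
  rcases Nat.eq_zero_or_pos k with hk0 | hkpos
  · -- small n: the bound is trivial
    rw [hk0] at hkub
    norm_num at hkub
    have h1 : (n : ℝ) ≤ 28 * (Δ + 2) * n / Real.log n := by
      rw [le_div_iff₀ hlogpos]
      have h2 : (n : ℝ) * Real.log n ≤ n * 7 := mul_le_mul_of_nonneg_left hkub.le hnR.le
      have h3 : (0 : ℝ) ≤ Δ * n := by positivity
      nlinarith
    have h2 : (0 : ℝ) ≤ M := by positivity
    linarith
  · have hmax : max k 1 = k := by omega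
    rw [hmax] at f4
    -- 8^k k^7 ≤ n
    have h8 : 8 ^ k * k ^ 7 ≤ n := by
      calc 8 ^ k * k ^ 7 ≤ 8 ^ k * (2 ^ k) ^ 7 :=
            Nat.mul_le_mul_left _ (Nat.pow_le_pow_left (Nat.lt_two_pow_self).le 7)
        _ = 1024 ^ k := by
            rw [← pow_mul, mul_comm k 7, pow_mul, ← mul_pow]; norm_num
        _ ≤ n := Nat.pow_log_le_self 1024 hn0
    have hkn : k ≤ n := by
      have := Nat.log_le_self 1024 n
      omega
    have h9 : k * (n - M) ≤ (2 * Δ + 4) * n := by
      calc k * (n - M) ≤ (Δ + 1) * (n + k) + n + 8 ^ k * k ^ 7 := f4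
        _ ≤ (Δ + 1) * (n + n) + n + n := by
            have := Nat.mul_le_mul_left (Δ + 1) (Nat.add_le_add_left hkn n)
            omega
        _ = _ := by ring
    have hkR : (1 : ℝ) ≤ k := by exact_mod_cast hkpos
    have h10 : (k : ℝ) * ((n : ℝ) - M) ≤ (2 * Δ + 4) * n := by
      have h11 : (n : ℝ) - M ≤ ((n - M : ℕ) : ℝ) := by
        have h14 : n ≤ (n - M) + M := by omega
        have h15 : (n : ℝ) ≤ ((n - M : ℕ) : ℝ) + M := by exact_mod_cast h14
        linarith
      calc (k : ℝ) * ((n : ℝ) - M) ≤ k * ((n - M : ℕ) : ℝ) :=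
            mul_le_mul_of_nonneg_left h11 (by positivity)
        _ ≤ (2 * Δ + 4) * n := by exact_mod_cast h9
    have h12 : Real.log n ≤ 14 * k := by linarith
    have h13 : (n : ℝ) - M ≤ 28 * (Δ + 2) * n / Real.log n := by
      rw [le_div_iff₀ hlogpos]
      rcases le_or_gt ((n : ℝ) - M) 0 with h | h
      · have : ((n : ℝ) - M) * Real.log n ≤ 0 := mul_nonpos_of_nonpos_of_nonneg h hlogpos.le
        have h3 : (0 : ℝ) ≤ 28 * (Δ + 2) * n := by positivity
        linarith
      · calc ((n : ℝ) - M) * Real.log n ≤ ((n : ℝ) - M) * (14 * k) :=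
              mul_le_mul_of_nonneg_left h12 h.le
          _ = 14 * (k * ((n : ℝ) - M)) := by ring
          _ ≤ 14 * ((2 * Δ + 4) * n) := by linarith
          _ = _ := by ring
    linarith

end Alp
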