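import Mathlib

/-! Greedy placement of the remaining vertices at positions divisible by `p`. -/

namespace Alp
open Finset

theorem greedy (n p X : ℕ) (hp : 0 < p) (par : Fin n → Fin n) (side : Fin n → Bool)
    (hpar : ∀ v, 0 < v.val → (par v).val < v.val)
    (hside : ∀ v, 0 < v.val → side v = !side (par v)) (Δ : ℕ)
    (hnb : ∀ u, (univ.filter (fun y : Fin n => (0 < u.val ∧ y = par u) ∨
      (0 < y.val ∧ par y = u))).card ≤ Δ)
    (e₀ : Fin n → ℕ) (G Bs : Finset (Fin n)) (base : Bool → ℕ)
    (hbase : ∀ b, p ∣ base b)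
    (g1 : ∀ v ∈ G, e₀ v < base (side v))
    (g3 : ∀ v ∈ G, ∀ v' ∈ G, side v = side v' → e₀ v = e₀ v' → v = v')
    (g4 : ∀ v ∈ G, v ∈ Bs → e₀ v % p = 0)
    (g5 : ∀ v ∈ G, ∀ y, y ∉ G → ((0 < v.val ∧ y = par v) ∨ (0 < y.val ∧ par y = v)) → v ∈ Bs)
    (g6 : ∀ v ∈ G, ∀ v' ∈ G, 0 < v.val → 0 < v'.val → par v ∈ G → par v' ∈ G →
      e₀ v + e₀ (par v) = e₀ v' + e₀ (par v') → v = v')
    (g7 : ∀ v ∈ G, 0 < v.val → par v ∈ G → (e₀ v + e₀ (par v)) % p = 0 → v ∈ Bs)
    (hX : (univ \ G).card + Δ * (Bs.card + (univ \ G).card) < X) :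
    ∃ e : Fin n → ℕ, (∀ v, e v < base (side v) + p * X) ∧
      (∀ v v', side v = side v' → e v = e v' → v = v') ∧
      (∀ v v', 0 < v.val → 0 < v'.val → e v + e (par v) = e v' + e (par v') → v = v') := by
  classical
  have main : ∀ S : Finset (Fin n), S ⊆ univ \ G → ∃ e : Fin n → ℕ,
      (∀ v ∈ G, e v = e₀ v) ∧
      (∀ v ∈ S, base (side v) ≤ e v ∧ e v < base (side v) + p * X ∧ e v % p = 0) ∧
      (∀ v ∈ G ∪ S, ∀ v' ∈ G ∪ S, side v = side v' → e v = e v' → v = v') ∧
      (∀ v ∈ G ∪ S, ∀ v' ∈ G ∪ S, 0 < v.val → 0 < v'.val → par v ∈ G ∪ S → par v' ∈ G ∪ S →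
        e v + e (par v) = e v' + e (par v') → v = v') := by
    intro S
    induction S using Finset.induction_on with
    | empty =>
      intro _
      refine ⟨e₀, fun v _ => rfl, fun v hv => absurd hv (notMem_empty _), ?_, ?_⟩
      · rw [union_empty]; exact g3
      · rw [union_empty]; exact g6
    | @insert u S huS ih =>
      intro hsub
      have huG : u ∉ G := (mem_sdiff.1 (hsub (mem_insert_self u S))).2
      have hSsub : S ⊆ univ \ G := fun x hx => hsub (mem_insert_of_mem hx)
      obtain ⟨e, a1, a2, a3, a4⟩ := ih hSsub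
      have hGu : u ∉ G ∪ S := by rw [mem_union]; push Not; exact ⟨huG, huS⟩
      obtain ⟨b, hb⟩ : ∃ b, b = base (side u) := ⟨_, rfl⟩
      have hbp : b % p = 0 := by rw [hb]; exact Nat.mod_eq_zero_of_dvd (hbase _)
      let nb : Finset (Fin n) := univ.filter (fun y : Fin n => (0 < u.val ∧ y = par u) ∨
        (0 < y.val ∧ par y = u))
      have hnbm : ∀ y, y ∈ nb ↔ ((0 < u.val ∧ y = par u) ∨ (0 < y.val ∧ par y = u)) := by
        intro y; simp [nb]
      let F1 : Finset ℕ := S.image (fun w => (e w - b) / p)
      let F2 : Finset ℕ := (nb ×ˢ (Bs ∪ (univ \ G))).image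
        (fun q => (e q.2 + e (par q.2) - e q.1 - b) / p)
      obtain ⟨x, hx, hxF⟩ : ∃ x ∈ range X, x ∉ F1 ∪ F2 := by
        apply Finset.exists_mem_notMem_of_card_lt_card
        rw [card_range]
        calc (F1 ∪ F2).card ≤ F1.card + F2.card := card_union_le _ _
          _ ≤ (univ \ G).card + Δ * (Bs.card + (univ \ G).card) := by
              apply Nat.add_le_add
              · exact le_trans card_image_le (card_le_card hSsub)
              · refine le_trans card_image_le ?_
                rw [card_product]
                exact Nat.mul_le_mul (hnb u) (card_union_le _ _)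
          _ < X := hX
      rw [mem_range] at hx
      rw [mem_union] at hxF
      push Not at hxF
      obtain ⟨hx1, hx2⟩ := hxF
      let e' : Fin n → ℕ := Function.update e u (b + p * x)
      have hu' : e' u = b + p * x := by simp [e']
      have hne' : ∀ v, v ≠ u → e' v = e v := fun v hv => by simp [e', hv]
      have hold : ∀ v ∈ G ∪ S, e' v = e v := fun v hv => hne' v (by
        rintro rfl; exact hGu hv)
      -- neighbours of u are at positions divisible by p
      have hnbp : ∀ y ∈ G ∪ S, y ∈ nb → e y % p = 0 := by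
        intro y hy hyn
        rw [mem_union] at hy
        rcases hy with hy | hy
        · rw [a1 y hy]
          apply g4 y hy
          apply g5 y hy u huG
          rw [hnbm] at hyn
          rcases hyn with ⟨h1, h2⟩ | ⟨h1, h2⟩
          · right; exact ⟨h1, h2.symm⟩
          · left; exact ⟨h1, h2.symm⟩
        · exact (a2 y hy).2.2
      -- a new edge and an old edge
      have hmix : ∀ y ∈ G ∪ S, y ∈ nb → ∀ w ∈ G ∪ S, 0 < w.val → par w ∈ G ∪ S →
          b + p * x + e y ≠ e w + e (par w) := by
        intro y hy hyn w hw hw0 hpw heq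
        have hyp := hnbp y hy hyn
        have hz : (e w + e (par w)) % p = 0 := by
          rw [← heq, Nat.add_mod, hyp, Nat.add_mul_mod_self_left, hbp]; simp
        have hwB : w ∈ Bs ∪ (univ \ G) := by
          rw [mem_union, mem_sdiff]
          by_cases hwG : w ∈ G
          · left
            by_cases hpG : par w ∈ G
            · apply g7 w hwG hw0 hpG
              rw [← a1 w hwG, ← a1 _ hpG]; exact hz
            · exact g5 w hwG _ hpG (Or.inl ⟨hw0, rfl⟩)
          · right; exact ⟨mem_univ _, hwG⟩
        apply hx2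
        simp only [F2]
        rw [mem_image]
        refine ⟨(y, w), ?_, ?_⟩
        · rw [mem_product]; exact ⟨hyn, hwB⟩
        · dsimp only
          rw [← heq]
          have : b + p * x + e y - e y - b = p * x := by omega
          rw [this, Nat.mul_div_cancel_left _ hp]
      refine ⟨e', ?_, ?_, ?_, ?_⟩
      · intro v hv
        rw [hold v (mem_union_left _ hv)]; exact a1 v hv
      · intro v hv
        rw [mem_insert] at hv
        rcases hv with rfl | hv
        · rw [hu', ← hb]
          refine ⟨by omega, ?_, ?_⟩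
          · have := Nat.mul_lt_mul_of_pos_left hx hp
            omega
          · rw [Nat.add_mul_mod_self_left]; exact hbp
        · rw [hold v (mem_union_right _ hv)]; exact a2 v hv
      · -- injectivity
        have key : ∀ v ∈ G ∪ S, side u = side v → b + p * x ≠ e v := by
          intro v hv hs heq
          rw [mem_union] at hv
          rcases hv with hv | hv
          · have := g1 v hv
            rw [← hs, ← hb, ← a1 v hv] at this
            omega
          · apply hx1
            simp only [F1]
            rw [mem_image]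
            refine ⟨v, hv, ?_⟩
            rw [← heq, Nat.add_sub_cancel_left, Nat.mul_div_cancel_left _ hp]
        intro v hv v' hv' hs heq
        rw [union_insert, mem_insert] at hv hv'
        rcases hv with rfl | hv <;> rcases hv' with rfl | hv'
        · rfl
        · rw [hu', hold v' hv'] at heq
          exact absurd heq (key v' hv' hs)
        · rw [hu', hold v hv] at heq
          exact absurd heq.symm (key v hv hs.symm)
        · rw [hold v hv, hold v' hv'] at heq
          exact a3 v hv v' hv' hs heq
      · -- edges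
        -- classification of an edge
        have hcl : ∀ v ∈ G ∪ insert u S, 0 < v.val → par v ∈ G ∪ insert u S →
            (∃ y ∈ G ∪ S, y ∈ nb ∧ e' v + e' (par v) = b + p * x + e y ∧
              ((v = u ∧ y = par u) ∨ (par v = u ∧ y = v)) ∧ side y = !side u) ∨
            (v ∈ G ∪ S ∧ par v ∈ G ∪ S ∧ e' v + e' (par v) = e v + e (par v)) := by
          intro v hv hv0 hpv
          rw [union_insert, mem_insert] at hv hpv
          have hlt := hpar v hv0
          rcases hv with rfl | hv
          · rcases hpv with hpv | hpv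
            · rw [hpv] at hlt; omega
            · left
              refine ⟨par v, hpv, (hnbm _).2 (Or.inl ⟨hv0, rfl⟩), ?_, Or.inl ⟨rfl, rfl⟩, ?_⟩
              · rw [hu', hold _ hpv]
              · rw [hside v hv0, Bool.not_not]
          · rcases hpv with hpv | hpv
            · left
              refine ⟨v, hv, (hnbm _).2 (Or.inr ⟨hv0, hpv⟩), ?_, Or.inr ⟨hpv, rfl⟩, ?_⟩
              · rw [hpv, hu', hold _ hv]; omega
              · rw [hside v hv0, hpv]
            · right
              exact ⟨hv, hpv, by rw [hold _ hv, hold _ hpv]⟩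
        intro v hv v' hv' h0 h0' hpv hpv' heq
        rcases hcl v hv h0 hpv with ⟨y, y1, y2, y3, y4, y5⟩ | ⟨y1, y2, y3⟩
        · rcases hcl v' hv' h0' hpv' with ⟨z, z1, z2, z3, z4, z5⟩ | ⟨z1, z2, z3⟩
          · have hyz : y = z := a3 y y1 z z1 (by rw [y5, z5]) (by omega)
            rcases y4 with ⟨c1, c2⟩ | ⟨c1, c2⟩ <;> rcases z4 with ⟨c3, c4⟩ | ⟨c3, c4⟩
            · rw [c1, c3]
            · -- v = u, y = par u ; par v' = u, z = v'
              have h1 : v' = par u := by rw [← c4, ← hyz, c2]
              have h2 := hpar v' h0'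
              rw [c3, h1] at h2
              have h3 := hpar u (by rw [← c1]; exact h0)
              omega
            · have h1 : v = par u := by rw [← c2, hyz, c4]
              have h2 := hpar v h0
              rw [c1, h1] at h2
              have h3 := hpar u (by rw [← c3]; exact h0')
              omega
            · rw [← c2, ← c4, hyz]
          · exact absurd (by omega) (hmix y y1 y2 v' z1 h0' z2)
        · rcases hcl v' hv' h0' hpv' with ⟨z, z1, z2, z3, z4, z5⟩ | ⟨z1, z2, z3⟩
          · exact absurd (by omega) (hmix z z1 z2 v y1 h0 y2)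
          · exact a4 v y1 v' z1 h0 h0' y2 z2 (by omega)
  obtain ⟨e, a1, a2, a3, a4⟩ := main (univ \ G) (Finset.Subset.refl _)
  have hun : ∀ v, v ∈ G ∪ (univ \ G) := by
    intro v; rw [mem_union, mem_sdiff]
    by_cases h : v ∈ G
    · exact Or.inl h
    · exact Or.inr ⟨mem_univ _, h⟩
  refine ⟨e, ?_, ?_, ?_⟩
  · intro v
    by_cases h : v ∈ G
    · rw [a1 v h]
      have := g1 v h
      omega
    · exact (a2 v (mem_sdiff.2 ⟨mem_univ _, h⟩)).2.1
  · intro v v' hs h
    exact a3 v (hun v) v' (hun v') hs h
  · intro v v' h0 h0' h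
    exact a4 v (hun v) v' (hun v') h0 h0' (hun _) (hun _) h

end Alp
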