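import Pool.Agent.Work.MP_f04a5a_co.AssembleB
import Pool.Agent.Work.MP_f04a5a_co.Greedy
import Pool.Agent.Work.MP_f04a5a_co.Root

/-! Bipartite labellings of bounded degree trees with all edge labels distinct and a label range
only slightly longer than optimal. -/

namespace Alp
open Finset

theorem labels_of_positions {V : Type*} (G : SimpleGraph V) (n : ℕ)
    (φ : Fin n ≃ V) (par : Fin n → Fin n) (side : Fin n → Bool)
    (b3 : ∀ v, 0 < v.val → side v = !side (par v))
    (b5 : ∀ x y, G.Adj x y → (0 < (φ.symm x).val ∧ φ (par (φ.symm x)) = y) ∨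
        (0 < (φ.symm y).val ∧ φ (par (φ.symm y)) = x))
    (e : Fin n → ℕ) (a b : ℕ) (he1 : ∀ v, side v = true → e v < a)
    (he2 : ∀ v, side v = false → e v < b)
    (hinj : ∀ v v', side v = side v' → e v = e v' → v = v')
    (hsum : ∀ v v', 0 < v.val → 0 < v'.val → e v + e (par v) = e v' + e (par v') → v = v') :
    ∃ f : V → ℤ, Function.Injective f ∧ (∀ v : V, 0 ≤ f v ∧ f v + 1 ≤ (a : ℤ) + b) ∧
      (∃ κ : ℤ, ∀ u v : V, G.Adj u v → min (f u) (f v) ≤ κ ∧ κ < max (f u) (f v)) ∧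
      (∀ u v w x : V, G.Adj u v → G.Adj w x → |f u - f v| = |f w - f x| →
        (u = w ∧ v = x) ∨ (u = x ∧ v = w)) := by
  classical
  let F : Fin n → ℤ := fun v => if side v = true then (e v : ℤ) else (a : ℤ) + b - 1 - e v
  have hFt : ∀ v, side v = true → F v = e v := fun v h => by simp only [F]; rw [if_pos h]
  have hFf : ∀ v, side v = false → F v = (a : ℤ) + b - 1 - e v := fun v h => by
    simp only [F]; rw [if_neg (by rw [h]; simp)]
  have hrange : ∀ v, 0 ≤ F v ∧ F v + 1 ≤ (a : ℤ) + b ∧ (side v = true → F v < a) ∧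
      (side v = false → (a : ℤ) ≤ F v) := by
    intro v
    cases h : side v with
    | true =>
      have := he1 v h
      rw [hFt v h]
      refine ⟨by positivity, by omega, fun _ => by exact_mod_cast this, fun h => by simp at h⟩
    | false =>
      have := he2 v h
      rw [hFf v h]
      refine ⟨by omega, by omega, fun h => by simp at h, fun _ => by omega⟩
  have hFinj : Function.Injective F := by
    intro v w h
    obtain ⟨r1, r2, r3, r4⟩ := hrange v
    obtain ⟨r1', r2', r3', r4'⟩ := hrange w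
    cases hv : side v with
    | true =>
      cases hw : side w with
      | true =>
        rw [hFt v hv, hFt w hw] at h
        exact hinj v w (by rw [hv, hw]) (by exact_mod_cast h)
      | false =>
        have := r3 hv
        have := r4' hw
        omega
    | false =>
      cases hw : side w with
      | true =>
        have := r4 hv
        have := r3' hw
        omega
      | false =>
        rw [hFf v hv, hFf w hw] at h
        exact hinj v w (by rw [hv, hw]) (by omega)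
  have hopp : ∀ x y, G.Adj x y → side (φ.symm x) = !side (φ.symm y) := by
    intro x y hxy
    rcases b5 x y hxy with ⟨h1, h2⟩ | ⟨h1, h2⟩
    · rw [b3 _ h1, ← h2, Equiv.symm_apply_apply]
    · rw [b3 _ h1, ← h2, Equiv.symm_apply_apply, Bool.not_not]
  have hdiff : ∀ v, 0 < v.val → |F v - F (par v)| = (a : ℤ) + b - 1 - (e v + e (par v)) := by
    intro v h0
    have hs := b3 v h0
    cases hp : side (par v) with
    | true =>
      rw [hp] at hs
      have hs' : side v = false := hs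
      have r1 := (hrange v).2.2.2 hs'
      have r2 := (hrange (par v)).2.2.1 hp
      rw [abs_of_nonneg (by omega), hFf v hs', hFt _ hp]
      ring
    | false =>
      rw [hp] at hs
      have hs' : side v = true := hs
      have r1 := (hrange v).2.2.1 hs'
      have r2 := (hrange (par v)).2.2.2 hp
      rw [abs_of_nonpos (by omega), hFt v hs', hFf _ hp]
      ring
  -- every edge comes from a child
  have hchild : ∀ u v, G.Adj u v → ∃ c : Fin n, 0 < c.val ∧
      |F (φ.symm u) - F (φ.symm v)| = (a : ℤ) + b - 1 - (e c + e (par c)) ∧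
      ((u = φ c ∧ v = φ (par c)) ∨ (v = φ c ∧ u = φ (par c))) := by
    intro u v huv
    rcases b5 u v huv with ⟨h1, h2⟩ | ⟨h1, h2⟩
    · refine ⟨φ.symm u, h1, ?_, Or.inl ⟨by simp, h2.symm⟩⟩
      rw [← hdiff _ h1, ← h2, Equiv.symm_apply_apply]
    · refine ⟨φ.symm v, h1, ?_, Or.inr ⟨by simp, h2.symm⟩⟩
      rw [← hdiff _ h1, ← h2, Equiv.symm_apply_apply, abs_sub_comm]
  refine ⟨fun x => F (φ.symm x), hFinj.comp φ.symm.injective, fun x => ?_, ?_, ?_⟩
  · obtain ⟨r1, r2, _, _⟩ := hrange (φ.symm x)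
    exact ⟨r1, r2⟩
  · refine ⟨(a : ℤ) - 1, ?_⟩
    intro x y hxy
    obtain ⟨r1, r2, r3, r4⟩ := hrange (φ.symm x)
    obtain ⟨r1', r2', r3', r4'⟩ := hrange (φ.symm y)
    have ho := hopp x y hxy
    dsimp only
    cases hy : side (φ.symm y) with
    | true =>
      rw [hy] at ho
      have := r4 ho
      have := r3' hy
      rw [min_le_iff, lt_max_iff]
      omega
    | false =>
      rw [hy] at ho
      have := r3 ho
      have := r4' hy
      rw [min_le_iff, lt_max_iff]
      omega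
  · intro u v w x huv hwx heq
    dsimp only at heq
    obtain ⟨c, c1, c2, c3⟩ := hchild u v huv
    obtain ⟨d, d1, d2, d3⟩ := hchild w x hwx
    rw [c2, d2] at heq
    have hcd : c = d := hsum c d c1 d1 (by omega)
    subst hcd
    rcases c3 with ⟨p1, p2⟩ | ⟨p1, p2⟩ <;> rcases d3 with ⟨q1, q2⟩ | ⟨q1, q2⟩
    · left; exact ⟨by rw [p1, q1], by rw [p2, q2]⟩
    · right; exact ⟨by rw [p1, q1], by rw [p2, q2]⟩
    · right; exact ⟨by rw [p2, q2], by rw [p1, q1]⟩
    · left; exact ⟨by rw [p2, q2], by rw [p1, q1]⟩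

theorem nbr_bound {V : Type*} (G : SimpleGraph V) [Finite V] (n Δ : ℕ)
    (hdeg : ∀ v : V, (G.neighborSet v).ncard ≤ Δ)
    (φ : Fin n ≃ V) (par : Fin n → Fin n)
    (b4 : ∀ v, 0 < v.val → G.Adj (φ v) (φ (par v))) (u : Fin n) :
    (univ.filter (fun y : Fin n => (0 < u.val ∧ y = par u) ∨ (0 < y.val ∧ par y = u))).card ≤ Δ := by
  classical
  refine le_trans ?_ (hdeg (φ u))
  rw [← Set.ncard_coe_finset]
  refine Set.ncard_le_ncard_of_injOn φ ?_ ?_ (Set.toFinite _)
  · intro v hv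
    rw [mem_coe, mem_filter] at hv
    rw [SimpleGraph.mem_neighborSet]
    rcases hv.2 with ⟨h1, h2⟩ | ⟨h1, h2⟩
    · rw [h2]; exact b4 u h1
    · rw [← h2]; exact (b4 v h1).symm
  · intro v _ w _ h
    exact φ.injective h

theorem range_relaxed_small (Δ : ℕ) {V : Type*} [Fintype V] (G : SimpleGraph V)
    (hG : G.IsTree) (hdeg : ∀ v : V, (G.neighborSet v).ncard ≤ Δ) :
    ∃ f : V → ℤ, Function.Injective f ∧
      (∀ v : V, 0 ≤ f v ∧ f v ≤ 2 * (Δ + 1) * (Fintype.card V : ℤ) + 1) ∧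
      (∃ κ : ℤ, ∀ u v : V, G.Adj u v → min (f u) (f v) ≤ κ ∧ κ < max (f u) (f v)) ∧
      (∀ u v w x : V, G.Adj u v → G.Adj w x → |f u - f v| = |f w - f x| →
        (u = w ∧ v = x) ∨ (u = x ∧ v = w)) := by
  classical
  obtain ⟨φ, par, side, b1, b2, b3, b4, b5⟩ := exists_bfs G hG
  obtain ⟨e, e1, e2, e3⟩ := greedy _ 1 (Fintype.card V + Δ * Fintype.card V + 1) (by norm_num) par side b1 b3 Δ
    (nbr_bound G _ Δ hdeg φ par b4) (fun _ => 0) ∅ ∅ (fun _ => 0) (by simp) (by simp) (by simp)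
    (by simp) (by simp) (by simp) (by simp) (by simp)
  obtain ⟨f, f1, f2, f3, f4⟩ := labels_of_positions G _ φ par side b3 b5 e
    (Fintype.card V + Δ * Fintype.card V + 1) (Fintype.card V + Δ * Fintype.card V + 1)
    (fun v _ => by have := e1 v; omega) (fun v _ => by have := e1 v; omega) e2 e3
  refine ⟨f, f1, fun v => ⟨(f2 v).1, ?_⟩, f3, f4⟩
  have := (f2 v).2
  push_cast at this
  have e1 : 2 * ((Δ : ℤ) + 1) * (Fintype.card V : ℤ) =
    2 * (Fintype.card V : ℤ) + 2 * ((Δ : ℤ) * (Fintype.card V : ℤ)) := by ring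
  rw [e1]
  omega

theorem range_relaxed_nat_aux (n Δ h k : ℕ) (hh : 0 < h) (hk : 0 < k) {V : Type*} [Finite V]
    (G : SimpleGraph V) (hdeg : ∀ v : V, (G.neighborSet v).ncard ≤ Δ)
    (φ : Fin n ≃ V) (par : Fin n → Fin n) (side : Fin n → Bool)
    (b1 : ∀ v, 0 < v.val → (par v).val < v.val)
    (b2 : ∀ v w, v ≤ w → par v ≤ par w)
    (b3 : ∀ v, 0 < v.val → side v = !side (par v))
    (b4 : ∀ v, 0 < v.val → G.Adj (φ v) (φ (par v)))
    (b5 : ∀ x y, G.Adj x y → (0 < (φ.symm x).val ∧ φ (par (φ.symm x)) = y) ∨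
        (0 < (φ.symm y).val ∧ φ (par (φ.symm y)) = x)) :
    ∃ (f : V → ℤ) (S β g : ℕ), Function.Injective f ∧
      (∀ v : V, 0 ≤ f v ∧ f v + 1 ≤ S + 2 * ((2 * h + 1) * (g + Δ * (β + g) + 1) : ℕ)) ∧
      (∃ κ : ℤ, ∀ u v : V, G.Adj u v → min (f u) (f v) ≤ κ ∧ κ < max (f u) (f v)) ∧
      (∀ u v w x : V, G.Adj u v → G.Adj w x → |f u - f v| = |f w - f x| →
        (u = w ∧ v = x) ∨ (u = x ∧ v = w)) ∧
      2 * h * S ≤ (2 * h + 1) * (n + 2 * h * β) ∧
      k * β ≤ (Δ + 1) * (n + k) ∧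
      k * g ≤ (Δ + 1) * (n + k) + n + 16 ^ k * (k * (2 * (2 * h * k) ^ 4 * k ^ 2)) := by
  classical
  obtain ⟨E, top, c1, c2, c3, c4, c5, c6⟩ := decomp hk par b1
  let D : Dec n k := ⟨par, side, E, top, b1, b2, b3, c2, c3, c4, c5, c6⟩
  have hchild : ∀ u, (univ.filter (fun v : Fin n => 0 < v.val ∧ par v = u)).card ≤ Δ := by
    intro u
    refine le_trans (Finset.card_le_card ?_) (nbr_bound G n Δ hdeg φ par b4 u)
    intro v hv
    rw [mem_filter] at hv ⊢
    exact ⟨mem_univ _, Or.inr hv.2⟩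
  obtain ⟨e₀, Gd, Bs, RL, RH, a1, a2, a3, a4, a5, a6, a7, a8, a9, a10, a11, a12, a13, a14, a15⟩ :=
    D.assembleB hk h hh Δ hchild c1
  let base : Bool → ℕ := fun b => if b = true then RL else RH
  have hbT : base true = RL := by simp [base]
  have hbF : base false = RH := by simp [base]
  obtain ⟨e, e1, e2, e3⟩ := greedy n (2 * h + 1)
    ((univ \ Gd).card + Δ * (Bs.card + (univ \ Gd).card) + 1) (by omega) par side b1 b3 Δ
    (nbr_bound G n Δ hdeg φ par b4) e₀ Gd Bs base
    (by intro b; cases b; · rw [hbF]; exact a2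
        · rw [hbT]; exact a1)
    (by
      intro v hv
      cases hs : side v with
      | true => rw [hbT]; exact a3 v hv hs
      | false => rw [hbF]; exact a4 v hv hs)
    a5 a6
    (by
      intro v hv y hy hvy
      rcases hvy with ⟨h1, h2⟩ | ⟨h1, h2⟩
      · apply a12 v (a7 v hv)
        left
        by_contra hp
        exact hy (by rw [h2]; exact a8 v hv hp)
      · apply a12 v (a7 v hv)
        right
        refine ⟨y, h1, h2, ?_⟩
        by_contra hyE
        exact hy (a9 y hyE (by rw [show D.par y = v from h2]; exact hv)))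
    (fun v hv v' hv' _ _ hp hp' h => a10 v hv v' hv' hp hp' h)
    (fun v hv _ hp h => a11 v hv hp h)
    (by omega)
  obtain ⟨f, f1, f2, f3, f4⟩ := labels_of_positions G n φ par side b3 b5 e
    (RL + (2 * h + 1) * ((univ \ Gd).card + Δ * (Bs.card + (univ \ Gd).card) + 1))
    (RH + (2 * h + 1) * ((univ \ Gd).card + Δ * (Bs.card + (univ \ Gd).card) + 1))
    (fun v hv => by have := e1 v; rw [hv, hbT] at this; exact this)
    (fun v hv => by have := e1 v; rw [hv, hbF] at this; exact this) e2 e3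
  refine ⟨f, RL + RH, Bs.card, (univ \ Gd).card, f1, fun v => ⟨(f2 v).1, ?_⟩, f3, f4,
    a13, a14, a15⟩
  have := (f2 v).2
  push_cast at this ⊢
  linarith

/-- Every tree of maximum degree at most `Δ` on `n ≥ 2` vertices has a bipartite labelling with all
edge labels distinct and vertex labels between `0` and `n + 200 (Δ + 1)^2 n / √(log n)`. -/
theorem range_relaxed (Δ : ℕ) {V : Type*} [Fintype V] (G : SimpleGraph V)
    (hG : G.IsTree) (hdeg : ∀ v : V, (G.neighborSet v).ncard ≤ Δ) (hn : 2 ≤ Fintype.card V) :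
    ∃ f : V → ℤ, Function.Injective f ∧
      (∀ v : V, 0 ≤ f v ∧ (f v : ℝ) ≤ Fintype.card V +
        200 * (Δ + 1) ^ 2 * Fintype.card V / √(Real.log (Fintype.card V))) ∧
      (∃ κ : ℤ, ∀ u v : V, G.Adj u v → min (f u) (f v) ≤ κ ∧ κ < max (f u) (f v)) ∧
      (∀ u v w x : V, G.Adj u v → G.Adj w x → |f u - f v| = |f w - f x| →
        (u = w ∧ v = x) ∨ (u = x ∧ v = w)) := by
  obtain ⟨k, hkdef⟩ : ∃ k, k = Nat.log (2 ^ 20) (Fintype.card V) := ⟨_, rfl⟩
  have hn0 : Fintype.card V ≠ 0 := by omega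
  have hlogpos : 0 < Real.log (Fintype.card V) :=
    Real.log_pos (by exact_mod_cast (by omega : 1 < Fintype.card V))
  have hlog20 : Real.log ((2 : ℝ) ^ 20) < 14 := by
    rw [Real.log_pow]
    have := Real.log_two_lt_d9
    push_cast
    linarith
  have hkub : Real.log (Fintype.card V) < 14 * (k + 1) := by
    have h1 : Fintype.card V < (2 ^ 20) ^ (k + 1) := by
      rw [hkdef]; exact Nat.lt_pow_succ_log_self (by norm_num) _
    have h2 : Real.log (Fintype.card V) < Real.log (((2 : ℝ) ^ 20) ^ (k + 1)) :=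
      Real.log_lt_log (by exact_mod_cast Nat.pos_of_ne_zero hn0) (by exact_mod_cast h1)
    rw [Real.log_pow] at h2
    have h3 : ((k + 1 : ℕ) : ℝ) * Real.log ((2 : ℝ) ^ 20) ≤ ((k + 1 : ℕ) : ℝ) * 14 :=
      mul_le_mul_of_nonneg_left hlog20.le (by positivity)
    push_cast at h2 h3
    linarith
  have hnR : (0 : ℝ) < Fintype.card V := by exact_mod_cast Nat.pos_of_ne_zero hn0
  have hsq : 0 < √(Real.log (Fintype.card V)) := Real.sqrt_pos.2 hlogpos
  rcases Nat.eq_zero_or_pos k with hk0 | hkpos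
  · -- small trees
    obtain ⟨f, f1, f2, f3, f4⟩ := range_relaxed_small Δ G hG hdeg
    refine ⟨f, f1, fun v => ⟨(f2 v).1, ?_⟩, f3, f4⟩
    rw [hk0] at hkub
    have h1 : √(Real.log (Fintype.card V)) ≤ 4 := by
      rw [Real.sqrt_le_left (by norm_num)]
      push_cast at hkub
      linarith
    have h2 : (f v : ℝ) ≤ 2 * (Δ + 1) * (Fintype.card V : ℝ) + 1 := by
      have := (f2 v).2
      exact_mod_cast this
    have h3 : 50 * (Δ + 1) ^ 2 * (Fintype.card V : ℝ) ≤
        200 * (Δ + 1) ^ 2 * Fintype.card V / √(Real.log (Fintype.card V)) := by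
      rw [le_div_iff₀ hsq]
      calc 50 * ((Δ : ℝ) + 1) ^ 2 * (Fintype.card V : ℝ) * √(Real.log (Fintype.card V))
          ≤ 50 * ((Δ : ℝ) + 1) ^ 2 * (Fintype.card V : ℝ) * 4 :=
            mul_le_mul_of_nonneg_left h1 (by positivity)
        _ = _ := by ring
    have h4 : (1 : ℝ) ≤ Fintype.card V := by exact_mod_cast (by omega : 1 ≤ Fintype.card V)
    have h5 : (0 : ℝ) ≤ Δ := by positivity
    have h6 : 2 * ((Δ : ℝ) + 1) * (Fintype.card V : ℝ) ≤
        2 * ((Δ : ℝ) + 1) ^ 2 * (Fintype.card V : ℝ) := by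
      apply mul_le_mul_of_nonneg_right _ hnR.le
      nlinarith
    have h7 : (0 : ℝ) ≤ 48 * ((Δ : ℝ) + 1) ^ 2 * (Fintype.card V : ℝ) := by positivity
    linarith
  · -- large trees
    obtain ⟨h, hhdef⟩ : ∃ h, h = Nat.sqrt k := ⟨_, rfl⟩
    have hh1 : h * h ≤ k := by rw [hhdef]; exact Nat.sqrt_le k
    have hh2 : k < (h + 1) * (h + 1) := by rw [hhdef]; exact Nat.lt_succ_sqrt k
    have hhpos : 0 < h := by
      rcases Nat.eq_zero_or_pos h with h0 | h0
      · rw [h0] at hh2; omega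
      · exact h0
    obtain ⟨φ, par, side, b1, b2, b3, b4, b5⟩ := exists_bfs G hG
    obtain ⟨f, S, β, g, f1, f2, f3, f4, f5, f6, f7⟩ :=
      range_relaxed_nat_aux (Fintype.card V) Δ h k hhpos hkpos G hdeg φ par side b1 b2 b3 b4 b5
    refine ⟨f, f1, fun v => ⟨(f2 v).1, ?_⟩, f3, f4⟩
    have hv := (f2 v).2
    clear f2 f3 f4
    generalize Fintype.card V = n at *
    -- natural number bounds
    have hkn : k ≤ n := by rw [hkdef]; exact Nat.log_le_self _ _
    have hhk : h ≤ k := le_trans (Nat.le_mul_self h) hh1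
    have hpoly : 16 ^ k * (k * (2 * (2 * h * k) ^ 4 * k ^ 2)) ≤ n := by
      have e1 : k * (2 * (2 * h * k) ^ 4 * k ^ 2) ≤ 32 * k ^ 11 := by
        have e2 : (2 * h * k) ^ 4 ≤ (2 * k * k) ^ 4 :=
          Nat.pow_le_pow_left (Nat.mul_le_mul_right _ (Nat.mul_le_mul_left _ hhk)) 4
        calc k * (2 * (2 * h * k) ^ 4 * k ^ 2) ≤ k * (2 * (2 * k * k) ^ 4 * k ^ 2) :=
              Nat.mul_le_mul_left _ (Nat.mul_le_mul_right _ (Nat.mul_le_mul_left _ e2))
          _ = 32 * k ^ 11 := by ring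
      have e3 : 32 ≤ (2 ^ k) ^ 5 := by
        calc 32 = (2 ^ 1) ^ 5 := by norm_num
          _ ≤ (2 ^ k) ^ 5 := Nat.pow_le_pow_left (Nat.pow_le_pow_right (by norm_num) hkpos) 5
      have e4 : k ^ 11 ≤ (2 ^ k) ^ 11 := Nat.pow_le_pow_left (Nat.lt_two_pow_self).le 11
      calc 16 ^ k * (k * (2 * (2 * h * k) ^ 4 * k ^ 2)) ≤ 16 ^ k * (32 * k ^ 11) :=
            Nat.mul_le_mul_left _ e1
        _ ≤ 16 ^ k * ((2 ^ k) ^ 5 * (2 ^ k) ^ 11) :=
            Nat.mul_le_mul_left _ (Nat.mul_le_mul e3 e4)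
        _ = (2 ^ 20) ^ k := by
            rw [← pow_add, ← pow_mul, mul_comm k, pow_mul, ← mul_pow]; norm_num
        _ ≤ n := by rw [hkdef]; exact Nat.pow_log_le_self _ hn0
    have hβ : k * β ≤ 2 * (Δ + 1) * n := by
      calc k * β ≤ (Δ + 1) * (n + k) := f6
        _ ≤ (Δ + 1) * (n + n) := Nat.mul_le_mul_left _ (Nat.add_le_add_left hkn n)
        _ = _ := by ring
    have hg : k * g ≤ 2 * (Δ + 2) * n := by
      calc k * g ≤ (Δ + 1) * (n + k) + n + 16 ^ k * (k * (2 * (2 * h * k) ^ 4 * k ^ 2)) := f7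
        _ ≤ (Δ + 1) * (n + n) + n + n := by
            have := Nat.mul_le_mul_left (Δ + 1) (Nat.add_le_add_left hkn n)
            omega
        _ = _ := by ring
    -- real number bounds
    obtain ⟨r, hr⟩ : ∃ r, r = √(k : ℝ) := ⟨_, rfl⟩
    have hkR : (0 : ℝ) < k := by exact_mod_cast hkpos
    have hrpos : 0 < r := by rw [hr]; exact Real.sqrt_pos.2 hkR
    have hr2 : r * r = k := by rw [hr]; exact Real.mul_self_sqrt hkR.le
    have hhR : (h : ℝ) ≤ r := by
      rw [hr]; apply Real.le_sqrt_of_sq_le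
      have : ((h * h : ℕ) : ℝ) ≤ k := by exact_mod_cast hh1
      push_cast at this
      nlinarith
    have hh1R : (1 : ℝ) ≤ h := by exact_mod_cast hhpos
    have hrh : r ≤ 2 * h := by
      have h1 : r ≤ h + 1 := by
        rw [hr]
        apply Real.sqrt_le_iff.2
        refine ⟨by positivity, ?_⟩
        have : (k : ℝ) ≤ (((h + 1) * (h + 1) : ℕ) : ℝ) := by exact_mod_cast hh2.le
        push_cast at this
        nlinarith
      linarith
    have hX : (k : ℝ) * (g + Δ * (β + g) + 1) ≤ 5 * (Δ + 1) ^ 2 * n := by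
      have h1 : (k : ℝ) * β ≤ 2 * (Δ + 1) * n := by exact_mod_cast hβ
      have h2 : (k : ℝ) * g ≤ 2 * (Δ + 2) * n := by exact_mod_cast hg
      have h3 : (k : ℝ) ≤ n := by exact_mod_cast hkn
      have hΔ : (0 : ℝ) ≤ Δ := by positivity
      have h4 : (0 : ℝ) ≤ Δ * n := by positivity
      have h5 : (0 : ℝ) ≤ Δ * Δ * n := by positivity
      calc (k : ℝ) * (g + Δ * (β + g) + 1) = (Δ + 1) * (k * g) + Δ * (k * β) + k := by ring
        _ ≤ (Δ + 1) * (2 * (Δ + 2) * n) + Δ * (2 * (Δ + 1) * n) + n := by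
            have a1 := mul_le_mul_of_nonneg_left h2 (by positivity : (0 : ℝ) ≤ Δ + 1)
            have a2 := mul_le_mul_of_nonneg_left h1 hΔ
            linarith
        _ ≤ 5 * (Δ + 1) ^ 2 * n := by nlinarith
    have hS : (S : ℝ) ≤ n + n / r + (2 * h + 1) * β := by
      have h1 : 2 * (h : ℝ) * S ≤ (2 * h + 1) * (n + 2 * h * β) := by exact_mod_cast f5
      have h2 : (n : ℝ) / (2 * h) ≤ n / r :=
        div_le_div_of_nonneg_left hnR.le hrpos hrh
      have h3 : (S : ℝ) ≤ ((2 * h + 1) * (n + 2 * h * β)) / (2 * h) := by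
        rw [le_div_iff₀ (by positivity)]
        linarith
      have h4 : ((2 * (h : ℝ) + 1) * (n + 2 * h * β)) / (2 * h) =
          n + n / (2 * h) + (2 * h + 1) * β := by
        field_simp
      linarith
    have hβr : (2 * (h : ℝ) + 1) * β ≤ 6 * (Δ + 1) * n / r := by
      rw [le_div_iff₀ hrpos]
      have h1 : (k : ℝ) * β ≤ 2 * (Δ + 1) * n := by exact_mod_cast hβ
      have h2 : (2 * (h : ℝ) + 1) ≤ 3 * r := by linarith
      have h3 : (0 : ℝ) ≤ β * r := by positivity
      calc (2 * (h : ℝ) + 1) * β * r = (2 * (h : ℝ) + 1) * (β * r) := by ring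
        _ ≤ 3 * r * (β * r) := mul_le_mul_of_nonneg_right h2 h3
        _ = 3 * ((r * r) * β) := by ring
        _ = 3 * (k * β) := by rw [hr2]
        _ ≤ 3 * (2 * (Δ + 1) * n) := by linarith
        _ = _ := by ring
    have hXr : 2 * ((2 * (h : ℝ) + 1) * (g + Δ * (β + g) + 1)) ≤ 30 * (Δ + 1) ^ 2 * n / r := by
      rw [le_div_iff₀ hrpos]
      have h2 : (2 * (h : ℝ) + 1) ≤ 3 * r := by linarith
      have h3 : (0 : ℝ) ≤ (g + Δ * (β + g) + 1) * r := by positivity
      calc 2 * ((2 * (h : ℝ) + 1) * (g + Δ * (β + g) + 1)) * r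
          = 2 * ((2 * (h : ℝ) + 1) * ((g + Δ * (β + g) + 1) * r)) := by ring
        _ ≤ 2 * (3 * r * ((g + Δ * (β + g) + 1) * r)) := by
            have := mul_le_mul_of_nonneg_right h2 h3
            linarith
        _ = 6 * ((r * r) * (g + Δ * (β + g) + 1)) := by ring
        _ = 6 * (k * (g + Δ * (β + g) + 1)) := by rw [hr2]
        _ ≤ 6 * (5 * (Δ + 1) ^ 2 * n) := by linarith
        _ = _ := by ring
    have hvR : (f v : ℝ) + 1 ≤ S + 2 * ((2 * (h : ℝ) + 1) * (g + Δ * (β + g) + 1)) := by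
      exact_mod_cast hv
    have hrL : √(Real.log n) ≤ 5.3 * r := by
      apply Real.sqrt_le_iff.2
      refine ⟨by positivity, ?_⟩
      have : (5.3 * r) ^ 2 = 28.09 * (r * r) := by ring
      rw [this, hr2]
      have : (1 : ℝ) ≤ k := by exact_mod_cast hkpos
      linarith
    have hfinal : 37 * (Δ + 1) ^ 2 * n / r ≤ 200 * ((Δ : ℝ) + 1) ^ 2 * n / √(Real.log n) := by
      rw [div_le_div_iff₀ hrpos hsq]
      calc 37 * ((Δ : ℝ) + 1) ^ 2 * n * √(Real.log n) ≤ 37 * (Δ + 1) ^ 2 * n * (5.3 * r) :=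
            mul_le_mul_of_nonneg_left hrL (by positivity)
        _ = 196.1 * (((Δ : ℝ) + 1) ^ 2 * n * r) := by ring
        _ ≤ 200 * (((Δ : ℝ) + 1) ^ 2 * n * r) := by
            apply mul_le_mul_of_nonneg_right (by norm_num) (by positivity)
        _ = _ := by ring
    have hsum : (n : ℝ) / r + 6 * (Δ + 1) * n / r + 30 * (Δ + 1) ^ 2 * n / r ≤
        37 * (Δ + 1) ^ 2 * n / r := by
      rw [← add_div, ← add_div]
      apply div_le_div_of_nonneg_right _ hrpos.le
      have h4 : (0 : ℝ) ≤ Δ * n := by positivity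
      have h5 : (0 : ℝ) ≤ Δ * Δ * n := by positivity
      nlinarith
    linarith

end Alp
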