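import Mathlib

/-! The packing lemma: free lifts in a forest. -/

namespace Alp
open Finset

/-- Rank of an element inside its class. -/
theorem rank_lt {U : Type*} [Fintype U] {N : ℕ} (e : U ≃ Fin N) (C : U → Prop) [DecidablePred C]
    (u : U) (hu : C u) :
    (univ.filter (fun v => C v ∧ e v < e u)).card < (univ.filter (fun v => C v)).card := by
  apply Finset.card_lt_card
  rw [Finset.ssubset_iff_of_subset]
  · exact ⟨u, by simp [hu], by simp⟩
  · intro v hv
    simp only [mem_filter, mem_univ, true_and] at hv ⊢
    exact hv.1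

theorem rank_inj {U : Type*} [Fintype U] {N : ℕ} (e : U ≃ Fin N) (C : U → Prop) [DecidablePred C]
    (u u' : U) (hu : C u) (hu' : C u')
    (h : (univ.filter (fun v => C v ∧ e v < e u)).card =
      (univ.filter (fun v => C v ∧ e v < e u')).card) : u = u' := by
  by_contra hne
  have key : ∀ a b : U, C a → C b → e a < e b →
      (univ.filter (fun v => C v ∧ e v < e a)).card < (univ.filter (fun v => C v ∧ e v < e b)).card := by
    intro a b ha hb hab
    apply Finset.card_lt_card
    rw [Finset.ssubset_iff_of_subset]
    · exact ⟨a, by simp [ha, hab], by simp⟩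
    · intro v hv
      simp only [mem_filter, mem_univ, true_and] at hv ⊢
      exact ⟨hv.1, lt_trans hv.2 hab⟩
  rcases lt_trichotomy (e u) (e u') with h1 | h1 | h1
  · have := key u u' hu hu' h1; omega
  · exact hne (e.injective h1)
  · have := key u' u hu' hu h1; omega

/-- Solving the lift equation. -/
theorem solve_lift (Q q A c : ℕ) (hq : Nat.Coprime q Q) (hQ : 0 < Q) :
    ∃ k < Q, A + q * k ≡ c [MOD Q] := by
  have hQ0 : NeZero Q := ⟨hQ.ne'⟩
  let u : (ZMod Q)ˣ := ZMod.unitOfCoprime q hq
  let x : ZMod Q := (↑u⁻¹ : ZMod Q) * ((c : ZMod Q) - (A : ZMod Q))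
  refine ⟨x.val, ZMod.val_lt x, ?_⟩
  rw [← ZMod.natCast_eq_natCast_iff]
  push_cast
  rw [ZMod.natCast_zmod_val]
  have : (q : ZMod Q) = (u : ZMod Q) := (ZMod.coe_unitOfCoprime q hq).symm
  rw [this]
  simp only [x]
  rw [← mul_assoc, Units.mul_inv, one_mul]
  ring

theorem div_mod_unique (p a b x y : ℕ) (ha : a < p) (hb : b < p) (h : a + p * x = b + p * y) :
    a = b ∧ x = y := by
  have h1 : (a + p * x) % p = (b + p * y) % p := by rw [h]
  rw [Nat.add_mul_mod_self_left, Nat.add_mul_mod_self_left, Nat.mod_eq_of_lt ha,
    Nat.mod_eq_of_lt hb] at h1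
  subst h1
  refine ⟨rfl, ?_⟩
  have : p * x = p * y := by omega
  exact Nat.eq_of_mul_eq_mul_left (by omega) this

/-- The packing lemma.  `pos u w` is the position of the `w`-th copy of template vertex `u`. -/
theorem packing {U : Type*} [Fintype U] (p s t : ℕ) (hp : 0 < p) (hs : 0 < s)
    (ht : 0 < t) (hst : Nat.Coprime s t)
    (side : U → Bool) (res : U → ℕ) (hres : ∀ u, res u < p) (par : U → Option U) (rk : U → ℕ)
    (hrk : ∀ u v, par u = some v → rk v < rk u)
    (hside : ∀ u v, par u = some v → side v = !side u)
    (hL : ∀ z, Nat.card {u // side u = true ∧ res u = z} ≤ s)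
    (hH : ∀ z, Nat.card {u // side u = false ∧ res u = z} ≤ t)
    (hE : ∀ z, Nat.card {u // ∃ v, par u = some v ∧ (res u + res v) % p = z} ≤ s + t) :
    ∃ pos : U → ℕ → ℕ,
      (∀ u w, pos u w % p = res u) ∧
      (∀ u w, side u = true → p * s * w ≤ pos u w ∧ pos u w < p * s * (w + s + t)) ∧
      (∀ u w, side u = false → p * t * w ≤ pos u w ∧ pos u w < p * t * (w + s + t)) ∧
      (∀ u u' w w' a b, side u = true → side u' = true →
        pos u w + p * s * a = pos u' w' + p * s * b → u = u' ∧ w + a = w' + b) ∧
      (∀ u u' w w' a b, side u = false → side u' = false →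
        pos u w + p * t * a = pos u' w' + p * t * b → u = u' ∧ w + a = w' + b) ∧
      (∀ u v u' v' w w', par u = some v → par u' = some v' →
        pos u w + pos v w = pos u' w' + pos v' w' → u = u' ∧ w = w') := by
  classical
  have hcard : ∀ (P : U → Prop) (iP : DecidablePred P),
      (univ.filter P).card = Nat.card {u // P u} := by
    intro P iP
    rw [Nat.card_eq_fintype_card, Fintype.card_subtype]
  set Q := s + t with hQdef
  have hQ : 0 < Q := by omega
  let e := Fintype.equivFin U
  -- step size
  let q : U → ℕ := fun u => if side u = true then s else t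
  have hqs : ∀ u, side u = true → q u = s := fun u h => by simp [q, h]
  have hqt : ∀ u, side u = false → q u = t := fun u h => by simp [q, h]
  have hqpos : ∀ u, 0 < q u := fun u => by
    by_cases h : side u = true
    · rw [hqs u h]; exact hs
    · rw [hqt u (by simpa using h)]; exact ht
  have hcop : ∀ u, Nat.Coprime (q u) Q := by
    intro u
    by_cases h : side u = true
    · rw [hqs u h, hQdef]; simpa using hst
    · rw [hqt u (by simpa using h), hQdef]; simpa using hst.symm
  -- xi
  let ξ : U → ℕ := fun u => (univ.filter (fun v => (side v = side u ∧ res v = res u) ∧ e v < e u)).card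
  have hξlt : ∀ u, ξ u < q u := by
    intro u
    have h1 := rank_lt e (fun v => side v = side u ∧ res v = res u) u ⟨rfl, rfl⟩
    have h2 : (univ.filter (fun v => side v = side u ∧ res v = res u)).card ≤ q u := by
      rw [hcard]
      by_cases h : side u = true
      · rw [hqs u h]
        simp only [h]
        exact hL (res u)
      · have h' : side u = false := by simpa using h
        rw [hqt u h']
        simp only [h']
        exact hH (res u)
    exact lt_of_lt_of_le h1 h2
  have hξinj : ∀ u u', side u = side u' → res u = res u' → ξ u = ξ u' → u = u' := by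
    intro u u' h1 h2 h3
    apply rank_inj e (fun v => side v = side u ∧ res v = res u) u u' ⟨rfl, rfl⟩ ⟨h1.symm, h2.symm⟩
    simp only [ξ] at h3
    rw [h3]
    simp only [h1, h2]
  -- edge classes
  let zc : U → ℕ := fun u => match par u with
    | some v => (res u + res v) % p
    | none => 0
  have hzc : ∀ u v, par u = some v → zc u = (res u + res v) % p := by
    intro u v h; simp only [zc, h]
  let IsE : U → Prop := fun u => ∃ v, par u = some v
  let c : U → ℕ := fun u => (univ.filter (fun v => (IsE v ∧ zc v = zc u) ∧ e v < e u)).card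
  have hclt : ∀ u, IsE u → c u < Q := by
    intro u hu
    have h1 := rank_lt e (fun v => IsE v ∧ zc v = zc u) u ⟨hu, rfl⟩
    have h2 : (univ.filter (fun v => IsE v ∧ zc v = zc u)).card ≤ Q := by
      rw [hcard]
      refine le_trans (Nat.card_le_card_of_injective
        (fun x : {v // IsE v ∧ zc v = zc u} =>
          (⟨x.1, by
            obtain ⟨v, hv⟩ := x.2.1
            exact ⟨v, hv, by rw [← hzc _ _ hv]; exact x.2.2⟩⟩ :
            {y // ∃ v, par y = some v ∧ (res y + res v) % p = zc u})) ?_) (hE (zc u))
      intro a b hab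
      simpa [Subtype.ext_iff] using hab
    exact lt_of_lt_of_le h1 h2
  have hcinj : ∀ u u', IsE u → IsE u' → zc u = zc u' → c u = c u' → u = u' := by
    intro u u' h1 h2 h3 h4
    apply rank_inj e (fun v => IsE v ∧ zc v = zc u) u u' ⟨h1, rfl⟩ ⟨h2, h3.symm⟩
    simp only [c] at h4
    rw [h4]
    simp only [h3]
  -- lifts
  have hk : ∀ N : ℕ, ∃ k : U → ℕ, (∀ u, k u < Q) ∧ ∀ u v, rk u < N → par u = some v →
      (res u + res v) / p + ξ u + ξ v + q v * k v + q u * k u ≡ c u [MOD Q] := by
    intro N
    induction N with
    | zero => exact ⟨fun _ => 0, fun _ => hQ, fun u v h => absurd h (by omega)⟩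
    | succ N ih =>
      obtain ⟨k, hk1, hk2⟩ := ih
      have hsol : ∀ u : U, ∃ x < Q, ∀ v, par u = some v →
          (res u + res v) / p + ξ u + ξ v + q v * k v + q u * x ≡ c u [MOD Q] := by
        intro u
        cases hpu : par u with
        | none => exact ⟨0, hQ, fun v hv => by simp at hv⟩
        | some v =>
          obtain ⟨x, hx1, hx2⟩ := solve_lift Q (q u) ((res u + res v) / p + ξ u + ξ v + q v * k v)
            (c u) (hcop u) hQ
          refine ⟨x, hx1, fun v' hv' => ?_⟩
          have : v = v' := by simpa using hv'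
          rw [← this]; exact hx2
      choose x hx1 hx2 using hsol
      refine ⟨fun u => if rk u = N then x u else k u, ?_, ?_⟩
      · intro u; dsimp only; split_ifs
        · exact hx1 u
        · exact hk1 u
      · intro u v hu hv
        have hvu := hrk u v hv
        have hvN : rk v ≠ N := by omega
        dsimp only
        rw [if_neg hvN]
        by_cases h : rk u = N
        · rw [if_pos h]; exact hx2 u v hv
        · rw [if_neg h]; exact hk2 u v (by omega) hv
  obtain ⟨B, hB⟩ : ∃ B, ∀ u, rk u < B := by
    refine ⟨(univ.sup rk) + 1, fun u => Nat.lt_succ_of_le (Finset.le_sup (f := rk) (mem_univ u))⟩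
  obtain ⟨k, hk1, hk2⟩ := hk B
  have hk2' : ∀ u v, par u = some v →
      (res u + res v) / p + ξ u + ξ v + q v * k v + q u * k u ≡ c u [MOD Q] :=
    fun u v h => hk2 u v (hB u) h
  refine ⟨fun u w => res u + p * (ξ u + q u * (k u + w)), ?_, ?_, ?_, ?_, ?_, ?_⟩
  · intro u w
    dsimp only
    rw [Nat.add_mul_mod_self_left, Nat.mod_eq_of_lt (hres u)]
  · intro u w hu
    have h1 := hξlt u
    have h2 := hk1 u
    have h3 := hres u
    rw [hqs u hu] at h1
    dsimp only
    rw [hqs u hu]
    constructor
    · calc p * s * w ≤ p * (s * (k u + w)) := by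
            rw [mul_assoc]; exact Nat.mul_le_mul_left _ (Nat.mul_le_mul_left _ (by omega))
        _ ≤ _ := by nlinarith [Nat.zero_le (p * ξ u)]
    · have h4 : k u + w + 1 ≤ w + s + t := by omega
      have h5 : ξ u + 1 + s * (k u + w) ≤ s * (w + s + t) := by
        calc ξ u + 1 + s * (k u + w) ≤ s + s * (k u + w) := by omega
          _ = s * (k u + w + 1) := by ring
          _ ≤ s * (w + s + t) := Nat.mul_le_mul_left _ h4
      calc res u + p * (ξ u + s * (k u + w)) < p + p * (ξ u + s * (k u + w)) := by omega
        _ = p * (ξ u + 1 + s * (k u + w)) := by ring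
        _ ≤ p * (s * (w + s + t)) := Nat.mul_le_mul_left _ h5
        _ = p * s * (w + s + t) := by ring
  · intro u w hu
    have h1 := hξlt u
    have h2 := hk1 u
    have h3 := hres u
    rw [hqt u hu] at h1
    dsimp only
    rw [hqt u hu]
    constructor
    · calc p * t * w ≤ p * (t * (k u + w)) := by
            rw [mul_assoc]; exact Nat.mul_le_mul_left _ (Nat.mul_le_mul_left _ (by omega))
        _ ≤ _ := by nlinarith [Nat.zero_le (p * ξ u)]
    · have h4 : k u + w + 1 ≤ w + s + t := by omega
      have h5 : ξ u + 1 + t * (k u + w) ≤ t * (w + s + t) := by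
        calc ξ u + 1 + t * (k u + w) ≤ t + t * (k u + w) := by omega
          _ = t * (k u + w + 1) := by ring
          _ ≤ t * (w + s + t) := Nat.mul_le_mul_left _ h4
      calc res u + p * (ξ u + t * (k u + w)) < p + p * (ξ u + t * (k u + w)) := by omega
        _ = p * (ξ u + 1 + t * (k u + w)) := by ring
        _ ≤ p * (t * (w + s + t)) := Nat.mul_le_mul_left _ h5
        _ = p * t * (w + s + t) := by ring
  · intro u u' w w' a b hu hu' h
    have hq1 := hqs u hu
    have hq2 := hqs u' hu'
    have hx1 := hξlt u
    have hx2 := hξlt u'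
    rw [hq1] at hx1
    rw [hq2] at hx2
    dsimp only at h
    rw [hq1, hq2] at h
    have h' : res u + p * (ξ u + s * (k u + w + a)) = res u' + p * (ξ u' + s * (k u' + w' + b)) := by
      have e1 : res u + p * (ξ u + s * (k u + w + a)) =
        res u + p * (ξ u + s * (k u + w)) + p * s * a := by ring
      have e2 : res u' + p * (ξ u' + s * (k u' + w' + b)) =
        res u' + p * (ξ u' + s * (k u' + w')) + p * s * b := by ring
      rw [e1, e2]; exact h
    obtain ⟨r1, r2⟩ := div_mod_unique p _ _ _ _ (hres u) (hres u') h'
    obtain ⟨r3, r4⟩ := div_mod_unique s _ _ _ _ hx1 hx2 r2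
    have huu : u = u' := hξinj u u' (by rw [hu, hu']) r1 r3
    subst huu
    exact ⟨rfl, by omega⟩
  · intro u u' w w' a b hu hu' h
    have hq1 := hqt u hu
    have hq2 := hqt u' hu'
    have hx1 := hξlt u
    have hx2 := hξlt u'
    rw [hq1] at hx1
    rw [hq2] at hx2
    dsimp only at h
    rw [hq1, hq2] at h
    have h' : res u + p * (ξ u + t * (k u + w + a)) = res u' + p * (ξ u' + t * (k u' + w' + b)) := by
      have e1 : res u + p * (ξ u + t * (k u + w + a)) =
        res u + p * (ξ u + t * (k u + w)) + p * t * a := by ring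
      have e2 : res u' + p * (ξ u' + t * (k u' + w' + b)) =
        res u' + p * (ξ u' + t * (k u' + w')) + p * t * b := by ring
      rw [e1, e2]; exact h
    obtain ⟨r1, r2⟩ := div_mod_unique p _ _ _ _ (hres u) (hres u') h'
    obtain ⟨r3, r4⟩ := div_mod_unique t _ _ _ _ hx1 hx2 r2
    have huu : u = u' := hξinj u u' (by rw [hu, hu']) r1 r3
    subst huu
    exact ⟨rfl, by omega⟩
  · intro u v u' v' w w' huv huv' h
    -- the sum of the two steps is Q
    have hqq : ∀ u v, par u = some v → q u + q v = Q := by
      intro u v huv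
      have := hside u v huv
      by_cases h : side u = true
      · rw [hqs u h, hqt v (by rw [this, h]; rfl)]
      · have h' : side u = false := by simpa using h
        rw [hqt u h', hqs v (by rw [this, h']; rfl)]; omega
    have hsum : ∀ u v w, par u = some v →
        (res u + p * (ξ u + q u * (k u + w))) + (res v + p * (ξ v + q v * (k v + w))) =
        (res u + res v) % p + p * (((res u + res v) / p + ξ u + ξ v + q v * k v + q u * k u)
          + Q * w) := by
      intro u v w huv
      have e1 := Nat.mod_add_div (res u + res v) p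
      have e2 := hqq u v huv
      rw [← e2]
      calc (res u + p * (ξ u + q u * (k u + w))) + (res v + p * (ξ v + q v * (k v + w)))
          = (res u + res v) + p * (ξ u + ξ v + q v * k v + q u * k u + (q u + q v) * w) := by ring
        _ = ((res u + res v) % p + p * ((res u + res v) / p))
            + p * (ξ u + ξ v + q v * k v + q u * k u + (q u + q v) * w) := by rw [e1]
        _ = _ := by ring
    dsimp only at h
    rw [hsum u v w huv, hsum u' v' w' huv'] at h
    obtain ⟨r1, r2⟩ := div_mod_unique p _ _ _ _ (Nat.mod_lt _ hp) (Nat.mod_lt _ hp) h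
    have m1 := hk2' u v huv
    have m2 := hk2' u' v' huv'
    have hcc : c u ≡ c u' [MOD Q] := by
      have r3 : ((res u + res v) / p + ξ u + ξ v + q v * k v + q u * k u) ≡
        ((res u' + res v') / p + ξ u' + ξ v' + q v' * k v' + q u' * k u') [MOD Q] := by
        have := congrArg (· % Q) r2
        simpa [Nat.ModEq, Nat.add_mul_mod_self_left] using this
      exact m1.symm.trans (r3.trans m2)
    have hcc' : c u = c u' := by
      have := hclt u ⟨v, huv⟩
      have := hclt u' ⟨v', huv'⟩
      exact Nat.ModEq.eq_of_lt_of_lt hcc (by assumption) (by assumption)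
    have huu : u = u' := hcinj u u' ⟨v, huv⟩ ⟨v', huv'⟩ (by rw [hzc u v huv, hzc u' v' huv']; exact r1) hcc'
    subst huu
    have hvv : v = v' := by
      rw [huv] at huv'
      simpa using huv'
    subst hvv
    refine ⟨rfl, ?_⟩
    have : Q * w = Q * w' := by omega
    exact Nat.eq_of_mul_eq_mul_left hQ this

end Alp
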