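import Pool.Agent.Work.MP_f04a5a_co.Pack

/-! Placement of copies of one shape with residues modulo an odd number: boundary vertices get
residue zero and no other vertex does. -/

namespace Alp
open Finset

/-- Weight of a vertex: `2 h` for a boundary vertex, `1` otherwise. -/
def wt (h : ℕ) (b : Bool) : ℕ := if b = true then 2 * h else 1

theorem load_bound (M h R : ℕ) (S : Finset (Fin M × Fin (2 * h) × Fin R))
    (I : Finset (Fin R)) (bd : Fin R → Bool) (hSI : ∀ u ∈ S, u.2.2 ∈ I)
    (huniq : ∀ u ∈ S, ∀ u' ∈ S, bd u.2.2 = false → u.1 = u'.1 → u.2.2 = u'.2.2 → u.2.1 = u'.2.1) :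
    S.card ≤ M * ∑ i ∈ I, wt h (bd i) := by
  classical
  rw [Finset.card_eq_sum_card_fiberwise (f := fun u => (u.1, u.2.2))
    (t := (univ : Finset (Fin M)) ×ˢ I)
    (by
      intro u hu
      rw [mem_coe, mem_product]
      exact ⟨mem_univ _, hSI u hu⟩)]
  rw [Finset.sum_product]
  have hfib : ∀ j : Fin M, ∀ i ∈ I,
      (S.filter (fun u => (u.1, u.2.2) = (j, i))).card ≤ wt h (bd i) := by
    intro j i _
    unfold wt
    split_ifs with hb
    · calc (S.filter (fun u => (u.1, u.2.2) = (j, i))).card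
          ≤ (univ : Finset (Fin (2 * h))).card := by
            apply Finset.card_le_card_of_injOn (fun u => u.2.1)
            · intro u _; exact mem_coe.2 (mem_univ _)
            · intro u hu u' hu' huu
              rw [mem_coe, mem_filter, Prod.mk.injEq] at hu hu'
              exact Prod.ext (hu.2.1.trans hu'.2.1.symm)
                (Prod.ext huu (hu.2.2.trans hu'.2.2.symm))
        _ = 2 * h := by simp
    · rw [Finset.card_le_one]
      intro u hu u' hu'
      rw [mem_filter, Prod.mk.injEq] at hu hu'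
      have e1 := hu.2.1.trans hu'.2.1.symm
      have e2 := hu.2.2.trans hu'.2.2.symm
      have e3 := huniq u hu.1 u' hu'.1 (by rw [hu.2.2]; simpa using hb) e1 e2
      exact Prod.ext e1 (Prod.ext e3 e2)
  calc ∑ j : Fin M, ∑ i ∈ I, (S.filter (fun u => (u.1, u.2.2) = (j, i))).card
      ≤ ∑ _j : Fin M, ∑ i ∈ I, wt h (bd i) :=
        Finset.sum_le_sum (fun j _ => Finset.sum_le_sum (fun i hi => hfib j i hi))
    _ = M * ∑ i ∈ I, wt h (bd i) := by
        rw [Finset.sum_const, card_univ, Fintype.card_fin, smul_eq_mul]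

theorem sum_fin_range (R : ℕ) (q : ℕ → Prop) [DecidablePred q] (F : ℕ → ℕ) :
    ∑ i ∈ (univ : Finset (Fin R)).filter (fun i => q i.val), F i.val =
      ∑ i ∈ (range R).filter q, F i := by
  apply Finset.sum_bij (fun i _ => i.val)
  · intro i hi
    rw [mem_filter] at hi
    rw [mem_filter, mem_range]
    exact ⟨i.isLt, hi.2⟩
  · intro i _ j _ hij
    exact Fin.ext hij
  · intro i hi
    rw [mem_filter, mem_range] at hi
    exact ⟨⟨i, hi.1⟩, by rw [mem_filter]; exact ⟨mem_univ _, hi.2⟩, rfl⟩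
  · intro i _; rfl

theorem two_mul_mod (h a b : ℕ) (ha : a < 2 * h) (hb : b < 2 * h)
    (hab : ((a + 1) + (a + 1)) % (2 * h + 1) = ((b + 1) + (b + 1)) % (2 * h + 1)) : a = b := by
  have h1 : (a + 1) + (a + 1) = (2 * h + 1) * (((a + 1) + (a + 1)) / (2 * h + 1)) +
    ((a + 1) + (a + 1)) % (2 * h + 1) := (Nat.div_add_mod _ _).symm
  have h2 : (b + 1) + (b + 1) = (2 * h + 1) * (((b + 1) + (b + 1)) / (2 * h + 1)) +
    ((b + 1) + (b + 1)) % (2 * h + 1) := (Nat.div_add_mod _ _).symm
  have h3 : ((a + 1) + (a + 1)) / (2 * h + 1) < 2 := Nat.div_lt_of_lt_mul (by omega)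
  have h4 : ((b + 1) + (b + 1)) / (2 * h + 1) < 2 := Nat.div_lt_of_lt_mul (by omega)
  generalize ((a + 1) + (a + 1)) / (2 * h + 1) = x at h1 h3
  generalize ((b + 1) + (b + 1)) / (2 * h + 1) = y at h2 h4
  have hx : x = 0 ∨ x = 1 := by omega
  have hy : y = 0 ∨ y = 1 := by omega
  rcases hx with rfl | rfl <;> rcases hy with rfl | rfl <;> omega

theorem two_mul_mod_ne (h a : ℕ) (ha : a < 2 * h) :
    ((a + 1) + (a + 1)) % (2 * h + 1) ≠ 0 := by
  intro h0
  have h1 : (a + 1) + (a + 1) = (2 * h + 1) * (((a + 1) + (a + 1)) / (2 * h + 1)) +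
    ((a + 1) + (a + 1)) % (2 * h + 1) := (Nat.div_add_mod _ _).symm
  have h3 : ((a + 1) + (a + 1)) / (2 * h + 1) < 2 := Nat.div_lt_of_lt_mul (by omega)
  rw [h0] at h1
  generalize ((a + 1) + (a + 1)) / (2 * h + 1) = x at h1 h3
  have hx : x = 0 ∨ x = 1 := by omega
  rcases hx with rfl | rfl <;> omega

theorem class_placeB (R : ℕ) (pp : ℕ → ℕ) (sd bd : ℕ → Bool)
    (hpp : ∀ i, 0 < i → i < R → pp i < i)
    (hsd : ∀ i, 0 < i → i < R → sd i = !sd (pp i))
    (h : ℕ) (hh : 0 < h) (A B : ℕ) (hA0 : 0 < A) (hB0 : 0 < B)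
    (hA : ∑ i ∈ (range R).filter (fun i => sd i = true), wt h (bd i) = A)
    (hB : ∑ i ∈ (range R).filter (fun i => sd i = false), wt h (bd i) = B)
    (K N : ℕ) (hK : 0 < K) :
    ∃ (P : ℕ) (pos : ℕ → ℕ → ℕ), P ≤ N ∧
      K * (N - P) ≤ N + 2 * h * K * ((A * K + 1) * (A * K * (A + B) + 1) + 1) ∧
      (∀ r < P, ∀ i < R, sd i = true → pos r i < (2 * h + 1) * (A * (N / (2 * h)))) ∧
      (∀ r < P, ∀ i < R, sd i = false → pos r i < (2 * h + 1) * (B * (N / (2 * h)))) ∧
      (∀ r < P, ∀ i < R, ∀ r' < P, ∀ i' < R, sd i = sd i' → pos r i = pos r' i' →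
        r = r' ∧ i = i') ∧
      (∀ r < P, ∀ i < R, 0 < i → ∀ r' < P, ∀ i' < R, 0 < i' →
        pos r i + pos r (pp i) = pos r' i' + pos r' (pp i') → r = r' ∧ i = i') ∧
      (∀ r < P, ∀ i < R, (pos r i % (2 * h + 1) = 0 ↔ bd i = true)) ∧
      (∀ r < P, ∀ i < R, 0 < i → (pos r i + pos r (pp i)) % (2 * h + 1) = 0 →
        bd i = true ∧ bd (pp i) = true) := by
  classical
  set M := A * K with hM
  have hMpos : 0 < M := Nat.mul_pos hA0 hK
  set s := M * A with hs
  set t := M * B + 1 with ht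
  obtain ⟨Q, hQ⟩ : ∃ Q, Q = s + t := ⟨_, rfl⟩
  have hspos : 0 < s := Nat.mul_pos hMpos hA0
  have htpos : 0 < t := by omega
  have hcop : Nat.Coprime s t := by
    have h1 : Nat.Coprime A t := by
      rw [ht, hM]
      have : A * K * B + 1 = A * (K * B) + 1 := by ring
      rw [this]
      simp
    have h2 : Nat.Coprime K t := by
      rw [ht, hM]
      have : A * K * B + 1 = K * (A * B) + 1 := by ring
      rw [this]
      simp
    rw [hs, hM]
    exact Nat.Coprime.mul_left (Nat.Coprime.mul_left h1 h2) h1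
  have hQe : Q = M * (A + B) + 1 := by rw [hQ, hs, ht]; ring
  have hAB : ∑ i ∈ range R, wt h (bd i) = A + B := by
    rw [← hA, ← hB, ← Finset.sum_filter_add_sum_filter_not (range R) (fun i => sd i = true)]
    congr 1
    apply Finset.sum_congr _ (fun _ _ => rfl)
    apply Finset.filter_congr
    intro x _
    simp
  let side : Fin M × Fin (2 * h) × Fin R → Bool := fun u => sd u.2.2.val
  let res : Fin M × Fin (2 * h) × Fin R → ℕ := fun u =>
    if bd u.2.2.val = true then 0 else u.2.1.val + 1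
  have hres0 : ∀ u, bd u.2.2.val = true → res u = 0 := fun u hu => by
    simp only [res]; rw [if_pos hu]
  have hres1 : ∀ u, bd u.2.2.val = false → res u = u.2.1.val + 1 := fun u hu => by
    simp only [res]; rw [if_neg (by rw [hu]; simp)]
  have hreslt : ∀ u, res u < 2 * h + 1 := by
    intro u
    cases hb : bd u.2.2.val with
    | true => rw [hres0 u hb]; omega
    | false => rw [hres1 u hb]; have := u.2.1.isLt; omega
  let par : Fin M × Fin (2 * h) × Fin R → Option (Fin M × Fin (2 * h) × Fin R) := fun u =>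
    if h0 : 0 < u.2.2.val then
      some (u.1, u.2.1, ⟨pp u.2.2.val, lt_trans (hpp _ h0 u.2.2.isLt) u.2.2.isLt⟩) else none
  have hparspec : ∀ u v, par u = some v → 0 < u.2.2.val ∧ v.1 = u.1 ∧ v.2.1 = u.2.1 ∧
      v.2.2.val = pp u.2.2.val := by
    intro u v hu
    simp only [par] at hu
    split_ifs at hu with h0
    simp only [Option.some.injEq] at hu
    rw [← hu]
    exact ⟨h0, rfl, rfl, rfl⟩
  have hconv : ∀ (q : Fin M × Fin (2 * h) × Fin R → Prop) [DecidablePred q],
      Nat.card {u // q u} = (univ.filter q).card := by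
    intro q _
    rw [Nat.card_eq_fintype_card, Fintype.card_subtype]
  have hload : ∀ (bb : Bool) (z : ℕ),
      Nat.card {u : Fin M × Fin (2 * h) × Fin R // side u = bb ∧ res u = z} ≤
      M * ∑ i ∈ (range R).filter (fun i => sd i = bb), wt h (bd i) := by
    intro bb z
    rw [hconv]
    have h1 := load_bound M h R
      (univ.filter (fun u : Fin M × Fin (2 * h) × Fin R => side u = bb ∧ res u = z))
      (univ.filter (fun i : Fin R => sd i.val = bb)) (fun i => bd i.val)
      (by
        intro u hu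
        rw [mem_filter] at hu ⊢
        exact ⟨mem_univ _, hu.2.1⟩)
      (by
        intro u hu u' hu' hb e1 e2
        rw [mem_filter] at hu hu'
        have z1 := hu.2.2
        have z2 := hu'.2.2
        rw [hres1 u hb] at z1
        rw [hres1 u' (by rw [← e2]; exact hb)] at z2
        exact Fin.ext (by omega))
    rw [sum_fin_range R (fun i => sd i = bb) (fun i => wt h (bd i))] at h1
    exact h1
  -- the residue of an edge sum
  have hedge : ∀ u v, par u = some v → (res u + res v) % (2 * h + 1) = 0 →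
      bd u.2.2.val = true ∧ bd v.2.2.val = true := by
    intro u v huv hz
    obtain ⟨a1, a2, a3, a4⟩ := hparspec u v huv
    have hlt := u.2.1.isLt
    cases hb : bd u.2.2.val with
    | true =>
      cases hb' : bd v.2.2.val with
      | true => exact ⟨rfl, rfl⟩
      | false =>
        rw [hres0 u hb, hres1 v hb', a3, zero_add, Nat.mod_eq_of_lt (by omega)] at hz
        omega
    | false =>
      cases hb' : bd v.2.2.val with
      | true =>
        rw [hres1 u hb, hres0 v hb', add_zero, Nat.mod_eq_of_lt (by omega)] at hz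
        omega
      | false =>
        rw [hres1 u hb, hres1 v hb', a3] at hz
        exact absurd hz (two_mul_mod_ne h _ hlt)
  have hloadE : ∀ z : ℕ, Nat.card {u : Fin M × Fin (2 * h) × Fin R //
      ∃ v, par u = some v ∧ (res u + res v) % (2 * h + 1) = z} ≤ M * (A + B) := by
    intro z
    rw [hconv, ← hAB]
    have h1 := load_bound M h R
      (univ.filter (fun u : Fin M × Fin (2 * h) × Fin R =>
        ∃ v, par u = some v ∧ (res u + res v) % (2 * h + 1) = z))
      (univ.filter (fun i : Fin R => True)) (fun i => bd i.val)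
      (by
        intro u hu
        rw [mem_filter]
        exact ⟨mem_univ _, trivial⟩)
      (by
        intro u hu u' hu' hb e1 e2
        rw [mem_filter] at hu hu'
        obtain ⟨_, v, hv, z1⟩ := hu
        obtain ⟨_, v', hv', z2⟩ := hu'
        obtain ⟨a1, a2, a3, a4⟩ := hparspec u v hv
        obtain ⟨a1', a2', a3', a4'⟩ := hparspec u' v' hv'
        have hlt := u.2.1.isLt
        have hlt' := u'.2.1.isLt
        have hb' : bd u'.2.2.val = false := by rw [← e2]; exact hb
        have e3 : v.2.2.val = v'.2.2.val := by rw [a4, a4', e2]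
        rw [← z2] at z1
        rw [hres1 u hb, hres1 u' hb'] at z1
        cases hbv : bd v.2.2.val with
        | true =>
          rw [hres0 v hbv, hres0 v' (by rw [← e3]; exact hbv), add_zero, add_zero,
            Nat.mod_eq_of_lt (by omega), Nat.mod_eq_of_lt (by omega)] at z1
          exact Fin.ext (by omega)
        | false =>
          rw [hres1 v hbv, hres1 v' (by rw [← e3]; exact hbv), a3, a3'] at z1
          exact Fin.ext (two_mul_mod h _ _ hlt hlt' z1))
    rw [sum_fin_range R (fun _ => True) (fun i => wt h (bd i))] at h1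
    simpa using h1
  obtain ⟨pos, p1, p2, p3, p4, p5, p6⟩ := packing (2 * h + 1) s t (by omega) hspos htpos hcop side
    res hreslt par (fun u => u.2.2.val)
    (by
      intro u v huv
      obtain ⟨h1, h2, h3, h4⟩ := hparspec u v huv
      rw [h4]; exact hpp _ h1 u.2.2.isLt)
    (by
      intro u v huv
      obtain ⟨h1, h2, h3, h4⟩ := hparspec u v huv
      simp only [side]
      rw [h4]
      have := hsd _ h1 u.2.2.isLt
      rw [this]; simp)
    (by
      intro z
      refine le_trans (hload true z) ?_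
      rw [hA])
    (by
      intro z
      refine le_trans (hload false z) ?_
      rw [hB]; omega)
    (by
      intro z
      refine le_trans (hloadE z) ?_
      rw [← hQ, hQe]; omega)
  -- number of blocks
  obtain ⟨N', hN1, hN2, hN3⟩ : ∃ N', N / (2 * h) = N' ∧ 2 * h * N' ≤ N ∧ N < 2 * h * N' + 2 * h := by
    refine ⟨N / (2 * h), rfl, Nat.mul_div_le N (2 * h), ?_⟩
    have := Nat.lt_mul_div_succ N (show 0 < 2 * h by omega)
    rw [mul_add, mul_one] at this
    exact this
  obtain ⟨D, hDN, hND⟩ : ∃ D, (M + 1) * D ≤ N' ∧ N' < (M + 1) * D + (M + 1) := by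
    refine ⟨N' / (M + 1), Nat.mul_div_le N' (M + 1), ?_⟩
    have := Nat.lt_mul_div_succ N' (Nat.succ_pos M)
    simp only [Nat.succ_eq_add_one] at this
    rw [mul_add, mul_one] at this
    exact this
  obtain ⟨W, hW⟩ : ∃ W, W = D + 1 - Q := ⟨_, rfl⟩
  have hWD : M * W ≤ N' := by
    have : W ≤ D := by omega
    calc M * W ≤ (M + 1) * D := Nat.mul_le_mul (by omega) this
      _ ≤ N' := hDN
  have hPN : M * (2 * h * W) ≤ N := by
    calc M * (2 * h * W) = 2 * h * (M * W) := by ring
      _ ≤ 2 * h * N' := Nat.mul_le_mul_left _ hWD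
      _ ≤ N := hN2
  have hbd : ∀ r < M * (2 * h * W), r / M / (2 * h) + s + t ≤ D := by
    intro r hr
    have h1 : r / M < 2 * h * W := Nat.div_lt_of_lt_mul hr
    have h2 : r / M / (2 * h) < W := Nat.div_lt_of_lt_mul h1
    generalize r / M / (2 * h) = x at h2 ⊢
    omega
  have hmod : ∀ r, r % M < M := fun r => Nat.mod_lt _ hMpos
  have hmod2 : ∀ r, (r / M) % (2 * h) < 2 * h := fun r => Nat.mod_lt _ (by omega)
  have hrec : ∀ r r' : ℕ, r % M = r' % M → (r / M) % (2 * h) = (r' / M) % (2 * h) →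
      r / M / (2 * h) = r' / M / (2 * h) → r = r' := by
    intro r r' e1 e2 e3
    rw [← Nat.mod_add_div r M, ← Nat.mod_add_div r' M, e1,
      ← Nat.mod_add_div (r / M) (2 * h), ← Nat.mod_add_div (r' / M) (2 * h), e2, e3]
  rw [hN1]
  refine ⟨M * (2 * h * W), fun r i => if hi : i < R then
    pos (⟨r % M, hmod r⟩, ⟨(r / M) % (2 * h), hmod2 r⟩, ⟨i, hi⟩) (r / M / (2 * h)) else 0,
    hPN, ?_, ?_, ?_, ?_, ?_, ?_, ?_⟩
  · -- count
    have h1 : N' - M * W ≤ D + (M + 1) * Q := by
      by_cases hc : Q ≤ D + 1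
      · have e1 : M * W + M * Q = M * D + M := by
          rw [← mul_add, hW]
          have : D + 1 - Q + Q = D + 1 := by omega
          rw [this]; ring
        have e2 : (M + 1) * D = M * D + D := by ring
        have e3 : (M + 1) * Q = M * Q + Q := by ring
        omega
      · have e1 : W = 0 := by omega
        rw [e1]
        have e2 : (M + 1) * (D + 1) ≤ (M + 1) * Q := Nat.mul_le_mul_left _ (by omega)
        have e3 : (M + 1) * (D + 1) = (M + 1) * D + (M + 1) := by ring
        omega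
    have hKM : K ≤ M + 1 := by
      rw [hM]
      calc K = 1 * K := (one_mul K).symm
        _ ≤ A * K := Nat.mul_le_mul_right _ hA0
        _ ≤ A * K + 1 := by omega
    have h2 : N - M * (2 * h * W) ≤ 2 * h * (N' - M * W) + 2 * h := by
      have e1 : M * (2 * h * W) = 2 * h * (M * W) := by ring
      rw [e1, Nat.mul_sub]
      have : 2 * h * (M * W) ≤ 2 * h * N' := Nat.mul_le_mul_left _ hWD
      omega
    have h3 : K * D ≤ N' := le_trans (Nat.mul_le_mul_right _ hKM) hDN
    calc K * (N - M * (2 * h * W)) ≤ K * (2 * h * (D + (M + 1) * Q) + 2 * h) :=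
          Nat.mul_le_mul_left _ (le_trans h2 (Nat.add_le_add_right (Nat.mul_le_mul_left _ h1) _))
      _ = 2 * h * (K * D) + 2 * h * K * ((M + 1) * Q + 1) := by ring
      _ ≤ 2 * h * N' + 2 * h * K * ((M + 1) * Q + 1) :=
          Nat.add_le_add_right (Nat.mul_le_mul_left _ h3) _
      _ ≤ N + 2 * h * K * ((M + 1) * Q + 1) := Nat.add_le_add_right hN2 _
      _ = _ := by rw [hQe]
  · intro r hr i hi hsi
    dsimp only
    rw [dif_pos hi]
    have h1 := (p2 (⟨r % M, hmod r⟩, ⟨(r / M) % (2 * h), hmod2 r⟩, ⟨i, hi⟩) (r / M / (2 * h)) hsi).2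
    have h2 := hbd r hr
    calc _ < (2 * h + 1) * s * (r / M / (2 * h) + s + t) := h1
      _ ≤ (2 * h + 1) * s * D := Nat.mul_le_mul_left _ h2
      _ = (2 * h + 1) * (A * (M * D)) := by rw [hs]; ring
      _ ≤ (2 * h + 1) * (A * N') := Nat.mul_le_mul_left _ (Nat.mul_le_mul_left _
          (le_trans (Nat.mul_le_mul_right _ (by omega)) hDN))
  · intro r hr i hi hsi
    dsimp only
    rw [dif_pos hi]
    have h1 := (p3 (⟨r % M, hmod r⟩, ⟨(r / M) % (2 * h), hmod2 r⟩, ⟨i, hi⟩) (r / M / (2 * h)) hsi).2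
    have h2 := hbd r hr
    calc _ < (2 * h + 1) * t * (r / M / (2 * h) + s + t) := h1
      _ ≤ (2 * h + 1) * t * D := Nat.mul_le_mul_left _ h2
      _ ≤ (2 * h + 1) * (B * (M + 1)) * D := Nat.mul_le_mul_right _ (Nat.mul_le_mul_left _
          (by rw [ht, mul_add, mul_one, mul_comm B M]; omega))
      _ = (2 * h + 1) * (B * ((M + 1) * D)) := by ring
      _ ≤ (2 * h + 1) * (B * N') := Nat.mul_le_mul_left _ (Nat.mul_le_mul_left _ hDN)
  · intro r hr i hi r' hr' i' hi' hsi hpos
    dsimp only at hpos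
    rw [dif_pos hi, dif_pos hi'] at hpos
    have key : ∀ (u u' : Fin M × Fin (2 * h) × Fin R) (w w' : ℕ), side u = side u' →
        pos u w = pos u' w' → u = u' ∧ w = w' := by
      intro u u' w w' h1 h2
      cases hb : side u with
      | true =>
        have := p4 u u' w w' 0 0 hb (by rw [← h1]; exact hb) (by simpa using h2)
        simpa using this
      | false =>
        have := p5 u u' w w' 0 0 hb (by rw [← h1]; exact hb) (by simpa using h2)
        simpa using this
    obtain ⟨h1, h2⟩ := key _ _ _ _ hsi hpos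
    simp only [Prod.mk.injEq, Fin.mk.injEq] at h1
    exact ⟨hrec r r' h1.1 h1.2.1 h2, h1.2.2⟩
  · intro r hr i hi hi0 r' hr' i' hi' hi0' hpos
    have hpi := hpp i hi0 hi
    have hpi' := hpp i' hi0' hi'
    dsimp only at hpos
    rw [dif_pos hi, dif_pos hi', dif_pos (lt_trans hpi hi), dif_pos (lt_trans hpi' hi')] at hpos
    have q1 : par (⟨r % M, hmod r⟩, ⟨(r / M) % (2 * h), hmod2 r⟩, ⟨i, hi⟩) =
        some (⟨r % M, hmod r⟩, ⟨(r / M) % (2 * h), hmod2 r⟩, ⟨pp i, lt_trans hpi hi⟩) := by
      simp only [par]; rw [dif_pos hi0]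
    have q2 : par (⟨r' % M, hmod r'⟩, ⟨(r' / M) % (2 * h), hmod2 r'⟩, ⟨i', hi'⟩) =
        some (⟨r' % M, hmod r'⟩, ⟨(r' / M) % (2 * h), hmod2 r'⟩, ⟨pp i', lt_trans hpi' hi'⟩) := by
      simp only [par]; rw [dif_pos hi0']
    obtain ⟨h1, h2⟩ := p6 _ _ _ _ _ _ q1 q2 hpos
    simp only [Prod.mk.injEq, Fin.mk.injEq] at h1
    exact ⟨hrec r r' h1.1 h1.2.1 h2, h1.2.2⟩
  · intro r hr i hi
    dsimp only
    rw [dif_pos hi, p1]
    cases hb : bd i with
    | true => rw [hres0 _ hb]; simp
    | false => rw [hres1 _ hb]; simp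
  · intro r hr i hi hi0 hz
    have hpi := hpp i hi0 hi
    dsimp only at hz
    rw [dif_pos hi, dif_pos (lt_trans hpi hi), Nat.add_mod, p1, p1] at hz
    have q1 : par (⟨r % M, hmod r⟩, ⟨(r / M) % (2 * h), hmod2 r⟩, ⟨i, hi⟩) =
        some (⟨r % M, hmod r⟩, ⟨(r / M) % (2 * h), hmod2 r⟩, ⟨pp i, lt_trans hpi hi⟩) := by
      simp only [par]; rw [dif_pos hi0]
    exact hedge _ _ q1 hz

end Alp
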