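import Pool.Agent.Work.MP_f04a5a_co.WordDefs

/-! A tree with maximum degree at most three and a perfect matching whose contraction is a
caterpillar is spelled by a word. -/

namespace CatW

/-- The matching: `m v` is the partner of `v` and `pr v` is the matched pair of `v`. -/
structure Setup {V P : Type*} (T : SimpleGraph V) (m : V → V) (pr : V → P) : Prop where
  mm : ∀ v, m (m v) = v
  madj : ∀ v, T.Adj v (m v)
  pr_eq : ∀ u v, pr u = pr v ↔ u = v ∨ u = m v
  deg : ∀ v, (T.neighborSet v).ncard ≤ 3

/-- A spine with an attachment of the other pairs. -/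
structure Spine {V P : Type*} (T : SimpleGraph V) (pr : V → P) (L : List P) (A Cc : P → V) :
    Prop where
  nd : L.Nodup
  prA : ∀ g, g ∉ L → pr (A g) = g
  prC : ∀ g, g ∉ L → pr (Cc g) ∈ L
  adj : ∀ g, g ∉ L → T.Adj (Cc g) (A g)

open Classical in
/-- The pair on the spine to which a vertex belongs or at which it is attached. -/
noncomputable def home {V P : Type*} (pr : V → P) (L : List P) (Cc : P → V) (v : V) : P :=
  if pr v ∈ L then pr v else pr (Cc (pr v))

open Classical in
/-- The pairs attached at a vertex. -/
noncomputable def plist {V P : Type*} [Fintype P] (L : List P) (Cc : P → V) (c : V) : List P :=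
  (Finset.univ.filter (fun g => g ∉ L ∧ Cc g = c)).toList

section

variable {V P : Type*} {T : SimpleGraph V} {m : V → V} {pr : V → P}
  {L : List P} {A Cc : P → V}

theorem mem_plist [Fintype P] {c : V} {g : P} : g ∈ plist L Cc c ↔ g ∉ L ∧ Cc g = c := by
  simp [plist]

theorem nodup_plist [Fintype P] (c : V) : (plist L Cc c).Nodup := Finset.nodup_toList _

theorem Setup.pr_m (h : Setup T m pr) (v : V) : pr (m v) = pr v := by
  rw [h.pr_eq]; right; rfl

theorem Setup.ne_m (h : Setup T m pr) (v : V) : v ≠ m v := (h.madj v).ne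

end

variable {V P : Type*} [Fintype V] [Fintype P] {T : SimpleGraph V} {m : V → V} {pr : V → P}
  {L : List P} {A Cc : P → V}

/-- Degree count. -/
theorem plist_bound (h : Setup T m pr) (hL : Spine T pr L A Cc) (c : V) (S : Finset V)
    (hS : ∀ z ∈ S, T.Adj c z ∧ pr z ∈ L) : S.card + (plist L Cc c).length ≤ 3 := by
  classical
  have hinj : ∀ g ∈ plist L Cc c, ∀ g' ∈ plist L Cc c, A g = A g' → g = g' := by
    intro g hg g' hg' he
    rw [← hL.prA g (mem_plist.1 hg).1, he, hL.prA g' (mem_plist.1 hg').1]
  have hcard : ((plist L Cc c).toFinset.image A).card = (plist L Cc c).length := by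
    rw [Finset.card_image_of_injOn, List.toFinset_card_of_nodup (nodup_plist c)]
    intro g hg g' hg' he
    exact hinj g (by simpa using hg) g' (by simpa using hg') he
  have hdis : Disjoint S ((plist L Cc c).toFinset.image A) := by
    rw [Finset.disjoint_left]
    intro z hz hz'
    obtain ⟨g, hg, rfl⟩ := Finset.mem_image.1 hz'
    have hg' := mem_plist.1 (List.mem_toFinset.1 hg)
    have := (hS _ hz).2
    rw [hL.prA g hg'.1] at this
    exact hg'.1 this
  rw [← hcard, ← Finset.card_union_of_disjoint hdis]
  refine le_trans ?_ (h.deg c)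
  rw [← Set.ncard_coe_finset]
  apply Set.ncard_le_ncard _ (Set.toFinite _)
  intro z hz
  rw [Finset.mem_coe, Finset.mem_union] at hz
  rcases hz with hz | hz
  · exact (hS z hz).1
  · obtain ⟨g, hg, rfl⟩ := Finset.mem_image.1 hz
    have hg' := mem_plist.1 (List.mem_toFinset.1 hg)
    have := hL.adj g hg'.1
    rw [hg'.2] at this
    exact this

/-- A block: a letter with its vertices. -/
structure BlockOK (T : SimpleGraph V) (pr : V → P) (L : List P) (Cc : P → V) (e : P) (s x : V)
    (l : Lt) (b : ℕ → V) : Prop where
  ent : b 0 = s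
  ext : b (exi l) = x
  adj : ∀ d ∈ esl l, T.Adj (b d.1) (b d.2)
  inj : ∀ i < sz l, ∀ j < sz l, b i = b j → i = j
  hom : ∀ i < sz l, home pr L Cc (b i) = e
  sur : ∀ v, home pr L Cc v = e → ∃ i < sz l, b i = v

/-- The vertices of a block. -/
noncomputable def bl (L : List P) (A Cc : P → V) (m : V → V) (s : V) : List V :=
  s :: m s :: ((plist L Cc s ++ plist L Cc (m s)).flatMap (fun g => [A g, m (A g)]))

theorem mem_bl (h : Setup T m pr) (hL : Spine T pr L A Cc) {s : V} (hs : pr s ∈ L) (v : V) :
    v ∈ bl L A Cc m s ↔ home pr L Cc v = pr s := by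
  simp only [bl, List.mem_cons, List.mem_flatMap, List.mem_append, mem_plist,
    List.not_mem_nil, or_false]
  constructor
  · rintro (rfl | rfl | ⟨g, hg, hv⟩)
    · rw [home, if_pos hs]
    · rw [home, h.pr_m, if_pos hs]
    · have hgL : g ∉ L := by rcases hg with hg | hg <;> exact hg.1
      have hprv : pr v = g := by
        rcases hv with rfl | rfl
        · exact hL.prA g hgL
        · rw [h.pr_m]; exact hL.prA g hgL
      rw [home, hprv, if_neg hgL]
      rcases hg with hg | hg
      · rw [hg.2]
      · rw [hg.2, h.pr_m]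
  · intro hv
    rw [home] at hv
    by_cases hvL : pr v ∈ L
    · rw [if_pos hvL, h.pr_eq] at hv
      tauto
    · rw [if_neg hvL, h.pr_eq] at hv
      right; right
      refine ⟨pr v, ?_, ?_⟩
      · rcases hv with hv | hv
        · left; exact ⟨hvL, hv⟩
        · right; exact ⟨hvL, hv⟩
      · have := hL.prA _ hvL
        have := (h.pr_eq _ _).1 this
        rcases this with h1 | h1
        · left; exact h1.symm
        · right; rw [h1, h.mm]

theorem nodup_bl (h : Setup T m pr) (hL : Spine T pr L A Cc) {s : V} (hs : pr s ∈ L) :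
    (bl L A Cc m s).Nodup := by
  have hpg : ∀ g ∈ plist L Cc s ++ plist L Cc (m s), g ∉ L := by
    intro g hg
    rw [List.mem_append, mem_plist, mem_plist] at hg
    rcases hg with hg | hg <;> exact hg.1
  have hpr : ∀ v ∈ (plist L Cc s ++ plist L Cc (m s)).flatMap (fun g => [A g, m (A g)]),
      pr v ∉ L := by
    intro v hv
    rw [List.mem_flatMap] at hv
    obtain ⟨g, hg, hv⟩ := hv
    have hgL := hpg g hg
    simp only [List.mem_cons, List.not_mem_nil, or_false] at hv
    rcases hv with rfl | rfl
    · rw [hL.prA g hgL]; exact hgL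
    · rw [h.pr_m, hL.prA g hgL]; exact hgL
  rw [bl, List.nodup_cons, List.nodup_cons, List.nodup_flatMap]
  refine ⟨?_, ?_, ?_, ?_⟩
  · intro hmem
    rcases List.mem_cons.1 hmem with h1 | h1
    · exact h.ne_m s h1
    · exact hpr s h1 hs
  · intro h1
    exact hpr _ h1 (by rw [h.pr_m]; exact hs)
  · intro g hg
    simp only [List.nodup_cons, List.mem_cons, List.not_mem_nil, or_false, not_false_eq_true,
      List.nodup_nil, and_true]
    exact h.ne_m _
  · have hnd : (plist L Cc s ++ plist L Cc (m s)).Nodup := by
      rw [List.nodup_append]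
      refine ⟨nodup_plist s, nodup_plist _, ?_⟩
      rintro g hg g' hg' rfl
      have h1 := (mem_plist.1 hg).2
      have h2 := (mem_plist.1 hg').2
      exact h.ne_m s (h1.symm.trans h2)
    refine hnd.imp_of_mem ?_
    intro g g' hg hg' hne
    rw [Function.onFun, List.disjoint_left]
    intro v hv hv'
    simp only [List.mem_cons, List.not_mem_nil, or_false] at hv hv'
    apply hne
    have h1 : pr v = g := by
      rcases hv with rfl | rfl
      · exact hL.prA g (hpg g hg)
      · rw [h.pr_m]; exact hL.prA g (hpg g hg)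
    have h2 : pr v = g' := by
      rcases hv' with rfl | rfl
      · exact hL.prA g' (hpg g' hg')
      · rw [h.pr_m]; exact hL.prA g' (hpg g' hg')
    rw [← h1, h2]

theorem blockOK_of_list (h : Setup T m pr) (hL : Spine T pr L A Cc) {s x : V} (hs : pr s ∈ L)
    {l : Lt} (hlen : (bl L A Cc m s).length = sz l)
    (hx : (bl L A Cc m s).getD (exi l) s = x)
    (hadj : ∀ d ∈ esl l, T.Adj ((bl L A Cc m s).getD d.1 s) ((bl L A Cc m s).getD d.2 s)) :
    BlockOK T pr L Cc (pr s) s x l (fun i => (bl L A Cc m s).getD i s) := by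
  have hget : ∀ i, (hi : i < sz l) → (bl L A Cc m s).getD i s = (bl L A Cc m s)[i]'(by omega) := by
    intro i hi
    rw [List.getD_eq_getElem _ _ (by omega)]
  refine ⟨rfl, hx, hadj, ?_, ?_, ?_⟩
  · intro i hi j hj hij
    rw [hget i hi, hget j hj] at hij
    exact (nodup_bl h hL hs).getElem_inj_iff.1 hij
  · intro i hi
    rw [hget i hi, ← mem_bl h hL hs]
    exact List.getElem_mem _
  · intro v hv
    rw [← mem_bl h hL hs, List.mem_iff_getElem] at hv
    obtain ⟨i, hi, hv⟩ := hv
    refine ⟨i, by omega, ?_⟩
    rw [hget i (by omega), hv]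

theorem exists_block (h : Setup T m pr) (hL : Spine T pr L A Cc) {s x : V} (hs : pr s ∈ L)
    (hcase : (x = s ∧ (plist L Cc s).length = 0 ∧ (plist L Cc (m s)).length ≤ 2) ∨
      (x = m s ∧ (plist L Cc s).length ≤ 1 ∧ (plist L Cc (m s)).length ≤ 1)) :
    ∃ l b, BlockOK T pr L Cc (pr s) s x l b := by
  have hadjs : ∀ g ∈ plist L Cc s, T.Adj s (A g) := by
    intro g hg
    obtain ⟨h1, h2⟩ := mem_plist.1 hg
    have := hL.adj g h1
    rwa [h2] at this
  have hadjt : ∀ g ∈ plist L Cc (m s), T.Adj (m s) (A g) := by
    intro g hg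
    obtain ⟨h1, h2⟩ := mem_plist.1 hg
    have := hL.adj g h1
    rwa [h2] at this
  have hbl : bl L A Cc m s =
    s :: m s :: ((plist L Cc s ++ plist L Cc (m s)).flatMap (fun g => [A g, m (A g)])) := rfl
  rcases hcase with ⟨rfl, h0, h1⟩ | ⟨rfl, h0, h1⟩
  · rw [List.length_eq_zero_iff] at h0
    rcases hp : plist L Cc (m x) with _ | ⟨g, _ | ⟨g', _ | ⟨g'', r⟩⟩⟩
    · rw [h0, hp] at hbl
      refine ⟨.S0, _, blockOK_of_list h hL hs ?_ ?_ ?_⟩
      · rw [hbl]; rfl
      · rw [hbl]; rfl
      · rw [hbl]
        simp [esl, h.madj]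
    · rw [h0, hp] at hbl
      rw [hp] at hadjt
      refine ⟨.S1, _, blockOK_of_list h hL hs ?_ ?_ ?_⟩
      · rw [hbl]; rfl
      · rw [hbl]; rfl
      · rw [hbl]
        simp [esl, h.madj, hadjt g (by simp)]
    · rw [h0, hp] at hbl
      rw [hp] at hadjt
      refine ⟨.S2, _, blockOK_of_list h hL hs ?_ ?_ ?_⟩
      · rw [hbl]; rfl
      · rw [hbl]; rfl
      · rw [hbl]
        simp [esl, h.madj, hadjt g (by simp), hadjt g' (by simp)]
    · rw [hp] at h1
      simp at h1
  · rcases hq : plist L Cc s with _ | ⟨g, _ | ⟨g', r⟩⟩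
    · rcases hp : plist L Cc (m s) with _ | ⟨k, _ | ⟨k', r⟩⟩
      · rw [hq, hp] at hbl
        refine ⟨.D00, _, blockOK_of_list h hL hs ?_ ?_ ?_⟩
        · rw [hbl]; rfl
        · rw [hbl]; rfl
        · rw [hbl]
          simp [esl, h.madj]
      · rw [hq, hp] at hbl
        rw [hp] at hadjt
        refine ⟨.D01, _, blockOK_of_list h hL hs ?_ ?_ ?_⟩
        · rw [hbl]; rfl
        · rw [hbl]; rfl
        · rw [hbl]
          simp [esl, h.madj, hadjt k (by simp)]
      · rw [hp] at h1
        simp at h1
    · rcases hp : plist L Cc (m s) with _ | ⟨k, _ | ⟨k', r⟩⟩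
      · rw [hq, hp] at hbl
        rw [hq] at hadjs
        refine ⟨.D10, _, blockOK_of_list h hL hs ?_ ?_ ?_⟩
        · rw [hbl]; rfl
        · rw [hbl]; rfl
        · rw [hbl]
          simp [esl, h.madj, hadjs g (by simp)]
      · rw [hq, hp] at hbl
        rw [hq] at hadjs
        rw [hp] at hadjt
        refine ⟨.D11, _, blockOK_of_list h hL hs ?_ ?_ ?_⟩
        · rw [hbl]; rfl
        · rw [hbl]; rfl
        · rw [hbl]
          simp [esl, h.madj, hadjs g (by simp), hadjt k (by simp)]
      · rw [hp] at h1
        simp at h1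
    · rw [hq] at h0
      simp at h0

/-- The word of a final segment of the spine. -/
theorem build (h : Setup T m pr) (hL : Spine T pr L A Cc)
    (hch : L.IsChain (fun e f => ∃ a b, pr a = e ∧ pr b = f ∧ T.Adj a b))
    (hlast : ∀ L1 e, L = L1 ++ [e] → ∀ c, pr c = e → plist L Cc c = []) :
    ∀ (L' : List P) (e : P) (L1 : List P), L = L1 ++ e :: L' → ∀ s, pr s = e →
      ((∀ c, pr c = e → plist L Cc c = []) ∨ ∃ z, T.Adj z s ∧ pr z ∈ L ∧ pr z ∉ e :: L') →
      ∃ (w : List Lt) (g : ℕ → V), w ≠ [] ∧ g 0 = s ∧ (∀ d ∈ E w, T.Adj (g d.1) (g d.2)) ∧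
        (∀ i < tot w, ∀ j < tot w, g i = g j → i = j) ∧
        (∀ i < tot w, home pr L Cc (g i) ∈ e :: L') ∧
        (∀ v, home pr L Cc v ∈ e :: L' → ∃ i < tot w, g i = v) := by
  intro L'
  induction L' with
  | nil =>
    intro e L1 hLe s hs _
    have he : e ∈ L := by rw [hLe]; simp
    have hnil := hlast L1 e hLe
    obtain ⟨l, b, hb⟩ := exists_block h hL (s := s) (x := s) (by rw [hs]; exact he)
      (Or.inl ⟨rfl, by rw [hnil s hs]; rfl, by rw [hnil (m s) (by rw [h.pr_m, hs])]; simp⟩)
    rw [hs] at hb
    refine ⟨[l], b, by simp, hb.ent, hb.adj, ?_, ?_, ?_⟩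
    · simpa [tot] using hb.inj
    · intro i hi
      rw [hb.hom i (by simpa [tot] using hi)]
      simp
    · intro v hv
      have := hb.sur v (by simpa using hv)
      simpa [tot] using this
  | cons e' L'' ih =>
    intro e L1 hLe s hs hz
    have he : e ∈ L := by rw [hLe]; simp
    have he' : e' ∈ L := by rw [hLe]; simp
    have hnd := hL.nd
    rw [hLe, List.nodup_append] at hnd
    have hnd2 := hnd.2.1
    have hne : e ∉ e' :: L'' := (List.nodup_cons.1 hnd2).1
    -- the link
    have hlink : ∃ a b, pr a = e ∧ pr b = e' ∧ T.Adj a b := by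
      rw [hLe] at hch
      have h2 := (List.isChain_append.1 hch).2.1
      exact (List.isChain_cons_cons.1 h2).1
    obtain ⟨a, b', ha, hb', hab⟩ := hlink
    have hb'e : pr b' ≠ e := by
      rw [hb']; rintro rfl; exact hne (by simp)
    -- the letter
    have hcase : (a = s ∧ (plist L Cc s).length = 0 ∧ (plist L Cc (m s)).length ≤ 2) ∨
      (a = m s ∧ (plist L Cc s).length ≤ 1 ∧ (plist L Cc (m s)).length ≤ 1) := by
      have hpa : pr a = pr s := by rw [ha, hs]
      rw [h.pr_eq] at hpa
      rcases hz with hz | ⟨z, hz1, hz2, hz3⟩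
      · have h1 := hz s hs
        have h2 := hz (m s) (by rw [h.pr_m, hs])
        rw [h1, h2]
        rcases hpa with hpa | hpa
        · left; exact ⟨hpa, rfl, by simp⟩
        · right; exact ⟨hpa, by simp, by simp⟩
      · have hze : pr z ≠ e := by rintro h1; exact hz3 (by rw [h1]; simp)
        have hzb : z ≠ b' := by rintro rfl; exact hz3 (by rw [hb']; simp)
        have hzm : z ≠ m s := by rintro rfl; exact hze (by rw [h.pr_m, hs])
        have hbm : b' ≠ m s := by rintro rfl; exact hb'e (by rw [h.pr_m, hs])
        have hbs : b' ≠ s := by rintro rfl; exact hb'e hs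
        classical
        rcases hpa with rfl | rfl
        · left
          refine ⟨rfl, ?_, ?_⟩
          · have := plist_bound h hL a {m a, z, b'} (by
              intro y hy
              simp only [Finset.mem_insert, Finset.mem_singleton] at hy
              rcases hy with rfl | rfl | rfl
              · exact ⟨h.madj a, by rw [h.pr_m, ha]; exact he⟩
              · exact ⟨hz1.symm, hz2⟩
              · exact ⟨hab, by rw [hb']; exact he'⟩)
            rw [Finset.card_insert_of_notMem (by simp [hzm.symm, hbm.symm]),
              Finset.card_insert_of_notMem (by simp [hzb]), Finset.card_singleton] at this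
            omega
          · have := plist_bound h hL (m a) {a} (by
              intro y hy
              rw [Finset.mem_singleton] at hy
              subst hy
              exact ⟨(h.madj y).symm, by rw [ha]; exact he⟩)
            rw [Finset.card_singleton] at this
            omega
        · right
          refine ⟨rfl, ?_, ?_⟩
          · have := plist_bound h hL s {m s, z} (by
              intro y hy
              simp only [Finset.mem_insert, Finset.mem_singleton] at hy
              rcases hy with rfl | rfl
              · exact ⟨h.madj s, by rw [ha]; exact he⟩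
              · exact ⟨hz1.symm, hz2⟩)
            rw [Finset.card_insert_of_notMem (by simp [hzm.symm]), Finset.card_singleton] at this
            omega
          · have := plist_bound h hL (m s) {s, b'} (by
              intro y hy
              simp only [Finset.mem_insert, Finset.mem_singleton] at hy
              rcases hy with rfl | rfl
              · exact ⟨(h.madj y).symm, by rw [hs]; exact he⟩
              · exact ⟨hab, by rw [hb']; exact he'⟩)
            rw [Finset.card_insert_of_notMem (by simp [hbs.symm]), Finset.card_singleton] at this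
            omega
    obtain ⟨l, b, hb⟩ := exists_block h hL (s := s) (x := a) (by rw [hs]; exact he) hcase
    rw [hs] at hb
    obtain ⟨w, g, hw, hg0, hgE, hgi, hgh, hgs⟩ := ih e' (L1 ++ [e]) (by rw [hLe]; simp) b' hb'
      (Or.inr ⟨a, hab, by rw [ha]; exact he, by rw [ha]; exact hne⟩)
    have hlo : ∀ i, i < sz l → (if i < sz l then b i else g (i - sz l)) = b i :=
      fun i hi => if_pos hi
    have hhi : ∀ i, (if sz l + i < sz l then b (sz l + i) else g (sz l + i - sz l)) = g i := by
      intro i
      rw [if_neg (by omega), Nat.add_sub_cancel_left]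
    have hsl := sz_pos l
    refine ⟨l :: w, fun i => if i < sz l then b i else g (i - sz l), by simp, ?_, ?_, ?_, ?_, ?_⟩
    · simp only
      rw [hlo 0 (by omega)]
      exact hb.ent
    · intro d hd
      rw [E_cons l hw, List.mem_append, List.mem_cons] at hd
      simp only
      rcases hd with hd | rfl | hd
      · have := esl_lt l d hd
        rw [hlo _ (by omega), hlo _ (by omega)]
        exact hb.adj d hd
      · simp only
        have h0 := hhi 0
        rw [add_zero] at h0
        rw [hlo _ (exi_lt l), h0, hb.ext, hg0]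
        exact hab
      · obtain ⟨d', hd', rfl⟩ := mem_shf.1 hd
        simp only
        rw [hhi, hhi]
        exact hgE d' hd'
    · intro i hi j hj hij
      simp only [tot] at hi hj
      simp only at hij
      split_ifs at hij with h1 h2 h2
      · exact hb.inj i h1 j h2 hij
      · exfalso
        have h3 := hb.hom i h1
        have h4 := hgh (j - sz l) (by omega)
        rw [← hij, h3] at h4
        exact hne h4
      · exfalso
        have h3 := hb.hom j h2
        have h4 := hgh (i - sz l) (by omega)
        rw [hij, h3] at h4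
        exact hne h4
      · have := hgi (i - sz l) (by omega) (j - sz l) (by omega) hij
        omega
    · intro i hi
      simp only [tot] at hi
      simp only
      split_ifs with h1
      · rw [hb.hom i h1]; simp
      · exact List.mem_cons_of_mem _ (hgh (i - sz l) (by omega))
    · intro v hv
      rcases List.mem_cons.1 hv with hv | hv
      · obtain ⟨i, hi, h1⟩ := hb.sur v hv
        refine ⟨i, by simp only [tot]; omega, ?_⟩
        simp only
        rw [hlo i hi, h1]
      · obtain ⟨i, hi, h1⟩ := hgs v hv
        refine ⟨sz l + i, by simp only [tot]; omega, ?_⟩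
        simp only
        rw [hhi, h1]

end CatW
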