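import Mathlib

/-! Words over seven letters describing caterpillar-like trees with a perfect matching, labellings
of these trees with prescribed end labels, and the gluing of two labelled words. -/

namespace CatW

/-- The seven letters. Each letter is a matched pair `s, t` (vertices `0`, `1`) with pendant paths
with two vertices (`2, 3` and `4, 5`) attached. The word is entered at `s`; it is left at `s` for the
letters `S0, S1, S2` (with `0, 1, 2` pendant paths at `t`) and at `t` for the letters `D00, D10, D01,
D11` (where the two digits are the numbers of pendant paths at `s` and `t`). -/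
inductive Lt
  | S0 | S1 | S2 | D00 | D10 | D01 | D11

/-- Number of vertices of a letter. -/
def sz : Lt → ℕ
  | .S0 => 2
  | .S1 => 4
  | .S2 => 6
  | .D00 => 2
  | .D10 => 4
  | .D01 => 4
  | .D11 => 6

/-- Exit vertex of a letter. -/
def exi : Lt → ℕ
  | .S0 => 0
  | .S1 => 0
  | .S2 => 0
  | .D00 => 1
  | .D10 => 1
  | .D01 => 1
  | .D11 => 1

/-- Edges of a letter. -/
def esl : Lt → List (ℕ × ℕ)
  | .S0 => [(0, 1)]
  | .S1 => [(0, 1), (1, 2), (2, 3)]
  | .S2 => [(0, 1), (1, 2), (2, 3), (1, 4), (4, 5)]
  | .D00 => [(0, 1)]
  | .D10 => [(0, 1), (0, 2), (2, 3)]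
  | .D01 => [(0, 1), (1, 2), (2, 3)]
  | .D11 => [(0, 1), (0, 2), (2, 3), (1, 4), (4, 5)]

/-- Number of vertices of a word. -/
def tot : List Lt → ℕ
  | [] => 0
  | l :: w => sz l + tot w

/-- Exit vertex of a word. -/
def exw : List Lt → ℕ
  | [] => 0
  | l :: w => match w with
    | [] => exi l
    | _ :: _ => sz l + exw w

/-- Shift of a list of edges. -/
def shf (d : ℕ) (L : List (ℕ × ℕ)) : List (ℕ × ℕ) := L.map (fun e => (d + e.1, d + e.2))

/-- Edges of a word. -/
def E : List Lt → List (ℕ × ℕ)
  | [] => []
  | l :: w => match w with
    | [] => esl l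
    | _ :: _ => esl l ++ (exi l, sz l) :: shf (sz l) (E w)

theorem E_single (l : Lt) : E [l] = esl l := rfl

theorem E_cons (l : Lt) {w : List Lt} (hw : w ≠ []) :
    E (l :: w) = esl l ++ (exi l, sz l) :: shf (sz l) (E w) := by
  cases w with
  | nil => exact absurd rfl hw
  | cons a w => rfl

theorem exw_single (l : Lt) : exw [l] = exi l := rfl

theorem exw_cons (l : Lt) {w : List Lt} (hw : w ≠ []) : exw (l :: w) = sz l + exw w := by
  cases w with
  | nil => exact absurd rfl hw
  | cons a w => rfl

theorem tot_append (u v : List Lt) : tot (u ++ v) = tot u + tot v := by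
  induction u with
  | nil => simp [tot]
  | cons l u ih => simp only [List.cons_append, tot, ih]; ring

theorem shf_append (d : ℕ) (L L' : List (ℕ × ℕ)) : shf d (L ++ L') = shf d L ++ shf d L' := by
  simp [shf]

theorem shf_shf (d d' : ℕ) (L : List (ℕ × ℕ)) : shf d (shf d' L) = shf (d + d') L := by
  simp [shf, add_assoc]

theorem shf_cons (d : ℕ) (e : ℕ × ℕ) (L : List (ℕ × ℕ)) :
    shf d (e :: L) = (d + e.1, d + e.2) :: shf d L := rfl

theorem exw_append {u v : List Lt} (hu : u ≠ []) (hv : v ≠ []) :
    exw (u ++ v) = tot u + exw v := by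
  induction u with
  | nil => exact absurd rfl hu
  | cons l u ih =>
    rw [List.cons_append, exw_cons l (by simp [hv])]
    by_cases h : u = []
    · subst h; simp [tot]
    · rw [ih h]; simp only [tot]; ring

theorem E_append {u v : List Lt} (hu : u ≠ []) (hv : v ≠ []) :
    E (u ++ v) = E u ++ (exw u, tot u) :: shf (tot u) (E v) := by
  induction u with
  | nil => exact absurd rfl hu
  | cons l u ih =>
    rw [List.cons_append, E_cons l (by simp [hv])]
    by_cases h : u = []
    · subst h; simp [tot, exw, E]
    · rw [ih h, E_cons l h, exw_cons l h]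
      simp only [tot, shf_append, shf_cons, shf_shf, List.append_assoc, List.cons_append]

theorem sz_pos (l : Lt) : 2 ≤ sz l := by cases l <;> decide

theorem exi_lt (l : Lt) : exi l < sz l := by cases l <;> decide

theorem esl_lt (l : Lt) : ∀ e ∈ esl l, e.1 < e.2 ∧ e.2 < sz l := by
  cases l <;> decide

theorem tot_pos {w : List Lt} (hw : w ≠ []) : 2 ≤ tot w := by
  cases w with
  | nil => exact absurd rfl hw
  | cons l w => have := sz_pos l; simp only [tot]; omega

theorem exw_lt {w : List Lt} (hw : w ≠ []) : exw w < tot w := by
  induction w with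
  | nil => exact absurd rfl hw
  | cons l w ih =>
    by_cases h : w = []
    · subst h; have := exi_lt l; simpa [exw, tot] using this
    · rw [exw_cons l h]; have := ih h; simp only [tot]; omega

theorem mem_shf {d : ℕ} {L : List (ℕ × ℕ)} {e : ℕ × ℕ} :
    e ∈ shf d L ↔ ∃ e' ∈ L, e = (d + e'.1, d + e'.2) := by
  simp only [shf, List.mem_map]
  constructor
  · rintro ⟨a, h, rfl⟩; exact ⟨a, h, rfl⟩
  · rintro ⟨a, h, rfl⟩; exact ⟨a, h, rfl⟩

theorem E_lt {w : List Lt} : ∀ e ∈ E w, e.1 < e.2 ∧ e.2 < tot w := by
  induction w with
  | nil => simp [E]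
  | cons l w ih =>
    intro e he
    by_cases h : w = []
    · subst h; have := esl_lt l e he; simpa [tot] using this
    · rw [E_cons l h, List.mem_append, List.mem_cons] at he
      have h1 := exi_lt l
      have h2 := tot_pos h
      simp only [tot]
      rcases he with he | rfl | he
      · have := esl_lt l e he; omega
      · constructor
        · exact h1
        · simp only; omega
      · obtain ⟨e', he', rfl⟩ := mem_shf.1 he
        have := ih e' he'
        simp only
        omega

theorem esl_length (l : Lt) : (esl l).length + 1 = sz l := by cases l <;> rfl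

theorem E_length {w : List Lt} (hw : w ≠ []) : (E w).length + 1 = tot w := by
  induction w with
  | nil => exact absurd rfl hw
  | cons l w ih =>
    by_cases h : w = []
    · subst h; have := esl_length l; simpa [E, tot] using this
    · rw [E_cons l h]
      have := ih h
      have h1 := esl_length l
      simp only [List.length_append, List.length_cons, shf, List.length_map, tot]
      omega

/-- A labelling of a word: labels `f i`, classes `c i`; `x` is the label of the entry vertex and `y`
the label of the exit vertex counted from the top. -/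
structure WLab (w : List Lt) (x y : ℕ) (f : ℕ → ℕ) (c : ℕ → Bool) : Prop where
  lt : ∀ i < tot w, 2 * f i < tot w
  inj : ∀ i < tot w, ∀ j < tot w, c i = c j → f i = f j → i = j
  col : ∀ e ∈ E w, c e.1 ≠ c e.2
  sum : (E w).Pairwise (fun e e' => f e.1 + f e.2 ≠ f e'.1 + f e'.2)
  ent : f 0 = x
  ext : 2 * (f (exw w) + y + 1) = tot w

def Rel (w : List Lt) (x y : ℕ) : Prop := ∃ f c, WLab w x y f c

/-- Gluing two labelled words. -/
theorem Rel.glue {u v : List Lt} (hu : u ≠ []) (hv : v ≠ []) {x y z : ℕ} (h1 : Rel u x y)
    (h2 : Rel v y z) : Rel (u ++ v) x z := by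
  obtain ⟨f, c, hf⟩ := h1
  obtain ⟨g, d, hg⟩ := h2
  have hue := hf.ext
  have hve := hg.ext
  have hu2 := tot_pos hu
  have hv2 := tot_pos hv
  have hexu := exw_lt hu
  have hexv := exw_lt hv
  obtain ⟨N, hN⟩ : ∃ N, tot u = 2 * N := ⟨_, hue.symm⟩
  -- flip the classes of the second part if necessary
  let flip : Bool := (c (exw u) == d 0)
  refine ⟨fun i => if i < tot u then f i else N + g (i - tot u),
    fun i => if i < tot u then c i else xor flip (d (i - tot u)), ?_⟩
  have hlow : ∀ i, i < tot u → (if i < tot u then f i else N + g (i - tot u)) = f i :=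
    fun i hi => if_pos hi
  have hhigh : ∀ i, (if tot u + i < tot u then f (tot u + i)
      else N + g (tot u + i - tot u)) = N + g i := by
    intro i
    rw [if_neg (by omega), Nat.add_sub_cancel_left]
  have clow : ∀ i, i < tot u → (if i < tot u then c i else xor flip (d (i - tot u))) = c i :=
    fun i hi => if_pos hi
  have chigh : ∀ i, (if tot u + i < tot u then c (tot u + i)
      else xor flip (d (tot u + i - tot u))) = xor flip (d i) := by
    intro i
    rw [if_neg (by omega), Nat.add_sub_cancel_left]
  have hflip : c (exw u) ≠ xor flip (d 0) := by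
    simp only [flip]
    cases c (exw u) <;> cases d 0 <;> simp
  refine ⟨?_, ?_, ?_, ?_, ?_, ?_⟩
  · intro i hi
    rw [tot_append] at hi ⊢
    split_ifs with h
    · have := hf.lt i h; omega
    · have := hg.lt (i - tot u) (by omega); omega
  · intro i hi j hj hc hl
    rw [tot_append] at hi hj
    split_ifs at hc hl with h h'
    · exact hf.inj i h j h' hc hl
    · have := hf.lt i h; omega
    · rename_i h'
      have := hf.lt j h'; omega
    · rename_i h'
      have := hg.inj (i - tot u) (by omega) (j - tot u) (by omega)
        (by simpa using hc) (by omega)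
      omega
  · intro e he
    rw [E_append hu hv, List.mem_append, List.mem_cons] at he
    rcases he with he | rfl | he
    · have := E_lt e he
      rw [clow _ (by omega), clow _ (by omega)]
      exact hf.col e he
    · simp only
      rw [clow _ hexu]
      have := chigh 0
      rw [add_zero] at this
      rw [this]
      exact hflip
    · obtain ⟨e', he', rfl⟩ := mem_shf.1 he
      simp only
      rw [chigh, chigh]
      have := hg.col e' he'
      simpa using this
  · rw [E_append hu hv, List.pairwise_append]
    have hs1 : ∀ e ∈ E u, f e.1 + f e.2 + 1 < 2 * N := by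
      intro e he
      have h1 := E_lt e he
      have h2 := hf.lt e.1 (by omega)
      have h3 := hf.lt e.2 (by omega)
      omega
    refine ⟨?_, ?_, ?_⟩
    · refine hf.sum.imp_of_mem ?_
      intro a b ha hb hab
      have h1 := E_lt a ha
      have h2 := E_lt b hb
      rw [hlow _ (by omega), hlow _ (by omega), hlow _ (by omega), hlow _ (by omega)]
      exact hab
    · rw [List.pairwise_cons]
      refine ⟨?_, ?_⟩
      · intro e he
        obtain ⟨e', he', rfl⟩ := mem_shf.1 he
        simp only
        rw [hlow _ hexu, hhigh, hhigh]
        have := hhigh 0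
        rw [add_zero] at this
        rw [this, hg.ent]
        omega
      · rw [shf, List.pairwise_map]
        refine hg.sum.imp ?_
        intro a b hab
        simp only
        rw [hhigh, hhigh, hhigh, hhigh]
        omega
    · intro a ha b hb
      have h1 := E_lt a ha
      have h2 := hs1 a ha
      rw [List.mem_cons] at hb
      rw [hlow _ (by omega), hlow _ (by omega)]
      rcases hb with rfl | hb
      · simp only
        rw [hlow _ hexu]
        have := hhigh 0
        rw [add_zero] at this
        rw [this, hg.ent]
        omega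
      · obtain ⟨e', he', rfl⟩ := mem_shf.1 hb
        simp only
        rw [hhigh, hhigh]
        omega
  · rw [if_pos (by omega)]
    exact hf.ent
  · rw [exw_append hu hv, tot_append]
    rw [hhigh]
    omega

/-- `Ach p y`: the word `p` has a labelling with end label `y` (no condition for the empty word). -/
def Ach (p : List Lt) (y : ℕ) : Prop := p = [] ∨ ∃ x, Rel p x y

theorem Ach.glue {u v : List Lt} {y z : ℕ} (h1 : Ach u y) (hv : v ≠ []) (h2 : Rel v y z) :
    Ach (u ++ v) z := by
  rcases h1 with rfl | ⟨x, hx⟩
  · right; exact ⟨y, by simpa using h2⟩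
  · by_cases hu : u = []
    · subst hu; right; exact ⟨y, by simpa using h2⟩
    · right; exact ⟨x, hx.glue hu hv h2⟩

end CatW
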